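import Mathlib

/-! # Averages over spheres of finite dimensional Euclidean spaces -/

set_option autoImplicit false

namespace Pool.Agent.Y278.Rot

open Set Filter Topology MeasureTheory

section

variable {W : Type} [NormedAddCommGroup W] [InnerProductSpace ℝ W] [FiniteDimensional ℝ W]
  [MeasurableSpace W] [BorelSpace W]

/-- the punctured unit ball -/
def pball (W : Type) [NormedAddCommGroup W] : Set W := Metric.ball (0 : W) 1 \ {0}

/-- bounded and continuous on the sphere -/
def Cs (W : Type) [NormedAddCommGroup W] (g : W → ℝ) : Prop :=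
  (∃ C : ℝ, ∀ x, ‖x‖ = 1 → |g x| ≤ C) ∧ ContinuousOn g {x | ‖x‖ = 1}

lemma pball_meas : MeasurableSet (pball W) := measurableSet_ball.diff (measurableSet_singleton 0)

omit [FiniteDimensional ℝ W] [MeasurableSpace W] [BorelSpace W] in
lemma unit_of_pball {x : W} (hx : x ∈ pball W) : ‖‖x‖⁻¹ • x‖ = 1 := by
  have h : x ≠ 0 := hx.2
  rw [norm_smul, norm_inv, norm_norm, inv_mul_cancel₀ (norm_ne_zero_iff.2 h)]

lemma pball_fin : volume (pball W) ≠ ⊤ :=
  ((measure_mono sdiff_subset).trans_lt measure_ball_lt_top).ne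

lemma intOn {g : W → ℝ} (hg : Cs W g) :
    IntegrableOn (fun x : W => g (‖x‖⁻¹ • x)) (pball W) volume := by
  obtain ⟨⟨C, hC⟩, hc⟩ := hg
  have h1 : ContinuousOn (fun x : W => g (‖x‖⁻¹ • x)) (pball W) := by
    refine hc.comp (t := {x | ‖x‖ = 1}) ?_ fun x hx => unit_of_pball hx
    refine ContinuousOn.smul (ContinuousOn.inv₀ continuous_norm.continuousOn fun x hx => ?_)
      continuousOn_id
    exact norm_ne_zero_iff.2 hx.2
  refine IntegrableOn.of_bound (C := C) pball_fin.lt_top (h1.aestronglyMeasurable pball_meas) ?_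
  rw [ae_restrict_iff' pball_meas]
  exact Eventually.of_forall fun x hx => hC _ (unit_of_pball hx)

/-- the average -/
noncomputable def avg (g : W → ℝ) : ℝ :=
  (∫ x in pball W, g (‖x‖⁻¹ • x)) / volume.real (pball W)

lemma avg_add {g h : W → ℝ} (hg : Cs W g) (hh : Cs W h) :
    avg (fun x => g x + h x) = avg g + avg h := by
  unfold avg
  rw [← add_div, ← integral_add (intOn hg) (intOn hh)]

lemma avg_smul (r : ℝ) (g : W → ℝ) : avg (fun x => r * g x) = r * avg g := by
  unfold avg
  rw [mul_div_assoc', ← integral_const_mul]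

lemma avg_nonneg {g : W → ℝ} (h : ∀ x, ‖x‖ = 1 → 0 ≤ g x) : 0 ≤ avg g := by
  unfold avg
  refine div_nonneg (setIntegral_nonneg pball_meas fun x hx => ?_) measureReal_nonneg
  exact h _ (unit_of_pball hx)

lemma avg_one [Nontrivial W] : avg (fun _ : W => (1 : ℝ)) = 1 := by
  unfold avg
  have h1 : volume.real (pball W) ≠ 0 := by
    have h2 : (pball W).Nonempty := by
      obtain ⟨x, hx⟩ := exists_ne (0 : W)
      have hn : 0 < ‖x‖ := norm_pos_iff.2 hx
      refine ⟨(2 * ‖x‖)⁻¹ • x, ?_, ?_⟩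
      · rw [mem_ball_zero_iff, norm_smul, norm_inv, Real.norm_of_nonneg (by positivity)]
        rw [mul_inv, mul_assoc, inv_mul_cancel₀ hn.ne']
        norm_num
      · have : (2 * ‖x‖)⁻¹ • x ≠ 0 := smul_ne_zero (by positivity) hx
        exact this
    have h3 : IsOpen (pball W) := Metric.isOpen_ball.sdiff isClosed_singleton
    have h4 : 0 < volume (pball W) := h3.measure_pos volume h2
    exact (ENNReal.toReal_pos h4.ne' pball_fin).ne'
  rw [setIntegral_const, smul_eq_mul, mul_one, div_self h1]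

lemma avg_abs_le {g : W → ℝ} {C : ℝ} (hC0 : 0 ≤ C) (h : ∀ x, ‖x‖ = 1 → |g x| ≤ C) :
    |avg g| ≤ C := by
  unfold avg
  rw [abs_div, abs_of_nonneg (measureReal_nonneg (μ := volume) (s := pball W))]
  have h1 : ‖∫ x in pball W, g (‖x‖⁻¹ • x)‖ ≤ C * volume.real (pball W) :=
    norm_setIntegral_le_of_norm_le_const pball_fin.lt_top fun x hx => h _ (unit_of_pball hx)
  rcases eq_or_ne (volume.real (pball W)) 0 with h0 | h0
  · rw [h0, div_zero]; exact hC0
  · have h2 : 0 < volume.real (pball W) := lt_of_le_of_ne measureReal_nonneg (Ne.symm h0)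
    rw [div_le_iff₀ h2]
    exact h1

lemma avg_map (S : W ≃ₗᵢ[ℝ] W) (g : W → ℝ) : avg (fun x => g (S x)) = avg g := by
  unfold avg
  congr 1
  have h1 : MeasurePreserving S volume volume := S.measurePreserving
  have h2 : S ⁻¹' (pball W) = pball W := by
    ext x
    show S x ∈ pball W ↔ x ∈ pball W
    unfold pball
    rw [Set.mem_sdiff, Set.mem_sdiff, mem_ball_zero_iff, mem_ball_zero_iff, S.norm_map,
      mem_singleton_iff, mem_singleton_iff]
    simp
  have h3 := h1.setIntegral_preimage_emb S.toHomeomorph.measurableEmbedding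
    (fun x : W => g (‖x‖⁻¹ • x)) (pball W)
  rw [h2] at h3
  rw [← h3]
  refine setIntegral_congr_fun pball_meas fun x _ => ?_
  simp only [S.norm_map, map_smul]

lemma avg_sub_le {g h : W → ℝ} (hg : Cs W g) (hh : Cs W h) {ε : ℝ} (hε : 0 ≤ ε)
    (hgh : ∀ x, ‖x‖ = 1 → |g x - h x| ≤ ε) : |avg g - avg h| ≤ ε := by
  have h1 : avg g - avg h = avg (fun x => g x + (-1) * h x) := by
    rw [avg_add hg ⟨?_, ?_⟩, avg_smul]
    · ring
    · obtain ⟨C, hC⟩ := hh.1
      exact ⟨C, fun x hx => by rw [neg_one_mul, abs_neg]; exact hC x hx⟩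
    · exact continuousOn_const.mul hh.2
  rw [h1]
  refine avg_abs_le hε fun x hx => ?_
  have := hgh x hx
  rwa [neg_one_mul, ← sub_eq_add_neg]

end

end Pool.Agent.Y278.Rot
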