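import Pool.Agent.Y278.Rot.HessMain

/-! # Invariant means on the sphere -/

set_option autoImplicit false

namespace Pool.Agent.Y278.Rot

open Set Filter Topology Asymptotics

/-- Functions which, on the unit sphere, are bounded, continuous and uniformly continuous along
the isometry group with the topology of pointwise convergence. -/
def UCS (E : Type) [NormedAddCommGroup E] [NormedSpace ℝ E] (F : E → ℝ) : Prop :=
  (∃ C : ℝ, ∀ x, ‖x‖ = 1 → |F x| ≤ C) ∧ ContinuousOn F {x | ‖x‖ = 1} ∧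
  ∀ ε : ℝ, 0 < ε → ∃ (m : ℕ) (e : Fin m → E) (κ : ℝ), 0 < κ ∧ ∀ T : E ≃ₗᵢ[ℝ] E,
    (∀ i, ‖T (e i) - e i‖ ≤ κ) → ∀ x, ‖x‖ = 1 → |F (T x) - F x| ≤ ε

/-- There is an invariant mean on these functions. -/
def SphereAmenable (E : Type) [NormedAddCommGroup E] [NormedSpace ℝ E] : Prop :=
  ∃ M : (E → ℝ) → ℝ,
    (∀ F F', UCS E F → UCS E F' → M (fun x => F x + F' x) = M F + M F') ∧
    (∀ (r : ℝ) F, UCS E F → M (fun x => r * F x) = r * M F) ∧
    (∀ F, UCS E F → (∀ x, ‖x‖ = 1 → 0 ≤ F x) → 0 ≤ M F) ∧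
    M (fun _ => 1) = 1 ∧
    ∀ (T : E ≃ₗᵢ[ℝ] E) F, UCS E F → M (fun x => F (T x)) = M F

variable {E : Type} [NormedAddCommGroup E] [NormedSpace ℝ E]

lemma UCS_const (r : ℝ) : UCS E (fun _ => r) :=
  ⟨⟨|r|, fun _ _ => le_rfl⟩, continuousOn_const, fun ε hε => ⟨0, Fin.elim0, 1, one_pos,
    fun T _ x _ => by simp [hε.le]⟩⟩

lemma UCS_smul {F : E → ℝ} (hF : UCS E F) (r : ℝ) : UCS E (fun x => r * F x) := by
  obtain ⟨⟨C, hC⟩, hc, hu⟩ := hF
  refine ⟨⟨|r| * C, fun x hx => by rw [abs_mul]; gcongr; exact hC x hx⟩,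
    continuousOn_const.mul hc, fun ε hε => ?_⟩
  obtain ⟨m, e, κ, hκ, h⟩ := hu (ε / (|r| + 1)) (by positivity)
  refine ⟨m, e, κ, hκ, fun T hT x hx => ?_⟩
  have h1 := h T hT x hx
  rw [← mul_sub, abs_mul]
  calc |r| * |F (T x) - F x| ≤ (|r| + 1) * (ε / (|r| + 1)) := by gcongr; linarith
    _ = ε := by field_simp

lemma UCS_add {F F' : E → ℝ} (hF : UCS E F) (hF' : UCS E F') : UCS E (fun x => F x + F' x) := by
  obtain ⟨⟨C, hC⟩, hc, hu⟩ := hF
  obtain ⟨⟨C', hC'⟩, hc', hu'⟩ := hF'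
  refine ⟨⟨C + C', fun x hx => (abs_add_le _ _).trans (add_le_add (hC x hx) (hC' x hx))⟩,
    hc.add hc', fun ε hε => ?_⟩
  obtain ⟨m, e, κ, hκ, h⟩ := hu (ε / 2) (by positivity)
  obtain ⟨m', e', κ', hκ', h'⟩ := hu' (ε / 2) (by positivity)
  refine ⟨m + m', Fin.append e e', min κ κ', lt_min hκ hκ', fun T hT x hx => ?_⟩
  have h1 := h T (fun i => by
    have := hT (Fin.castAdd m' i)
    rw [Fin.append_left] at this
    exact this.trans (min_le_left _ _)) x hx
  have h2 := h' T (fun i => by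
    have := hT (Fin.natAdd m i)
    rw [Fin.append_right] at this
    exact this.trans (min_le_right _ _)) x hx
  have e1 : F (T x) + F' (T x) - (F x + F' x) = (F (T x) - F x) + (F' (T x) - F' x) := by ring
  rw [e1]
  exact (abs_add_le _ _).trans (by linarith)

/-- Cauchy-Schwarz with bounds -/
lemma form_bound {B : E →L[ℝ] E →L[ℝ] ℝ} {C : ℝ} (hs : ∀ v w, B v w = B w v)
    (h0 : ∀ w, 0 ≤ B w w) (hC : ∀ w, B w w ≤ C * ‖w‖ ^ 2) (v w : E) :
    |B v w| ≤ C * ‖v‖ * ‖w‖ := by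
  rcases eq_or_ne v 0 with rfl | hv
  · simp
  rcases eq_or_ne w 0 with rfl | hw
  · simp
  have hv0 : 0 < ‖v‖ := norm_pos_iff.2 hv
  have hw0 : 0 < ‖w‖ := norm_pos_iff.2 hw
  have key : ∀ a b : E, ‖a‖ = 1 → ‖b‖ = 1 → |B a b| ≤ C := by
    intro a b ha hb
    have e1 : B (a + b) (a + b) = B a a + 2 * B a b + B b b := by
      simp only [map_add, _root_.add_apply]
      rw [hs b a]; ring
    have e2 : B (a - b) (a - b) = B a a - 2 * B a b + B b b := by
      simp only [map_sub, _root_.sub_apply]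
      rw [hs b a]; ring
    have p1 := h0 (a + b)
    have p2 := h0 (a - b)
    have p3 := hC a
    have p4 := hC b
    rw [ha, one_pow, mul_one] at p3
    rw [hb, one_pow, mul_one] at p4
    rw [e1] at p1
    rw [e2] at p2
    rw [abs_le]
    constructor <;> linarith
  have h1 := key (‖v‖⁻¹ • v) (‖w‖⁻¹ • w)
    (by rw [norm_smul, norm_inv, norm_norm, inv_mul_cancel₀ hv0.ne'])
    (by rw [norm_smul, norm_inv, norm_norm, inv_mul_cancel₀ hw0.ne'])
  rw [map_smul, map_smul, _root_.smul_apply, smul_eq_mul, smul_eq_mul, abs_mul, abs_mul,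
    abs_of_pos (inv_pos.2 hv0), abs_of_pos (inv_pos.2 hw0)] at h1
  calc |B v w| = ‖v‖ * ‖w‖ * (‖w‖⁻¹ * (‖v‖⁻¹ * |B v w|)) := by field_simp
    _ ≤ ‖v‖ * ‖w‖ * C := by
        apply mul_le_mul_of_nonneg_left h1 (by positivity)
    _ = C * ‖v‖ * ‖w‖ := by ring

/-- the Hessians are in the class -/
lemma hess_UCS {c C : ℝ} {A : E → E →L[ℝ] E →L[ℝ] ℝ} (hc : 0 < c)
    (hs : ∀ x, ‖x‖ = 1 → ∀ v w, A x v w = A x w v)
    (hb : ∀ x, ‖x‖ = 1 → ∀ w, c * ‖w‖ ^ 2 ≤ A x w w ∧ A x w w ≤ C * ‖w‖ ^ 2)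
    (hT : ∀ x, ‖x‖ = 1 → ∀ (T : E ≃ₗᵢ[ℝ] E) (v w : E), A (T x) (T v) (T w) = A x v w)
    (hcont : ∀ v w, ContinuousOn (fun x => A x v w) {x | ‖x‖ = 1}) (v w : E) :
    UCS E (fun x => A x v w) := by
  have hbd : ∀ x, ‖x‖ = 1 → ∀ a b, |A x a b| ≤ C * ‖a‖ * ‖b‖ := fun x hx a b =>
    form_bound (hs x hx) (fun w => le_trans (by positivity) (hb x hx w).1)
      (fun w => (hb x hx w).2) a b
  refine ⟨⟨C * ‖v‖ * ‖w‖, fun x hx => hbd x hx v w⟩, hcont v w, fun ε hε => ?_⟩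
  obtain ⟨D, hD⟩ : ∃ D, D = (|C| + 1) * (‖v‖ + ‖w‖ + 1) := ⟨_, rfl⟩
  have hD0 : 0 < D := by rw [hD]; positivity
  refine ⟨2, ![v, w], ε / D, by positivity, fun T hTe x hx => ?_⟩
  have h1 : ‖T v - v‖ ≤ ε / D := hTe 0
  have h2 : ‖T w - w‖ ≤ ε / D := hTe 1
  have h1' : ‖T.symm v - v‖ ≤ ε / D := by
    have h5 : T.symm v - v = T.symm (v - T v) := by rw [map_sub, T.symm_apply_apply]
    rw [h5, T.symm.norm_map, norm_sub_rev]
    exact h1
  have h2' : ‖T.symm w - w‖ ≤ ε / D := by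
    have h5 : T.symm w - w = T.symm (w - T w) := by rw [map_sub, T.symm_apply_apply]
    rw [h5, T.symm.norm_map, norm_sub_rev]
    exact h2
  have h3 : A (T x) v w = A x (T.symm v) (T.symm w) := by
    have := hT x hx T (T.symm v) (T.symm w)
    rwa [T.apply_symm_apply, T.apply_symm_apply] at this
  have h4 : A x (T.symm v) (T.symm w) - A x v w
      = A x (T.symm v - v) (T.symm w) + A x v (T.symm w - w) := by
    simp only [map_sub, _root_.sub_apply]
    ring
  show |A (T x) v w - A x v w| ≤ ε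
  rw [h3, h4]
  have hC : C ≤ |C| + 1 := by
    have := le_abs_self C
    linarith
  have h6 := hbd x hx (T.symm v - v) (T.symm w)
  have h7 := hbd x hx v (T.symm w - w)
  rw [T.symm.norm_map] at h6
  calc |A x (T.symm v - v) (T.symm w) + A x v (T.symm w - w)|
      ≤ |A x (T.symm v - v) (T.symm w)| + |A x v (T.symm w - w)| := abs_add_le _ _
    _ ≤ (|C| + 1) * (ε / D) * ‖w‖ + (|C| + 1) * ‖v‖ * (ε / D) := by
        refine add_le_add (h6.trans ?_) (h7.trans ?_)
        · gcongr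
        · gcongr
    _ ≤ (|C| + 1) * (‖v‖ + ‖w‖ + 1) * (ε / D) := by
        have : 0 ≤ (|C| + 1) * (ε / D) := by positivity
        nlinarith
    _ = ε := by
        rw [← hD]
        field_simp

/-- **Invariant means on the sphere.** -/
theorem isometric_of_sphereAmenable [CompleteSpace E] [TopologicalSpace.SeparableSpace E]
    {H : Type} [NormedAddCommGroup H] [InnerProductSpace ℝ H] (Φ : E ≃L[ℝ] H)
    (hG : ∀ x y : E, ‖x‖ = 1 → ‖y‖ = 1 → ∃ T : E ≃ₗᵢ[ℝ] E, T x = y)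
    (hM : SphereAmenable E) : ∀ x y : E,
      ‖x + y‖ * ‖x + y‖ + ‖x - y‖ * ‖x - y‖ = 2 * (‖x‖ * ‖x‖ + ‖y‖ * ‖y‖) := by
  obtain ⟨c, C, f, A, hc, hA, hcont⟩ := hessian_field Φ hG
  obtain ⟨M, hadd, hsmul, hpos, hone, hinv⟩ := hM
  have hU : ∀ v w, UCS E (fun x => A x v w) := fun v w =>
    hess_UCS hc (fun x hx => (hA x hx).1) (fun x hx => (hA x hx).2.1)
      (fun x hx => (hA x hx).2.2.2) hcont v w
  -- equality on the sphere
  have hcongr : ∀ F F', UCS E F → UCS E F' → (∀ x, ‖x‖ = 1 → F x = F' x) → M F = M F' := by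
    intro F F' hF hF' h
    have key : ∀ F F', UCS E F → UCS E F' → (∀ x, ‖x‖ = 1 → F x = F' x) → M F ≤ M F' := by
      intro F F' hF hF' h
      have h1 := hpos (fun x => F' x + (-1) * F x) (UCS_add hF' (UCS_smul hF (-1)))
        (fun x hx => by show 0 ≤ F' x + (-1) * F x; rw [h x hx]; linarith)
      rw [hadd F' _ hF' (UCS_smul hF (-1)), hsmul (-1) F hF] at h1
      linarith
    exact le_antisymm (key F F' hF hF' h) (key F' F hF' hF fun x hx => (h x hx).symm)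
  -- the invariant form
  obtain ⟨B, hB⟩ : ∃ B : E → E → ℝ, ∀ v w, B v w = M (fun x => A x v w) := ⟨_, fun _ _ => rfl⟩
  have hBadd : ∀ u v w, B (u + v) w = B u w + B v w := by
    intro u v w
    rw [hB, hB, hB, ← hadd _ _ (hU u w) (hU v w)]
    congr 1
    funext x
    rw [map_add, _root_.add_apply]
  have hBsmul : ∀ (r : ℝ) u w, B (r • u) w = r * B u w := by
    intro r u w
    rw [hB, hB, ← hsmul r _ (hU u w)]
    congr 1
    funext x
    rw [map_smul, _root_.smul_apply, smul_eq_mul]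
  have hBsymm : ∀ v w, B v w = B w v := by
    intro v w
    rw [hB, hB]
    exact hcongr _ _ (hU v w) (hU w v) fun x hx => (hA x hx).1 v w
  have hBT : ∀ (T : E ≃ₗᵢ[ℝ] E) v w, B (T v) (T w) = B v w := by
    intro T v w
    rw [hB, hB, ← hinv T _ (hU (T v) (T w))]
    refine hcongr _ _ ?_ (hU v w) fun x hx => (hA x hx).2.2.2 T v w
    -- composition with an isometry stays in the class
    obtain ⟨⟨C', hC'⟩, hc', hu'⟩ := hU (T v) (T w)
    refine ⟨⟨C', fun x hx => hC' (T x) (by rw [T.norm_map, hx])⟩, ?_, fun ε hε => ?_⟩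
    · exact hc'.comp T.continuous.continuousOn fun x hx => by
        show ‖T x‖ = 1
        rw [T.norm_map]; exact hx
    · obtain ⟨m, e, κ, hκ, h⟩ := hu' ε hε
      refine ⟨m, fun i => T.symm (e i), κ, hκ, fun S hS x hx => ?_⟩
      have h1 := h ((T.symm.trans S).trans T) (fun i => by
        show ‖T (S (T.symm (e i))) - e i‖ ≤ κ
        have h2 : T (S (T.symm (e i))) - e i = T (S (T.symm (e i)) - T.symm (e i)) := by
          rw [map_sub, T.apply_symm_apply]
        rw [h2, T.norm_map]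
        exact hS i) (T x) (by rw [T.norm_map, hx])
      have h3 : ((T.symm.trans S).trans T) (T x) = T (S x) := by
        show T (S (T.symm (T x))) = _
        rw [T.symm_apply_apply]
      rw [h3] at h1
      exact h1
  have hBpos : ∀ w, c * ‖w‖ ^ 2 ≤ B w w := by
    intro w
    have h1 := hpos (fun x => A x w w + (-(c * ‖w‖ ^ 2)) * (fun _ : E => (1 : ℝ)) x)
      (UCS_add (hU w w) (UCS_smul (UCS_const 1) _)) (fun x hx => by
        have := ((hA x hx).2.1 w).1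
        show 0 ≤ A x w w + (-(c * ‖w‖ ^ 2)) * 1
        linarith)
    rw [hadd _ _ (hU w w) (UCS_smul (UCS_const 1) _), hsmul _ _ (UCS_const 1), hone, ← hB] at h1
    linarith
  intro x y
  by_cases hE : ∃ u : E, ‖u‖ = 1
  · obtain ⟨u, hu⟩ := hE
    have hk : 0 < B u u := by
      have := hBpos u
      rw [hu] at this
      linarith
    have hBn : ∀ w, B w w = B u u * ‖w‖ ^ 2 := by
      intro w
      rcases eq_or_ne w 0 with rfl | hw
      · have h0 := hBsmul 0 0 0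
        rw [zero_smul, zero_mul] at h0
        rw [h0, norm_zero]
        ring
      · have hw0 : 0 < ‖w‖ := norm_pos_iff.2 hw
        obtain ⟨T, hT⟩ := hG u (‖w‖⁻¹ • w) hu (by
          rw [norm_smul, norm_inv, norm_norm, inv_mul_cancel₀ hw0.ne'])
        have h1 : w = ‖w‖ • T u := by rw [hT, smul_smul, mul_inv_cancel₀ hw0.ne', one_smul]
        calc B w w = B (‖w‖ • T u) (‖w‖ • T u) := by rw [← h1]
          _ = ‖w‖ * (‖w‖ * B (T u) (T u)) := by rw [hBsmul, hBsymm, hBsmul]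
          _ = B u u * ‖w‖ ^ 2 := by rw [hBT]; ring
    have h1 := hBn (x + y)
    have h2 := hBn (x - y)
    have h3 := hBn x
    have h4 := hBn y
    have hneg : ∀ a b, B (-a) b = -B a b := fun a b => by
      rw [← neg_one_smul ℝ a, hBsmul]; ring
    have e1 : B (x + y) (x + y) = B x x + 2 * B x y + B y y := by
      rw [hBadd, hBsymm x, hBsymm y (x + y), hBadd, hBadd, hBsymm y x]; ring
    have e2 : B (x - y) (x - y) = B x x - 2 * B x y + B y y := by
      rw [sub_eq_add_neg, hBadd, hBsymm x, hBsymm (-y) (x + -y), hBadd, hBadd, hneg, hneg,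
        hBsymm x (-y), hneg, hBsymm y (-y), hneg, hBsymm y x]
      ring
    rw [e1] at h1
    rw [e2] at h2
    have h5 : B u u * (‖x + y‖ * ‖x + y‖ + ‖x - y‖ * ‖x - y‖)
        = B u u * (2 * (‖x‖ * ‖x‖ + ‖y‖ * ‖y‖)) := by nlinarith
    exact mul_left_cancel₀ hk.ne' h5
  · have h0 : ∀ v : E, v = 0 := by
      intro v
      by_contra hv
      apply hE
      exact ⟨‖v‖⁻¹ • v, by
        rw [norm_smul, norm_inv, norm_norm, inv_mul_cancel₀ (norm_ne_zero_iff.2 hv)]⟩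
    rw [h0 x, h0 y]
    simp

end Pool.Agent.Y278.Rot
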