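import Mathlib

/-! # Transitive norms on Hilbertian spaces are 2-convex -/

set_option autoImplicit false

namespace Pool.Agent.Y278.Rot

open Set

variable {E : Type} [NormedAddCommGroup E] [NormedSpace ℝ E]
variable {H : Type} [NormedAddCommGroup H] [InnerProductSpace ℝ H]

/-- the supremum of the Hilbert norms over the isometry group -/
noncomputable def supN (Φ : E ≃L[ℝ] H) (x : E) : ℝ := ⨆ T : E ≃ₗᵢ[ℝ] E, ‖Φ (T x)‖

lemma supN_bdd (Φ : E ≃L[ℝ] H) (x : E) :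
    BddAbove (range fun T : E ≃ₗᵢ[ℝ] E => ‖Φ (T x)‖) := by
  refine ⟨‖(Φ : E →L[ℝ] H)‖ * ‖x‖, ?_⟩
  rintro _ ⟨T, rfl⟩
  have h := (Φ : E →L[ℝ] H).le_opNorm (T x)
  rw [T.norm_map] at h
  exact h

lemma le_supN (Φ : E ≃L[ℝ] H) (x : E) (T : E ≃ₗᵢ[ℝ] E) : ‖Φ (T x)‖ ≤ supN Φ x :=
  le_ciSup (supN_bdd Φ x) T

lemma supN_map (Φ : E ≃L[ℝ] H) (S : E ≃ₗᵢ[ℝ] E) (x : E) : supN Φ (S x) = supN Φ x := by
  have h : ∀ (S : E ≃ₗᵢ[ℝ] E) (x : E), supN Φ (S x) ≤ supN Φ x := by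
    intro S x
    refine ciSup_le fun T => ?_
    exact le_supN Φ x (S.trans T)
  refine le_antisymm (h S x) ?_
  have := h S.symm (S x)
  rwa [S.symm_apply_apply] at this

lemma supN_smul (Φ : E ≃L[ℝ] H) {r : ℝ} (hr : 0 ≤ r) (x : E) : supN Φ (r • x) = r * supN Φ x := by
  unfold supN
  rw [Real.mul_iSup_of_nonneg hr]
  congr 1
  funext T
  rw [map_smul, map_smul, norm_smul, Real.norm_of_nonneg hr]

/-- by transitivity the supremum is a multiple of the norm -/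
lemma supN_eq (hG : ∀ x y : E, ‖x‖ = 1 → ‖y‖ = 1 → ∃ T : E ≃ₗᵢ[ℝ] E, T x = y)
    (Φ : E ≃L[ℝ] H) {u : E} (hu : ‖u‖ = 1) (x : E) : supN Φ x = supN Φ u * ‖x‖ := by
  rcases eq_or_ne x 0 with rfl | hx
  · rw [norm_zero, mul_zero]
    unfold supN
    simp
  · have hx0 : 0 < ‖x‖ := norm_pos_iff.2 hx
    obtain ⟨S, hS⟩ := hG u (‖x‖⁻¹ • x) hu (by
      rw [norm_smul, norm_inv, norm_norm, inv_mul_cancel₀ hx0.ne'])
    have h1 : x = ‖x‖ • S u := by rw [hS, smul_smul, mul_inv_cancel₀ hx0.ne', one_smul]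
    calc supN Φ x = supN Φ (‖x‖ • S u) := by rw [← h1]
      _ = supN Φ u * ‖x‖ := by rw [supN_smul Φ hx0.le, supN_map, mul_comm]

/-- **2-convexity.** -/
theorem two_convex (hG : ∀ x y : E, ‖x‖ = 1 → ‖y‖ = 1 → ∃ T : E ≃ₗᵢ[ℝ] E, T x = y)
    (Φ : E ≃L[ℝ] H) : ∃ c : ℝ, 0 < c ∧ ∀ x w : E,
      c * ‖w‖ ^ 2 ≤ ‖x + w‖ ^ 2 + ‖x - w‖ ^ 2 - 2 * ‖x‖ ^ 2 := by
  by_cases hE : ∃ u : E, ‖u‖ = 1
  · obtain ⟨u, hu⟩ := hE
    obtain ⟨k, hk⟩ : ∃ k, k = supN Φ u := ⟨_, rfl⟩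
    have hN : ∀ x, supN Φ x = k * ‖x‖ := fun x => by rw [hk]; exact supN_eq hG Φ hu x
    have hk0 : 0 < k := by
      have h1 := le_supN Φ u (LinearIsometryEquiv.refl ℝ E)
      have h2 : 0 < ‖Φ u‖ := by
        rw [norm_pos_iff]
        intro h
        have : u = 0 := by
          have := congrArg Φ.symm h
          rwa [Φ.symm_apply_apply, map_zero] at this
        rw [this, norm_zero] at hu
        norm_num at hu
      rw [hk]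
      exact h2.trans_le h1
    -- the lower bound of the Hilbert norm
    obtain ⟨L, hL⟩ : ∃ L, L = ‖(Φ.symm : H →L[ℝ] E)‖ + 1 := ⟨_, rfl⟩
    have hL0 : 0 < L := by rw [hL]; positivity
    have hlow : ∀ x : E, ‖x‖ ≤ L * ‖Φ x‖ := by
      intro x
      have h1 := (Φ.symm : H →L[ℝ] E).le_opNorm (Φ x)
      have h2 : (Φ.symm : H →L[ℝ] E) (Φ x) = x := Φ.symm_apply_apply x
      rw [h2] at h1
      refine h1.trans ?_
      gcongr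
      rw [hL]; linarith
    refine ⟨2 / (k ^ 2 * L ^ 2), by positivity, fun x w => ?_⟩
    set R := ‖x + w‖ ^ 2 + ‖x - w‖ ^ 2 with hR
    have hT : ∀ T : E ≃ₗᵢ[ℝ] E, 2 * ‖Φ (T x)‖ ^ 2 ≤ k ^ 2 * R - 2 / L ^ 2 * ‖w‖ ^ 2 := by
      intro T
      have h1 := parallelogram_law_with_norm ℝ (Φ (T x)) (Φ (T w))
      rw [← map_add, ← map_sub, ← map_add, ← map_sub] at h1
      have h2 := le_supN Φ (x + w) T
      have h3 := le_supN Φ (x - w) T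
      rw [hN] at h2 h3
      have h4 := hlow (T w)
      rw [T.norm_map] at h4
      have h5 : ‖Φ (T (x + w))‖ ^ 2 ≤ (k * ‖x + w‖) ^ 2 := by gcongr
      have h6 : ‖Φ (T (x - w))‖ ^ 2 ≤ (k * ‖x - w‖) ^ 2 := by gcongr
      have h7 : ‖w‖ ^ 2 ≤ (L * ‖Φ (T w)‖) ^ 2 := by gcongr
      have h8 : 2 / L ^ 2 * ‖w‖ ^ 2 ≤ 2 * ‖Φ (T w)‖ ^ 2 := by
        calc 2 / L ^ 2 * ‖w‖ ^ 2 ≤ 2 / L ^ 2 * (L * ‖Φ (T w)‖) ^ 2 := by gcongr
          _ = 2 * ‖Φ (T w)‖ ^ 2 := by field_simp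
      have h9 : k ^ 2 * R = (k * ‖x + w‖) ^ 2 + (k * ‖x - w‖) ^ 2 := by rw [hR]; ring
      rw [h9]
      nlinarith
    have hsup : supN Φ x ≤ √((k ^ 2 * R - 2 / L ^ 2 * ‖w‖ ^ 2) / 2) := by
      refine ciSup_le fun T => ?_
      refine Real.le_sqrt_of_sq_le ?_
      have := hT T
      linarith
    have hnn : 0 ≤ (k ^ 2 * R - 2 / L ^ 2 * ‖w‖ ^ 2) / 2 := by
      have := hT (LinearIsometryEquiv.refl ℝ E)
      have h1 := sq_nonneg ‖Φ ((LinearIsometryEquiv.refl ℝ E) x)‖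
      linarith
    rw [hN] at hsup
    have h10 : (k * ‖x‖) ^ 2 ≤ (k ^ 2 * R - 2 / L ^ 2 * ‖w‖ ^ 2) / 2 := by
      have h11 : 0 ≤ k * ‖x‖ := by positivity
      calc (k * ‖x‖) ^ 2 ≤ (√((k ^ 2 * R - 2 / L ^ 2 * ‖w‖ ^ 2) / 2)) ^ 2 := by gcongr
        _ = _ := Real.sq_sqrt hnn
    have h12 : 2 / (k ^ 2 * L ^ 2) * ‖w‖ ^ 2 * k ^ 2 = 2 / L ^ 2 * ‖w‖ ^ 2 := by
      field_simp
    have h13 : 2 / (k ^ 2 * L ^ 2) * ‖w‖ ^ 2 * k ^ 2 ≤ (R - 2 * ‖x‖ ^ 2) * k ^ 2 := by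
      rw [h12]
      nlinarith
    exact le_of_mul_le_mul_right h13 (by positivity)
  · refine ⟨1, one_pos, fun x w => ?_⟩
    have h0 : ∀ v : E, v = 0 := by
      intro v
      by_contra hv
      apply hE
      exact ⟨‖v‖⁻¹ • v, by
        rw [norm_smul, norm_inv, norm_norm, inv_mul_cancel₀ (norm_ne_zero_iff.2 hv)]⟩
    rw [h0 x, h0 w]
    simp

end Pool.Agent.Y278.Rot
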