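import Pool.Agent.Y278.Rot.OneDim

/-! # Extension of second order expansions from a dense rational subspace to its real span -/

set_option autoImplicit false

namespace Pool.Agent.Y278.Rot

open Set Filter Topology

variable {E : Type} [NormedAddCommGroup E] [NormedSpace ℝ E]

/-- the second order quotient at `z` in the direction `w` -/
noncomputable def ph (z : E) (f : StrongDual ℝ E) (t : ℝ) (w : E) : ℝ :=
  (‖z + t • w‖ - ‖z‖ - t * f w) / t ^ 2

/-- `f` is a norming functional at `z` -/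
def Nm (z : E) (f : StrongDual ℝ E) : Prop := ‖f‖ = 1 ∧ f z = ‖z‖

variable {z : E} {f : StrongDual ℝ E}

lemma ph_nonneg (hf : Nm z f) (t : ℝ) (w : E) : 0 ≤ ph z f t w := by
  unfold ph
  apply div_nonneg _ (sq_nonneg t)
  have h1 := f.le_opNorm (z + t • w)
  rw [hf.1, one_mul, map_add, map_smul, hf.2, smul_eq_mul, Real.norm_eq_abs] at h1
  have h2 := le_abs_self (‖z‖ + t * f w)
  linarith

lemma ph_zero (t : ℝ) : ph z f t 0 = 0 := by simp [ph]

lemma ph_smul {c : ℝ} (hc : c ≠ 0) (t : ℝ) (w : E) :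
    ph z f t (c • w) = c ^ 2 * ph z f (c * t) w := by
  unfold ph
  rw [smul_smul, map_smul, smul_eq_mul, mul_comm t c]
  rcases eq_or_ne t 0 with rfl | ht
  · simp
  · field_simp

lemma ph_convex (t : ℝ) (w w' : E) {a b : ℝ} (ha : 0 ≤ a) (hb : 0 ≤ b) (hab : a + b = 1) :
    ph z f t (a • w + b • w') ≤ a * ph z f t w + b * ph z f t w' := by
  have e : z + t • (a • w + b • w') = a • (z + t • w) + b • (z + t • w') := by
    have : z = (a + b) • z := by rw [hab, one_smul]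
    conv_lhs => rw [this]
    module
  have h1 : ‖z + t • (a • w + b • w')‖ ≤ a * ‖z + t • w‖ + b * ‖z + t • w'‖ := by
    rw [e]
    refine (norm_add_le _ _).trans (le_of_eq ?_)
    rw [norm_smul, norm_smul, Real.norm_of_nonneg ha, Real.norm_of_nonneg hb]
  unfold ph
  rw [mul_div_assoc', mul_div_assoc', ← add_div]
  apply div_le_div_of_nonneg_right _ (sq_nonneg t)
  rw [map_add, map_smul, map_smul, smul_eq_mul, smul_eq_mul]
  have h2 : ‖z‖ = a * ‖z‖ + b * ‖z‖ := by rw [← add_mul, hab, one_mul]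
  nlinarith

/-- uniform bound -/
def Bd (z : E) (f : StrongDual ℝ E) (w : E) (C : ℝ) : Prop := ∀ t : ℝ, t ≠ 0 → ph z f t w ≤ C ^ 2

lemma Bd_mono {w : E} {C C' : ℝ} (h : Bd z f w C) (h0 : 0 ≤ C) (hC : C ≤ C') : Bd z f w C' :=
  fun t ht => (h t ht).trans (by gcongr)

lemma Bd_zero (C : ℝ) : Bd z f 0 C := fun t _ => by rw [ph_zero]; positivity

lemma Bd_smul {w : E} {C : ℝ} (h : Bd z f w C) (c : ℝ) : Bd z f (c • w) (|c| * C) := by
  intro t ht
  rcases eq_or_ne c 0 with rfl | hc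
  · simp [ph_zero]
  · rw [ph_smul hc, mul_pow, sq_abs]
    have := h (c * t) (mul_ne_zero hc ht)
    gcongr

lemma split (t : ℝ) (w w' : E) {a : ℝ} (ha : 0 < a) (ha1 : a < 1) :
    ph z f t (w + w') ≤ a⁻¹ * ph z f (a⁻¹ * t) w
      + (1 - a)⁻¹ * ph z f ((1 - a)⁻¹ * t) w' := by
  have hb : 0 < 1 - a := by linarith
  have h1 := ph_convex (z := z) (f := f) t (a⁻¹ • w) ((1 - a)⁻¹ • w') ha.le hb.le (by ring)
  rw [smul_smul, smul_smul, mul_inv_cancel₀ ha.ne', mul_inv_cancel₀ hb.ne', one_smul,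
    one_smul, ph_smul (inv_ne_zero ha.ne'), ph_smul (inv_ne_zero hb.ne')] at h1
  refine h1.trans (le_of_eq ?_)
  field_simp

lemma Bd_add {w w' : E} {C C' : ℝ} (h : Bd z f w C) (h' : Bd z f w' C') (hC : 0 < C)
    (hC' : 0 < C') : Bd z f (w + w') (C + C') := by
  intro t ht
  have hs : 0 < C + C' := by positivity
  set a := C / (C + C') with ha
  have ha0 : 0 < a := by positivity
  have ha1 : a < 1 := by rw [ha, div_lt_one hs]; linarith
  have hb : 1 - a = C' / (C + C') := by rw [ha]; field_simp; ring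
  have h1 := split (z := z) (f := f) t w w' ha0 ha1
  have h2 := h (a⁻¹ * t) (mul_ne_zero (inv_ne_zero ha0.ne') ht)
  have h3 := h' ((1 - a)⁻¹ * t) (mul_ne_zero (inv_ne_zero (by linarith)) ht)
  have hb0 : 0 < 1 - a := by linarith
  calc ph z f t (w + w') ≤ _ := h1
    _ ≤ a⁻¹ * C ^ 2 + (1 - a)⁻¹ * C' ^ 2 := by gcongr
    _ = (C + C') ^ 2 := by
      rw [hb, ha]
      field_simp

/-- existence of a limit from approximate limits -/
lemma exists_lim {l : Filter ℝ} [l.NeBot] {g : ℝ → ℝ}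
    (h : ∀ ε : ℝ, 0 < ε → ∃ m : ℝ, ∀ᶠ t in l, |g t - m| ≤ ε) : ∃ m, Tendsto g l (𝓝 m) := by
  have hc : Cauchy (map g l) := by
    rw [Metric.cauchy_iff]
    refine ⟨inferInstance, fun ε hε => ?_⟩
    obtain ⟨m, hm⟩ := h (ε / 4) (by positivity)
    refine ⟨{y | |y - m| ≤ ε / 4}, hm, fun x hx y hy => ?_⟩
    have hx : |x - m| ≤ ε / 4 := hx
    have hy : |y - m| ≤ ε / 4 := hy
    rw [Real.dist_eq]
    calc |x - y| = |(x - m) - (y - m)| := by ring_nf
      _ ≤ |x - m| + |y - m| := abs_sub _ _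
      _ < ε := by linarith
  exact CompleteSpace.complete hc

lemma tendsto_mul_ne {c : ℝ} (hc : c ≠ 0) :
    Tendsto (fun t : ℝ => c * t) (𝓝[≠] 0) (𝓝[≠] 0) := by
  refine tendsto_nhdsWithin_iff.2 ⟨?_, ?_⟩
  · have : Tendsto (fun t : ℝ => c * t) (𝓝 0) (𝓝 (c * 0)) := (continuous_const_mul c).tendsto 0
    rw [mul_zero] at this
    exact this.mono_left nhdsWithin_le_nhds
  · filter_upwards [self_mem_nhdsWithin] with t ht
    have ht : t ≠ 0 := ht
    exact mul_ne_zero hc ht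

/-- `m` is the limit of the quotients in the direction `w` -/
def Lm (z : E) (f : StrongDual ℝ E) (w : E) (m : ℝ) : Prop :=
  Tendsto (fun t => ph z f t w) (𝓝[≠] 0) (𝓝 m)

lemma Lm_nonneg (hf : Nm z f) {w : E} {m : ℝ} (h : Lm z f w m) : 0 ≤ m :=
  ge_of_tendsto' h fun t => ph_nonneg hf t w

lemma Lm_smul {w : E} {m : ℝ} (h : Lm z f w m) (c : ℝ) : Lm z f (c • w) (c ^ 2 * m) := by
  unfold Lm at *
  rcases eq_or_ne c 0 with rfl | hc
  · simp [ph_zero]
  · exact ((h.comp (tendsto_mul_ne hc)).const_mul (c ^ 2)).congr fun t => (ph_smul hc t w).symm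

/-- comparison -/
lemma Lm_split {w w' : E} {m m' M : ℝ} (h : Lm z f w m) (h' : Lm z f w' m')
    (hs : Lm z f (w + w') M) {a : ℝ} (ha : 0 < a) (ha1 : a < 1) :
    M ≤ a⁻¹ * m + (1 - a)⁻¹ * m' := by
  have hb : 0 < 1 - a := by linarith
  have h1 := ((h.comp (tendsto_mul_ne (inv_ne_zero ha.ne'))).const_mul a⁻¹).add
    ((h'.comp (tendsto_mul_ne (inv_ne_zero hb.ne'))).const_mul (1 - a)⁻¹)
  exact le_of_tendsto_of_tendsto' hs h1 fun t => split t w w' ha ha1

lemma sqrt_add_of {m m' M : ℝ} (hm : 0 ≤ m) (hm' : 0 ≤ m')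
    (h : ∀ a : ℝ, 0 < a → a < 1 → M ≤ a⁻¹ * m + (1 - a)⁻¹ * m') :
    √M ≤ √m + √m' := by
  apply Real.sqrt_le_iff.2
  refine ⟨by positivity, ?_⟩
  -- perturb
  have key : ∀ ε : ℝ, 0 < ε → M ≤ (√m + ε + (√m' + ε)) ^ 2 := by
    intro ε hε
    have h1 := Real.sqrt_nonneg m
    have h2 := Real.sqrt_nonneg m'
    set u := √m + ε with hu
    set v := √m' + ε with hv
    have hu0 : 0 < u := by positivity
    have hv0 : 0 < v := by positivity
    have hmu : m ≤ u ^ 2 := by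
      have := Real.sq_sqrt hm
      nlinarith
    have hmv : m' ≤ v ^ 2 := by
      have := Real.sq_sqrt hm'
      nlinarith
    have ha0 : 0 < u / (u + v) := by positivity
    have ha1 : u / (u + v) < 1 := by rw [div_lt_one (by positivity)]; linarith
    have hb : 1 - u / (u + v) = v / (u + v) := by field_simp; ring
    have h3 := h _ ha0 ha1
    rw [hb] at h3
    calc M ≤ (u / (u + v))⁻¹ * m + (v / (u + v))⁻¹ * m' := h3
      _ ≤ (u / (u + v))⁻¹ * u ^ 2 + (v / (u + v))⁻¹ * v ^ 2 := by gcongr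
      _ = (u + v) ^ 2 := by field_simp
  have hc : Tendsto (fun ε : ℝ => (√m + ε + (√m' + ε)) ^ 2) (𝓝[>] 0) (𝓝 ((√m + √m') ^ 2)) := by
    have : Continuous fun ε : ℝ => (√m + ε + (√m' + ε)) ^ 2 := by fun_prop
    have h1 := this.tendsto 0
    simp only [add_zero] at h1
    exact h1.mono_left nhdsWithin_le_nhds
  exact ge_of_tendsto hc (by
    filter_upwards [self_mem_nhdsWithin] with ε hε using key ε hε)

lemma Lm_add_le (hf : Nm z f) {w w' : E} {m m' M : ℝ} (h : Lm z f w m) (h' : Lm z f w' m')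
    (hs : Lm z f (w + w') M) : √M ≤ √m + √m' :=
  sqrt_add_of (Lm_nonneg hf h) (Lm_nonneg hf h') fun _ ha ha1 => Lm_split h h' hs ha ha1

lemma Lm_le_of_Bd {w : E} {m C : ℝ} (h : Lm z f w m) (hb : Bd z f w C) : m ≤ C ^ 2 :=
  le_of_tendsto h (by filter_upwards [self_mem_nhdsWithin] with t ht using hb t ht)

end Pool.Agent.Y278.Rot
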