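import Mathlib

/-! # From the parallelogram law to a bilinear form (seminorm version) -/

set_option autoImplicit false

namespace Pool.Agent.Y278.Rot

open Set Filter Topology

section

variable {V : Type} [AddCommGroup V] [Module ℝ V] {q : V → ℝ}

lemma sqrt_sub_le (hs : ∀ (c : ℝ) (x : V), q (c • x) = c ^ 2 * q x)
    (ht : ∀ x y, √(q (x + y)) ≤ √(q x) + √(q y)) (x y : V) :
    |√(q x) - √(q y)| ≤ √(q (x - y)) := by
  have hneg : ∀ w, q (-w) = q w := by
    intro w
    have := hs (-1) w
    rwa [neg_one_smul, neg_one_sq, one_mul] at this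
  rw [abs_le]
  constructor
  · have h := ht x (-(x - y))
    rw [hneg] at h
    have e : x + -(x - y) = y := by abel
    rw [e] at h
    linarith
  · have h := ht y (x - y)
    rw [add_sub_cancel] at h
    linarith

theorem exists_form (h0 : ∀ x, 0 ≤ q x) (hs : ∀ (c : ℝ) (x : V), q (c • x) = c ^ 2 * q x)
    (ht : ∀ x y, √(q (x + y)) ≤ √(q x) + √(q y))
    (hp : ∀ x y, q (x + y) + q (x - y) = 2 * q x + 2 * q y) :
    ∃ B : V →ₗ[ℝ] V →ₗ[ℝ] ℝ, (∀ x y, B x y = B y x) ∧ ∀ x, B x x = q x := by
  have hneg : ∀ w, q (-w) = q w := by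
    intro w
    have := hs (-1) w
    rwa [neg_one_smul, neg_one_sq, one_mul] at this
  have hz : q 0 = 0 := by
    have := hs 0 0
    rwa [zero_smul, zero_pow two_ne_zero, zero_mul] at this
  -- the form
  set D : V → V → ℝ := fun x y => (q (x + y) - q (x - y)) / 4 with hD
  have hsymm : ∀ x y, D x y = D y x := by
    intro x y
    simp only [hD]
    rw [add_comm x y, ← hneg (x - y), neg_sub]
  have hhalf : ∀ x y z, D x z + D y z = 2 * D ((1 / 2 : ℝ) • (x + y)) z := by
    intro x y z
    simp only [hD]
    have h1 := hp ((1 / 2 : ℝ) • (x + y) + z) ((1 / 2 : ℝ) • (x - y))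
    have h2 := hp ((1 / 2 : ℝ) • (x + y) - z) ((1 / 2 : ℝ) • (x - y))
    have e1 : (1 / 2 : ℝ) • (x + y) + z + (1 / 2 : ℝ) • (x - y) = x + z := by module
    have e2 : (1 / 2 : ℝ) • (x + y) + z - (1 / 2 : ℝ) • (x - y) = y + z := by module
    have e3 : (1 / 2 : ℝ) • (x + y) - z + (1 / 2 : ℝ) • (x - y) = x - z := by module
    have e4 : (1 / 2 : ℝ) • (x + y) - z - (1 / 2 : ℝ) • (x - y) = y - z := by module
    rw [e1, e2] at h1
    rw [e3, e4] at h2
    linarith
  have hD0 : ∀ z, D 0 z = 0 := by
    intro z
    simp only [hD, zero_add, zero_sub, hneg, sub_self, zero_div]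
  have hadd : ∀ x y z, D (x + y) z = D x z + D y z := by
    intro x y z
    have h1 := hhalf x y z
    have h2 := hhalf (x + y) 0 z
    rw [add_zero, hD0, add_zero] at h2
    rw [h1, h2]
  have hcont : ∀ x z : V, Continuous fun c : ℝ => q (c • x + z) := by
    intro x z
    have h1 : Continuous fun c : ℝ => √(q (c • x + z)) := by
      rw [Metric.continuous_iff]
      intro b ε hε
      refine ⟨ε / (√(q x) + 1), by positivity, fun a ha => ?_⟩
      rw [Real.dist_eq] at ha ⊢
      calc |√(q (a • x + z)) - √(q (b • x + z))| ≤ √(q (a • x + z - (b • x + z))) :=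
            sqrt_sub_le hs ht _ _
        _ = |a - b| * √(q x) := by
            have e : a • x + z - (b • x + z) = (a - b) • x := by module
            rw [e, hs, Real.sqrt_mul (sq_nonneg _), Real.sqrt_sq_eq_abs]
        _ ≤ |a - b| * (√(q x) + 1) := by gcongr; linarith
        _ < ε / (√(q x) + 1) * (√(q x) + 1) := by gcongr
        _ = ε := by field_simp
    have h2 : (fun c : ℝ => q (c • x + z)) = fun c : ℝ => √(q (c • x + z)) ^ 2 := by
      funext c
      rw [Real.sq_sqrt (h0 _)]
    rw [h2]
    exact h1.pow 2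
  have hsmul : ∀ (c : ℝ) x z, D (c • x) z = c * D x z := by
    intro c x z
    let g : ℝ →+ ℝ := { toFun := fun c => D (c • x) z
                        map_zero' := by show D ((0 : ℝ) • x) z = 0; rw [zero_smul, hD0]
                        map_add' := fun a b => by
                          show D ((a + b) • x) z = D (a • x) z + D (b • x) z
                          rw [add_smul, hadd] }
    have hg : Continuous g := by
      show Continuous fun c : ℝ => (q (c • x + z) - q (c • x - z)) / 4
      have h1 := hcont x z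
      have h2 := hcont x (-z)
      simp only [← sub_eq_add_neg] at h2
      exact (h1.sub h2).div_const 4
    have h := map_real_smul g hg c 1
    rw [smul_eq_mul, mul_one, smul_eq_mul] at h
    have h1 : g c = D (c • x) z := rfl
    have h2 : g 1 = D ((1 : ℝ) • x) z := rfl
    rw [h1, h2, one_smul] at h
    exact h
  refine ⟨LinearMap.mk₂ ℝ D hadd (fun c x y => by rw [hsmul, smul_eq_mul])
    (fun x y z => by rw [hsymm x, hadd, hsymm y, hsymm z])
    (fun c x y => by rw [hsymm x, hsmul, hsymm y, smul_eq_mul]), fun x y => ?_, fun x => ?_⟩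
  · rw [LinearMap.mk₂_apply, LinearMap.mk₂_apply, hsymm]
  · rw [LinearMap.mk₂_apply]
    simp only [hD]
    have e : x + x = (2 : ℝ) • x := by module
    rw [sub_self, hz, e, hs]
    ring

end

end Pool.Agent.Y278.Rot
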