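import Mathlib

/-! # Changing one or two coordinates in an infinite product of unit intervals -/

set_option autoImplicit false

namespace Pool.Agent.Y278.Rot

open Set Filter Topology MeasureTheory Measure

variable {ι : Type}

/-- the product of the uniform measures -/
noncomputable def PP (ι : Type) : Measure (ι → unitInterval) :=
  Measure.infinitePi (fun _ => (volume : Measure unitInterval))

instance : IsProbabilityMeasure (PP ι) := by unfold PP; infer_instance

open Classical in
lemma mp_update (k : ι) :
    MeasurePreserving (fun p : (ι → unitInterval) × unitInterval => Function.update p.1 k p.2)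
      ((PP ι).prod volume) (PP ι) := by
  have hm : Measurable (fun p : (ι → unitInterval) × unitInterval =>
      Function.update p.1 k p.2) := by
    refine measurable_pi_iff.2 fun i => ?_
    by_cases hi : i = k
    · subst hi
      simpa using measurable_snd
    · simp only [Function.update_of_ne hi]
      fun_prop
  refine ⟨hm, ?_⟩
  unfold PP
  refine eq_infinitePi _ fun s t ht => ?_
  rw [Measure.map_apply hm (MeasurableSet.pi s.countable_toSet fun i _ => ht i)]
  have e : (fun p : (ι → unitInterval) × unitInterval => Function.update p.1 k p.2) ⁻¹'
      (Set.pi s t) = (Set.pi (s.erase k : Finset ι) t) ×ˢ (if k ∈ s then t k else univ) := by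
    ext p
    simp only [mem_preimage, Set.mem_pi, mem_prod, Finset.mem_coe, Finset.mem_erase]
    constructor
    · intro h
      refine ⟨fun i hi => ?_, ?_⟩
      · have := h i hi.2
        rwa [Function.update_of_ne hi.1] at this
      · split_ifs with hk
        · have := h k hk
          simpa using this
        · trivial
    · rintro ⟨h1, h2⟩ i hi
      by_cases hik : i = k
      · subst hik
        rw [if_pos hi] at h2
        simpa using h2
      · rw [Function.update_of_ne hik]
        exact h1 i ⟨hik, hi⟩
  rw [e, Measure.prod_prod, infinitePi_pi _ (fun i _ => ht i)]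
  split_ifs with hk
  · rw [Finset.prod_erase_mul _ _ hk]
  · rw [Finset.erase_eq_of_notMem hk]
    simp

open Classical in
lemma ae_update {A : Set (ι → unitInterval)} (hA : MeasurableSet A) (k : ι)
    (h : ∀ ω, ∀ᵐ s : unitInterval, Function.update ω k s ∈ A) : ∀ᵐ ω ∂(PP ι), ω ∈ A := by
  have hmp := mp_update k
  have key : ∀ᵐ p ∂((PP ι).prod volume), Function.update p.1 k p.2 ∈ A :=
    (Measure.ae_prod_iff_ae_ae (hmp.measurable hA)).2 (Eventually.of_forall h)
  rw [← hmp.map_eq]
  exact (ae_map_iff hmp.measurable.aemeasurable hA).2 key

open Classical in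
lemma ae_update2 {A : Set (ι → unitInterval)} (hA : MeasurableSet A) (k l : ι)
    (h : ∀ ω, ∀ᵐ p : unitInterval × unitInterval,
      Function.update (Function.update ω k p.1) l p.2 ∈ A) : ∀ᵐ ω ∂(PP ι), ω ∈ A := by
  have h1 := (mp_update k).prod (MeasurePreserving.id (volume : Measure unitInterval))
  have h2 := (mp_update l).comp h1
  have h3 := (measurePreserving_prodAssoc (PP ι) (volume : Measure unitInterval)
    (volume : Measure unitInterval)).symm
  have hmp := h2.comp h3
  have key : ∀ᵐ p ∂((PP ι).prod (volume : Measure (unitInterval × unitInterval))),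
      Function.update (Function.update p.1 k p.2.1) l p.2.2 ∈ A :=
    (Measure.ae_prod_iff_ae_ae (hmp.measurable hA)).2 (Eventually.of_forall h)
  rw [← hmp.map_eq]
  exact (ae_map_iff hmp.measurable.aemeasurable hA).2 key

end Pool.Agent.Y278.Rot
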