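import Pool.Agent.Y278.Rot.SOq
import Pool.Agent.Y278.Rot.Prod

/-! # A point at which the norm has second order expansions in countably many directions -/

set_option autoImplicit false

namespace Pool.Agent.Y278.Rot

open Set Filter Topology MeasureTheory

variable {E : Type} [NormedAddCommGroup E] [NormedSpace ℝ E]

/-- the defect of the parallelogram law for second difference quotients of the norm -/
noncomputable def TE (a b : E) (n : ℕ) (z : E) : ℝ :=
  dq (fun x : E => ‖x‖) (a + b) (hn n) z + dq (fun x : E => ‖x‖) (a - b) (hn n) z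
    - 2 * dq (fun x : E => ‖x‖) a (hn n) z - 2 * dq (fun x : E => ‖x‖) b (hn n) z

lemma ae_unit {p : ℝ → Prop} (h : ∀ᵐ r : ℝ, p r) : ∀ᵐ s : unitInterval, p s := by
  have h1 : MeasurePreserving (Subtype.val : unitInterval → ℝ) volume
      (volume.restrict unitInterval) := measurePreserving_subtype_coe measurableSet_Icc
  have h2 : ∀ᵐ r ∂(volume.restrict unitInterval), p r := ae_restrict_of_ae h
  exact h1.quasiMeasurePreserving.ae h2

lemma ae_unit2 {p : ℝ × ℝ → Prop} (h : ∀ᵐ r : ℝ × ℝ, p r) :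
    ∀ᵐ s : unitInterval × unitInterval, p (s.1, s.2) := by
  have h1 : MeasurePreserving (Subtype.val : unitInterval → ℝ) volume
      (volume.restrict unitInterval) := measurePreserving_subtype_coe measurableSet_Icc
  have h2 := h1.prod h1
  have h3 : (volume.restrict unitInterval).prod (volume.restrict unitInterval)
      ≪ (volume : Measure (ℝ × ℝ)) := by
    rw [Measure.prod_restrict]
    exact Measure.absolutelyContinuous_of_le Measure.restrict_le_self
  have h4 : ∀ᵐ r ∂((volume.restrict unitInterval).prod (volume.restrict unitInterval)), p r :=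
    h3.ae_le h
  exact h2.quasiMeasurePreserving.ae h4

lemma norm_convex (y u : E) : ConvexOn ℝ univ (fun r : ℝ => ‖y + r • u‖) := by
  refine ⟨convex_univ, fun s _ t _ a b ha hb hab => ?_⟩
  have e : y + (a • s + b • t) • u = a • (y + s • u) + b • (y + t • u) := by
    have : y = (a + b) • y := by rw [hab, one_smul]
    conv_lhs => rw [this]
    simp only [smul_eq_mul]
    module
  show ‖y + (a • s + b • t) • u‖ ≤ a • ‖y + s • u‖ + b • ‖y + t • u‖
  rw [e]
  refine (norm_add_le _ _).trans (le_of_eq ?_)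
  rw [norm_smul, norm_smul, Real.norm_of_nonneg ha, Real.norm_of_nonneg hb, smul_eq_mul,
    smul_eq_mul]

lemma norm_convex2 (y u w : E) :
    ConvexOn ℝ univ (fun r : ℝ × ℝ => ‖y + r.1 • u + r.2 • w‖) := by
  refine ⟨convex_univ, fun s _ t _ a b ha hb hab => ?_⟩
  have e : y + (a • s + b • t).1 • u + (a • s + b • t).2 • w
      = a • (y + s.1 • u + s.2 • w) + b • (y + t.1 • u + t.2 • w) := by
    have : y = (a + b) • y := by rw [hab, one_smul]
    conv_lhs => rw [this]
    simp only [Prod.fst_add, Prod.snd_add, Prod.smul_fst, Prod.smul_snd, smul_eq_mul]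
    module
  show ‖y + (a • s + b • t).1 • u + (a • s + b • t).2 • w‖
    ≤ a • ‖y + s.1 • u + s.2 • w‖ + b • ‖y + t.1 • u + t.2 • w‖
  rw [e]
  refine (norm_add_le _ _).trans (le_of_eq ?_)
  rw [norm_smul, norm_smul, Real.norm_of_nonneg ha, Real.norm_of_nonneg hb, smul_eq_mul,
    smul_eq_mul]

lemma meas_SO {ι : Type} [Countable ι] {X : (ι → unitInterval) → E} (hX : Continuous X) (u : E) :
    MeasurableSet {ω | SO (fun t : ℝ => ‖X ω + t • u‖) 0} := by
  have hcont : Continuous (Function.uncurry fun (ω : ι → unitInterval) (t : ℝ) =>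
      ‖X ω + t • u‖) :=
    ((hX.comp continuous_fst).add (continuous_snd.smul continuous_const)).norm
  have hset : {ω | SO (fun t : ℝ => ‖X ω + t • u‖) 0}
      = {ω | ∃ c, Tendsto (fun t : QQ => HH (fun t : ℝ => ‖X ω + t • u‖) t) lq (𝓝 c)} := by
    ext ω
    exact SO_iff (continuous_const.add (continuous_id.smul continuous_const)).norm
  rw [hset]
  refine MeasureTheory.measurableSet_exists_tendsto fun t => ?_
  have hd : Measurable fun ω : ι → unitInterval => deriv (fun t : ℝ => ‖X ω + t • u‖) 0 :=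
    (measurable_deriv_with_param hcont).comp (measurable_id.prodMk measurable_const)
  have h1 : ∀ s : ℝ, Measurable fun ω : ι → unitInterval => ‖X ω + s • u‖ := fun s =>
    ((hX.add continuous_const).norm).measurable
  unfold HH
  exact (((h1 _).sub (h1 _)).sub (hd.mul_const _)).div_const _

lemma dq_norm_cont (v : E) (h : ℝ) : Continuous (dq (fun x : E => ‖x‖) v h) := by
  unfold dq
  exact (((continuous_id.add continuous_const).norm.add
    (continuous_id.sub continuous_const).norm).sub (continuous_const.mul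
    continuous_norm)).div_const _

lemma meas_TE {ι : Type} [Countable ι] {X : (ι → unitInterval) → E} (hX : Continuous X) (a b : E) :
    MeasurableSet {ω | Tendsto (fun n => TE a b n (X ω)) atTop (𝓝 0)} := by
  refine measurableSet_tendsto (𝓝 (0 : ℝ)) fun n => ?_
  refine Continuous.measurable ?_
  unfold TE
  have h := fun v : E => (dq_norm_cont v (hn n)).comp hX
  exact (((h _).add (h _)).sub (continuous_const.mul (h _))).sub (continuous_const.mul (h _))

lemma section1 (y u : E) : ∀ᵐ s : unitInterval, SO (fun t : ℝ => ‖(y + (s : ℝ) • u) + t • u‖) 0 := by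
  refine ae_unit (p := fun s => SO (fun t : ℝ => ‖(y + s • u) + t • u‖) 0) ?_
  filter_upwards [ae_SO (norm_convex y u)] with s hs
  obtain ⟨a, m, h⟩ := hs
  refine ⟨a, m, h.congr fun t => ?_⟩
  simp only [add_smul, zero_smul, add_zero, zero_add, add_assoc]

lemma section2 (y v w : E) {α β : ℝ} (hα : α ≠ 0) (hβ : β ≠ 0) :
    ∀ᵐ s : unitInterval × unitInterval, Tendsto (fun n => TE v w n
      ((y + (s.1 : ℝ) • (α • v)) + (s.2 : ℝ) • (β • w))) atTop (𝓝 0) := by
  refine ae_unit2 (p := fun s => Tendsto (fun n => TE v w n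
      ((y + s.1 • (α • v)) + s.2 • (β • w))) atTop (𝓝 0)) ?_
  have hc : Continuous (fun r : ℝ × ℝ => ‖y + r.1 • (α • v) + r.2 • (β • w)‖) := by fun_prop
  filter_upwards [ae_par (norm_convex2 y (α • v) (β • w)) hc (α⁻¹, 0) (0, β⁻¹)] with s hs
  refine hs.congr fun n => ?_
  have key : ∀ (a b h : ℝ), dq (fun r : ℝ × ℝ => ‖y + r.1 • (α • v) + r.2 • (β • w)‖)
      (a * α⁻¹, b * β⁻¹) h s
      = dq (fun x : E => ‖x‖) (a • v + b • w) h ((y + s.1 • (α • v)) + s.2 • (β • w)) := by
    intro a b h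
    unfold dq
    have e1 : y + (s + h • ((a * α⁻¹, b * β⁻¹) : ℝ × ℝ)).1 • α • v
        + (s + h • ((a * α⁻¹, b * β⁻¹) : ℝ × ℝ)).2 • β • w
        = (y + s.1 • (α • v)) + s.2 • (β • w) + h • (a • v + b • w) := by
      simp only [Prod.fst_add, Prod.snd_add, Prod.smul_fst, Prod.smul_snd, smul_eq_mul]
      have f1 : (s.1 + h * (a * α⁻¹)) • α • v = s.1 • α • v + (h * a) • v := by
        rw [add_smul, smul_smul (h * (a * α⁻¹))]
        congr 2
        field_simp
      have f2 : (s.2 + h * (b * β⁻¹)) • β • w = s.2 • β • w + (h * b) • w := by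
        rw [add_smul, smul_smul (h * (b * β⁻¹))]
        congr 2
        field_simp
      rw [f1, f2]
      module
    have e2 : y + (s - h • ((a * α⁻¹, b * β⁻¹) : ℝ × ℝ)).1 • α • v
        + (s - h • ((a * α⁻¹, b * β⁻¹) : ℝ × ℝ)).2 • β • w
        = (y + s.1 • (α • v)) + s.2 • (β • w) - h • (a • v + b • w) := by
      simp only [Prod.fst_sub, Prod.snd_sub, Prod.smul_fst, Prod.smul_snd, smul_eq_mul]
      have f1 : (s.1 - h * (a * α⁻¹)) • α • v = s.1 • α • v - (h * a) • v := by
        rw [sub_smul, smul_smul (h * (a * α⁻¹))]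
        congr 2
        field_simp
      have f2 : (s.2 - h * (b * β⁻¹)) • β • w = s.2 • β • w - (h * b) • w := by
        rw [sub_smul, smul_smul (h * (b * β⁻¹))]
        congr 2
        field_simp
      rw [f1, f2]
      module
    simp only [e1, e2]
  have k1 := key 1 1 (hn n)
  have k2 := key 1 (-1) (hn n)
  have k3 := key 1 0 (hn n)
  have k4 := key 0 1 (hn n)
  simp only [one_mul, one_smul, neg_mul, neg_smul, zero_mul, zero_smul, add_zero, zero_add] at k1 k2 k3 k4
  unfold TT TE
  rw [← k3, ← k4]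
  have e3 : ((α⁻¹, 0) : ℝ × ℝ) + (0, β⁻¹) = (α⁻¹, β⁻¹) := by simp
  have e4 : ((α⁻¹, 0) : ℝ × ℝ) - (0, β⁻¹) = (α⁻¹, -β⁻¹) := by simp
  rw [e3, e4, k1, k2, ← sub_eq_add_neg]

/-- rescaling of the direction -/
lemma SO_scale {z v : E} {c : ℝ} (hc : c ≠ 0) (h : SO (fun t : ℝ => ‖z + t • (c • v)‖) 0) :
    SO (fun t : ℝ => ‖z + t • v‖) 0 := by
  obtain ⟨a, m, h⟩ := h
  refine ⟨a / c, m / c ^ 2, ?_⟩
  have h1 : Tendsto (fun t : ℝ => t / c) (𝓝[≠] 0) (𝓝[≠] 0) := by
    refine tendsto_nhdsWithin_iff.2 ⟨?_, ?_⟩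
    · have : Tendsto (fun t : ℝ => t / c) (𝓝 0) (𝓝 (0 / c)) :=
        (continuous_id.div_const c).tendsto 0
      rw [zero_div] at this
      exact this.mono_left nhdsWithin_le_nhds
    · filter_upwards [self_mem_nhdsWithin] with t ht
      have ht : t ≠ 0 := ht
      exact div_ne_zero ht hc
  have h2 := (h.comp h1).div_const (c ^ 2)
  refine h2.congr' ?_
  filter_upwards [self_mem_nhdsWithin] with t ht
  have ht : t ≠ 0 := ht
  simp only [Function.comp, zero_add, zero_smul, add_zero]
  rw [smul_smul, div_mul_cancel₀ _ hc]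
  field_simp

variable [CompleteSpace E]

/-- **A good point.** -/
theorem exists_good {ι : Type} [Countable ι] (v : ι → E) (z0 : E) :
    ∃ z : E, ‖z - z0‖ ≤ 1 / 2 ∧ (∀ k, SO (fun t : ℝ => ‖z + t • v k‖) 0) ∧
      ∀ k l, k ≠ l → Tendsto (fun n => TE (v k) (v l) n z) atTop (𝓝 0) := by
  classical
  obtain ⟨hι⟩ := nonempty_encodable ι
  obtain ⟨ε, hε0, S, hS, hSle⟩ := posSumOfEncodable (show (0 : ℝ) < 1 / 2 by norm_num) ι
  obtain ⟨c, hcpos, hun⟩ : ∃ c : ι → ℝ, (∀ i, 0 < c i) ∧ ∀ i, ‖c i • v i‖ ≤ ε i := by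
    refine ⟨fun i => ε i / (1 + ‖v i‖), fun i => ?_, fun i => ?_⟩
    · have := hε0 i
      have := norm_nonneg (v i)
      positivity
    · have h1 := norm_nonneg (v i)
      have h2 := hε0 i
      rw [norm_smul, Real.norm_of_nonneg (by positivity), div_mul_eq_mul_div,
        div_le_iff₀ (by positivity)]
      nlinarith
  have hterm : ∀ (i : ι) (ω : ι → unitInterval), ‖((ω i : ℝ)) • (c i • v i)‖ ≤ ε i := by
    intro i ω
    rw [norm_smul, Real.norm_of_nonneg (ω i).2.1]
    calc (ω i : ℝ) * ‖c i • v i‖ ≤ 1 * ‖c i • v i‖ := by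
          gcongr
          exact (ω i).2.2
      _ = ‖c i • v i‖ := one_mul _
      _ ≤ _ := hun i
  have hsum : ∀ ω : ι → unitInterval, Summable fun i => ((ω i : ℝ)) • (c i • v i) := fun ω =>
    Summable.of_norm_bounded hS.summable fun i => hterm i ω
  obtain ⟨X, hX⟩ : ∃ X : (ι → unitInterval) → E, ∀ ω, X ω = z0 + ∑' i, ((ω i : ℝ)) • (c i • v i) :=
    ⟨_, fun _ => rfl⟩
  have hXc : Continuous X := by
    have : X = fun ω => z0 + ∑' i, ((ω i : ℝ)) • (c i • v i) := funext hX
    rw [this]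
    refine continuous_const.add (continuous_tsum (fun i => ?_) hS.summable hterm)
    exact (continuous_subtype_val.comp (continuous_apply i)).smul continuous_const
  have hXn : ∀ ω, ‖X ω - z0‖ ≤ 1 / 2 := by
    intro ω
    have h1 : ‖∑' i, ((ω i : ℝ)) • (c i • v i)‖ ≤ ∑' i, ε i :=
      tsum_of_norm_bounded hS.summable.hasSum fun i => hterm i ω
    rw [hS.tsum_eq] at h1
    rw [hX, add_sub_cancel_left]
    linarith
  -- changing a coordinate
  have hXu : ∀ (ω : ι → unitInterval) (k : ι) (s : unitInterval),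
      X (Function.update ω k s) = (X ω - (ω k : ℝ) • (c k • v k)) + (s : ℝ) • (c k • v k) := by
    intro ω k s
    have h1 : (∑' i, ((Function.update ω k s i : unitInterval) : ℝ) • (c i • v i))
        - ∑' i, ((ω i : ℝ)) • (c i • v i) = ((s : ℝ) - (ω k : ℝ)) • (c k • v k) := by
      rw [← (hsum _).tsum_sub (hsum _), tsum_eq_single k]
      · rw [Function.update_self, sub_smul]
      · intro i hi
        rw [Function.update_of_ne hi, sub_self]
    have h2 : (∑' i, ((Function.update ω k s i : unitInterval) : ℝ) • (c i • v i))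
        = ∑' i, ((ω i : ℝ)) • (c i • v i) + ((s : ℝ) - (ω k : ℝ)) • (c k • v k) := by
      rw [← h1]; abel
    rw [hX, hX, h2, sub_smul]
    abel
  -- first family of conditions
  have hA : ∀ k, ∀ᵐ ω ∂(PP ι), SO (fun t : ℝ => ‖X ω + t • (c k • v k)‖) 0 := by
    intro k
    refine ae_update (meas_SO hXc (c k • v k)) k fun ω => ?_
    filter_upwards [section1 (X ω - (ω k : ℝ) • (c k • v k)) (c k • v k)] with s hs
    show SO (fun t : ℝ => ‖X (Function.update ω k s) + t • (c k • v k)‖) 0
    rw [hXu]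
    exact hs
  have hB : ∀ k l, k ≠ l → ∀ᵐ ω ∂(PP ι), Tendsto (fun n => TE (v k) (v l) n (X ω)) atTop (𝓝 0) := by
    intro k l hkl
    refine ae_update2 (meas_TE hXc (v k) (v l)) k l fun ω => ?_
    filter_upwards [section2 (X ω - (ω k : ℝ) • (c k • v k) - (ω l : ℝ) • (c l • v l)) (v k) (v l)
      (hcpos k).ne' (hcpos l).ne'] with s hs
    show Tendsto (fun n => TE (v k) (v l) n
      (X (Function.update (Function.update ω k s.1) l s.2))) atTop (𝓝 0)
    rw [hXu, hXu, Function.update_of_ne hkl.symm]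
    have e : X ω - (ω k : ℝ) • (c k • v k) + (s.1 : ℝ) • (c k • v k) - (ω l : ℝ) • (c l • v l)
        + (s.2 : ℝ) • (c l • v l)
        = X ω - (ω k : ℝ) • (c k • v k) - (ω l : ℝ) • (c l • v l) + (s.1 : ℝ) • (c k • v k)
        + (s.2 : ℝ) • (c l • v l) := by abel
    rw [e]
    exact hs
  have hall : ∀ᵐ ω ∂(PP ι), (∀ k, SO (fun t : ℝ => ‖X ω + t • (c k • v k)‖) 0) ∧
      ∀ k l, k ≠ l → Tendsto (fun n => TE (v k) (v l) n (X ω)) atTop (𝓝 0) := by
    refine (ae_all_iff.2 hA).and (ae_all_iff.2 fun k => ae_all_iff.2 fun l => ?_)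
    by_cases hkl : k = l
    · exact Eventually.of_forall fun _ h => absurd hkl h
    · filter_upwards [hB k l hkl] with ω hω _ using hω
  obtain ⟨ω, h1, h2⟩ := hall.exists
  exact ⟨X ω, hXn ω, fun k => SO_scale (hcpos k).ne' (h1 k), h2⟩

end Pool.Agent.Y278.Rot
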