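import Mathlib

/-! # Transitive norms on Hilbertian spaces are 2-smooth -/

set_option autoImplicit false

namespace Pool.Agent.Y278.Rot

open Set

variable {E : Type} [NormedAddCommGroup E] [NormedSpace ℝ E]
variable {H : Type} [NormedAddCommGroup H] [InnerProductSpace ℝ H]

/-- cost of a decomposition -/
noncomputable def cost (Φ : E ≃L[ℝ] H) (l : List ((E ≃ₗᵢ[ℝ] E) × E)) : ℝ :=
  (l.map fun p => ‖Φ (p.1 p.2)‖).sum

/-- the vector which is decomposed -/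
def total (l : List ((E ≃ₗᵢ[ℝ] E) × E)) : E := (l.map fun p => p.2).sum

lemma cost_nonneg (Φ : E ≃L[ℝ] H) (l : List ((E ≃ₗᵢ[ℝ] E) × E)) : 0 ≤ cost Φ l :=
  List.sum_nonneg (by
    intro x hx
    obtain ⟨p, -, rfl⟩ := List.mem_map.1 hx
    exact norm_nonneg _)

/-- the largest invariant norm below the Hilbert norms -/
noncomputable def infN (Φ : E ≃L[ℝ] H) (x : E) : ℝ :=
  sInf {r | ∃ l : List ((E ≃ₗᵢ[ℝ] E) × E), total l = x ∧ cost Φ l = r}

lemma infN_bdd (Φ : E ≃L[ℝ] H) (x : E) :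
    BddBelow {r | ∃ l : List ((E ≃ₗᵢ[ℝ] E) × E), total l = x ∧ cost Φ l = r} :=
  ⟨0, by rintro _ ⟨l, -, rfl⟩; exact cost_nonneg Φ l⟩

lemma infN_ne (Φ : E ≃L[ℝ] H) (x : E) :
    {r | ∃ l : List ((E ≃ₗᵢ[ℝ] E) × E), total l = x ∧ cost Φ l = r}.Nonempty :=
  ⟨_, [(LinearIsometryEquiv.refl ℝ E, x)], by simp [total], rfl⟩

lemma infN_le (Φ : E ≃L[ℝ] H) {x : E} (l : List ((E ≃ₗᵢ[ℝ] E) × E)) (hl : total l = x) :
    infN Φ x ≤ cost Φ l := csInf_le (infN_bdd Φ x) ⟨l, hl, rfl⟩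

lemma exists_near (Φ : E ≃L[ℝ] H) (x : E) {ε : ℝ} (hε : 0 < ε) :
    ∃ l : List ((E ≃ₗᵢ[ℝ] E) × E), total l = x ∧ cost Φ l < infN Φ x + ε := by
  obtain ⟨r, ⟨l, hl, rfl⟩, h⟩ := exists_lt_of_csInf_lt (infN_ne Φ x)
    (show infN Φ x < infN Φ x + ε by linarith)
  exact ⟨l, hl, h⟩

lemma infN_map (Φ : E ≃L[ℝ] H) (S : E ≃ₗᵢ[ℝ] E) (x : E) : infN Φ (S x) = infN Φ x := by
  have h : ∀ (S : E ≃ₗᵢ[ℝ] E) (x : E), infN Φ (S x) ≤ infN Φ x := by
    intro S x
    refine le_csInf (infN_ne Φ x) ?_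
    rintro _ ⟨l, hl, rfl⟩
    have h1 : total (l.map fun p => (S.symm.trans p.1, S p.2)) = S x := by
      rw [← hl]
      unfold total
      rw [List.map_map, map_list_sum, List.map_map]
      rfl
    refine (infN_le Φ _ h1).trans (le_of_eq ?_)
    unfold cost
    rw [List.map_map]
    congr 1
    refine List.map_congr_left fun p _ => ?_
    show ‖Φ (p.1 (S.symm (S p.2)))‖ = _
    rw [S.symm_apply_apply]
  refine le_antisymm (h S x) ?_
  have := h S.symm (S x)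
  rwa [S.symm_apply_apply] at this

lemma infN_smul_le (Φ : E ≃L[ℝ] H) {r : ℝ} (hr : 0 < r) (x : E) :
    infN Φ (r • x) ≤ r * infN Φ x := by
  have key : ∀ l : List ((E ≃ₗᵢ[ℝ] E) × E), total l = x → infN Φ (r • x) ≤ r * cost Φ l := by
    intro l hl
    have h1 : total (l.map fun p => (p.1, r • p.2)) = r • x := by
      rw [← hl]
      unfold total
      rw [List.map_map, List.smul_sum, List.map_map]
      rfl
    refine (infN_le Φ _ h1).trans (le_of_eq ?_)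
    unfold cost
    rw [List.map_map, ← List.sum_map_mul_left]
    congr 1
    refine List.map_congr_left fun p _ => ?_
    show ‖Φ (p.1 (r • p.2))‖ = _
    rw [map_smul, map_smul, norm_smul, Real.norm_of_nonneg hr.le]
  rw [← div_le_iff₀' hr]
  refine le_csInf (infN_ne Φ x) ?_
  rintro _ ⟨l, hl, rfl⟩
  rw [div_le_iff₀' hr]
  exact key l hl

lemma infN_smul (Φ : E ≃L[ℝ] H) {r : ℝ} (hr : 0 < r) (x : E) : infN Φ (r • x) = r * infN Φ x := by
  refine le_antisymm (infN_smul_le Φ hr x) ?_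
  have h := infN_smul_le Φ (inv_pos.2 hr) (r • x)
  rw [smul_smul, inv_mul_cancel₀ hr.ne', one_smul] at h
  calc r * infN Φ x ≤ r * (r⁻¹ * infN Φ (r • x)) := by gcongr
    _ = infN Φ (r • x) := by rw [← mul_assoc, mul_inv_cancel₀ hr.ne', one_mul]

/-- by transitivity this is a multiple of the norm -/
lemma infN_eq (hG : ∀ x y : E, ‖x‖ = 1 → ‖y‖ = 1 → ∃ T : E ≃ₗᵢ[ℝ] E, T x = y)
    (Φ : E ≃L[ℝ] H) {u : E} (hu : ‖u‖ = 1) (x : E) : infN Φ x = infN Φ u * ‖x‖ := by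
  rcases eq_or_ne x 0 with rfl | hx
  · rw [norm_zero, mul_zero]
    apply le_antisymm
    · exact (infN_le Φ [] (by simp [total])).trans (by simp [cost])
    · refine le_csInf (infN_ne Φ 0) ?_
      rintro _ ⟨l, -, rfl⟩
      exact cost_nonneg Φ l
  · have hx0 : 0 < ‖x‖ := norm_pos_iff.2 hx
    obtain ⟨S, hS⟩ := hG u (‖x‖⁻¹ • x) hu (by
      rw [norm_smul, norm_inv, norm_norm, inv_mul_cancel₀ hx0.ne'])
    have h1 : x = ‖x‖ • S u := by rw [hS, smul_smul, mul_inv_cancel₀ hx0.ne', one_smul]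
    calc infN Φ x = infN Φ (‖x‖ • S u) := by rw [← h1]
      _ = infN Φ u * ‖x‖ := by rw [infN_smul Φ hx0, infN_map, mul_comm]

lemma hilbert_pair (a b : H) {S L : ℝ} (hS : 0 < S) (hb : ‖b‖ ≤ L) :
    ‖a + (‖a‖ / S) • b‖ + ‖a - (‖a‖ / S) • b‖ ≤ 2 * ‖a‖ + ‖a‖ * (L ^ 2 / S ^ 2) := by
  have h1 := parallelogram_law_with_norm ℝ a ((‖a‖ / S) • b)
  have hn : ‖(‖a‖ / S) • b‖ = ‖a‖ / S * ‖b‖ := by
    rw [norm_smul, Real.norm_of_nonneg (by positivity)]
  rw [hn] at h1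
  set p := ‖a + (‖a‖ / S) • b‖ with hp
  set q := ‖a - (‖a‖ / S) • b‖ with hq
  have hp0 : 0 ≤ p := norm_nonneg _
  have hq0 : 0 ≤ q := norm_nonneg _
  have ha0 := norm_nonneg a
  have hb0 := norm_nonneg b
  have h2 : (p + q) ^ 2 ≤ 4 * ‖a‖ ^ 2 * (1 + ‖b‖ ^ 2 / S ^ 2) := by
    have h3 : (p + q) ^ 2 ≤ 2 * (p ^ 2 + q ^ 2) := by nlinarith [sq_nonneg (p - q)]
    rw [h1] at h3
    refine h3.trans (le_of_eq ?_)
    field_simp
    ring
  have h4 : (p + q) ^ 2 ≤ (2 * ‖a‖ + ‖a‖ * (L ^ 2 / S ^ 2)) ^ 2 := by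
    refine h2.trans ?_
    have h5 : ‖b‖ ^ 2 / S ^ 2 ≤ L ^ 2 / S ^ 2 := by gcongr
    have h6 : (2 * ‖a‖ + ‖a‖ * (L ^ 2 / S ^ 2)) ^ 2
        = 4 * ‖a‖ ^ 2 * (1 + L ^ 2 / S ^ 2) + ‖a‖ ^ 2 * (L ^ 2 / S ^ 2) ^ 2 := by ring
    rw [h6]
    have h7 : 4 * ‖a‖ ^ 2 * (1 + ‖b‖ ^ 2 / S ^ 2) ≤ 4 * ‖a‖ ^ 2 * (1 + L ^ 2 / S ^ 2) := by gcongr
    have h8 : 0 ≤ ‖a‖ ^ 2 * (L ^ 2 / S ^ 2) ^ 2 := by positivity
    linarith
  exact (pow_le_pow_iff_left₀ (by positivity) (by positivity) two_ne_zero).1 h4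

/-- **2-smoothness.** -/
theorem two_smooth (hG : ∀ x y : E, ‖x‖ = 1 → ‖y‖ = 1 → ∃ T : E ≃ₗᵢ[ℝ] E, T x = y)
    (Φ : E ≃L[ℝ] H) : ∃ K : ℝ, 0 < K ∧ ∀ x w : E, ‖x‖ = 1 →
      ‖x + w‖ + ‖x - w‖ - 2 * ‖x‖ ≤ K * ‖w‖ ^ 2 := by
  by_cases hE : ∃ u : E, ‖u‖ = 1
  · obtain ⟨u, hu⟩ := hE
    obtain ⟨k, hk⟩ : ∃ k, k = infN Φ u := ⟨_, rfl⟩
    have hN : ∀ x, infN Φ x = k * ‖x‖ := fun x => by rw [hk]; exact infN_eq hG Φ hu x
    obtain ⟨L', hL'⟩ : ∃ L', L' = ‖(Φ.symm : H →L[ℝ] E)‖ + 1 := ⟨_, rfl⟩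
    have hL'0 : 0 < L' := by rw [hL']; positivity
    have hlow : ∀ x : E, ‖x‖ ≤ L' * ‖Φ x‖ := by
      intro x
      have h1 := (Φ.symm : H →L[ℝ] E).le_opNorm (Φ x)
      have h2 : (Φ.symm : H →L[ℝ] E) (Φ x) = x := Φ.symm_apply_apply x
      rw [h2] at h1
      refine h1.trans ?_
      gcongr
      rw [hL']; linarith
    have hcost : ∀ l : List ((E ≃ₗᵢ[ℝ] E) × E), ‖total l‖ ≤ L' * cost Φ l := by
      intro l
      induction l with
      | nil => simp [total, cost]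
      | cons p l ih =>
        have e1 : total (p :: l) = p.2 + total l := by simp [total]
        have e2 : cost Φ (p :: l) = ‖Φ (p.1 p.2)‖ + cost Φ l := by simp [cost]
        rw [e1, e2, mul_add]
        refine (norm_add_le _ _).trans ?_
        have h1 := hlow (p.1 p.2)
        rw [p.1.norm_map] at h1
        linarith
    have hk0 : 0 < k := by
      have h1 : 1 / L' ≤ infN Φ u := by
        refine le_csInf (infN_ne Φ u) ?_
        rintro _ ⟨l, hl, rfl⟩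
        have := hcost l
        rw [hl, hu] at this
        rw [div_le_iff₀ hL'0]
        linarith
      rw [hk]
      exact lt_of_lt_of_le (by positivity) h1
    obtain ⟨L, hL⟩ : ∃ L, L = ‖(Φ : E →L[ℝ] H)‖ := ⟨_, rfl⟩
    have hL0 : 0 ≤ L := by rw [hL]; exact norm_nonneg _
    have hup : ∀ x : E, ‖Φ x‖ ≤ L * ‖x‖ := fun x => by rw [hL]; exact (Φ : E →L[ℝ] H).le_opNorm x
    refine ⟨L ^ 2 / k ^ 2 + 1, by positivity, fun x w hx => ?_⟩
    -- the main estimate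
    have main : ∀ ε : ℝ, 0 < ε → k * ‖x + w‖ + k * ‖x - w‖ ≤
        2 * (k + ε) + (L * ‖w‖) ^ 2 / k := by
      intro ε hε
      obtain ⟨l, hl, hlc⟩ := exists_near Φ x hε
      rw [hN, hx, mul_one] at hlc
      obtain ⟨S, hS⟩ : ∃ S, S = cost Φ l := ⟨_, rfl⟩
      rw [← hS] at hlc
      have hkS : k ≤ S := by
        have := infN_le Φ l hl
        rw [hN, hx, mul_one] at this
        rw [hS]; exact this
      have hS0 : 0 < S := hk0.trans_le hkS
      -- the decompositions of `x + w` and `x - w`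
      have htot : ∀ s : ℝ, total (l.map fun p => (p.1, p.2 + (s * (‖Φ (p.1 p.2)‖ / S)) • w))
          = x + s • w := by
        intro s
        have gen : ∀ l' : List ((E ≃ₗᵢ[ℝ] E) × E),
            total (l'.map fun p => (p.1, p.2 + (s * (‖Φ (p.1 p.2)‖ / S)) • w))
              = total l' + (s * (cost Φ l' / S)) • w := by
          intro l'
          induction l' with
          | nil => simp [total, cost]
          | cons p l' ih =>
            have e1 : total (p :: l') = p.2 + total l' := by simp [total]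
            have e2 : cost Φ (p :: l') = ‖Φ (p.1 p.2)‖ + cost Φ l' := by simp [cost]
            have e3 : total ((p :: l').map
                fun p => (p.1, p.2 + (s * (‖Φ (p.1 p.2)‖ / S)) • w))
                = (p.2 + (s * (‖Φ (p.1 p.2)‖ / S)) • w)
                  + total (l'.map fun p => (p.1, p.2 + (s * (‖Φ (p.1 p.2)‖ / S)) • w)) := by
              simp [total]
            rw [e3, ih, e1, e2, add_div, mul_add, add_smul]
            abel
        rw [gen, hl, ← hS, div_self hS0.ne', mul_one]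
      have hA := infN_le Φ _ (htot 1)
      have hB := infN_le Φ _ (htot (-1))
      rw [one_smul, hN] at hA
      rw [neg_one_smul, ← sub_eq_add_neg, hN] at hB
      have hsum : cost Φ (l.map fun p => (p.1, p.2 + ((1 : ℝ) * (‖Φ (p.1 p.2)‖ / S)) • w))
          + cost Φ (l.map fun p => (p.1, p.2 + ((-1 : ℝ) * (‖Φ (p.1 p.2)‖ / S)) • w))
          ≤ 2 * S + S * ((L * ‖w‖) ^ 2 / S ^ 2) := by
        have gen : ∀ l' : List ((E ≃ₗᵢ[ℝ] E) × E),
            cost Φ (l'.map fun p => (p.1, p.2 + ((1 : ℝ) * (‖Φ (p.1 p.2)‖ / S)) • w))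
            + cost Φ (l'.map fun p => (p.1, p.2 + ((-1 : ℝ) * (‖Φ (p.1 p.2)‖ / S)) • w))
            ≤ 2 * cost Φ l' + cost Φ l' * ((L * ‖w‖) ^ 2 / S ^ 2) := by
          intro l'
          induction l' with
          | nil => simp [cost]
          | cons p l' ih =>
            have e2 : cost Φ (p :: l') = ‖Φ (p.1 p.2)‖ + cost Φ l' := by simp [cost]
            have e3 : ∀ s : ℝ, cost Φ ((p :: l').map
                fun p => (p.1, p.2 + (s * (‖Φ (p.1 p.2)‖ / S)) • w))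
                = ‖Φ (p.1 (p.2 + (s * (‖Φ (p.1 p.2)‖ / S)) • w))‖
                  + cost Φ (l'.map fun p => (p.1, p.2 + (s * (‖Φ (p.1 p.2)‖ / S)) • w)) := by
              intro s
              simp [cost]
            rw [e3, e3, e2]
            have h1 := hilbert_pair (Φ (p.1 p.2)) (Φ (p.1 w)) hS0 (L := L * ‖w‖) (by
              have := hup (p.1 w)
              rwa [p.1.norm_map] at this)
            have e4 : Φ (p.1 (p.2 + ((1 : ℝ) * (‖Φ (p.1 p.2)‖ / S)) • w))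
                = Φ (p.1 p.2) + (‖Φ (p.1 p.2)‖ / S) • Φ (p.1 w) := by
              rw [map_add, map_add, map_smul, map_smul, one_mul]
            have e5 : Φ (p.1 (p.2 + ((-1 : ℝ) * (‖Φ (p.1 p.2)‖ / S)) • w))
                = Φ (p.1 p.2) - (‖Φ (p.1 p.2)‖ / S) • Φ (p.1 w) := by
              rw [map_add, map_add, map_smul, map_smul, neg_one_mul, neg_smul,
                ← sub_eq_add_neg]
            rw [e4, e5]
            linarith
        have := gen l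
        rwa [← hS] at this
      have h7 : S * ((L * ‖w‖) ^ 2 / S ^ 2) ≤ (L * ‖w‖) ^ 2 / k := by
        calc S * ((L * ‖w‖) ^ 2 / S ^ 2) = (L * ‖w‖) ^ 2 / S := by field_simp
          _ ≤ (L * ‖w‖) ^ 2 / k := by gcongr
      linarith
    have main2 : k * ‖x + w‖ + k * ‖x - w‖ ≤ 2 * k + (L * ‖w‖) ^ 2 / k := by
      refine le_of_forall_pos_le_add fun ε hε => ?_
      have := main (ε / 2) (by positivity)
      linarith
    rw [hx]
    have h8 : k * (‖x + w‖ + ‖x - w‖ - 2 * 1) ≤ k * ((L ^ 2 / k ^ 2) * ‖w‖ ^ 2) := by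
      have e : k * ((L ^ 2 / k ^ 2) * ‖w‖ ^ 2) = (L * ‖w‖) ^ 2 / k := by field_simp
      rw [e]
      linarith
    have h9 := le_of_mul_le_mul_left h8 hk0
    have h10 : 0 ≤ ‖w‖ ^ 2 := by positivity
    linarith
  · refine ⟨1, one_pos, fun x w hx => absurd ⟨x, hx⟩ hE⟩

end Pool.Agent.Y278.Rot
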