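import Pool.Agent.Y278.Rot.Main
import Pool.Agent.Y278.Rot.Conv2
import Pool.Agent.Y278.Rot.Smooth2

/-! # Transitive norms on Hilbertian spaces are twice differentiable in all directions -/

set_option autoImplicit false

namespace Pool.Agent.Y278.Rot

open Set Filter Topology Asymptotics

variable {E : Type} [NormedAddCommGroup E] [NormedSpace ℝ E]

lemma Bd_all {x : E} {f : StrongDual ℝ E} (hf : Nm x f) (hx : ‖x‖ = 1) {K : ℝ} (hK0 : 0 < K)
    (hK : ∀ x w : E, ‖x‖ = 1 → ‖x + w‖ + ‖x - w‖ - 2 * ‖x‖ ≤ K * ‖w‖ ^ 2) (w : E) :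
    Bd x f w (√K * ‖w‖) := by
  intro t ht
  rw [mul_pow, Real.sq_sqrt hK0.le]
  unfold ph
  rw [div_le_iff₀ (by positivity)]
  have h1 := hK x (t • w) hx
  rw [norm_smul, mul_pow, Real.norm_eq_abs, sq_abs] at h1
  have h2 := f.le_opNorm (x - t • w)
  rw [hf.1, one_mul, map_sub, map_smul, hf.2, smul_eq_mul, Real.norm_eq_abs] at h2
  have h3 := le_abs_self (‖x‖ - t * f w)
  nlinarith

/-- existence of the limits in all directions -/
lemma Lm_all {x : E} {f : StrongDual ℝ E} (hf : Nm x f) (hx : ‖x‖ = 1) {K : ℝ} (hK0 : 0 < K)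
    (hK : ∀ x w : E, ‖x‖ = 1 → ‖x + w‖ + ‖x - w‖ - 2 * ‖x‖ ≤ K * ‖w‖ ^ 2)
    {V : Set E} (hV : Dense V) (hL : ∀ v ∈ V, ∃ m, Lm x f v m) (w : E) : ∃ m, Lm x f w m := by
  refine exists_lim fun ε hε => ?_
  obtain ⟨K1, hK1⟩ : ∃ K1, K1 = (√K * (‖w‖ + 1)) ^ 2 := ⟨_, rfl⟩
  have hK10 : 0 ≤ K1 := by rw [hK1]; positivity
  obtain ⟨lam, hlam⟩ : ∃ lam, lam = min (1 / 2) (ε / (2 * K1 + 3)) := ⟨_, rfl⟩
  have hl0 : 0 < lam := by
    rw [hlam]; exact lt_min (by norm_num) (by positivity)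
  have hl1 : lam ≤ 1 / 2 := by rw [hlam]; exact min_le_left _ _
  have hl2 : (2 * K1 + 3) * lam ≤ ε := by
    have : lam ≤ ε / (2 * K1 + 3) := by rw [hlam]; exact min_le_right _ _
    rw [le_div_iff₀ (by positivity)] at this
    linarith
  have hsK : 0 < √K := Real.sqrt_pos.2 hK0
  obtain ⟨v, hv, hvw⟩ := hV.exists_dist_lt w (show 0 < min 1 (lam / √K) from
    lt_min one_pos (by positivity))
  rw [dist_eq_norm] at hvw
  have hvw1 : ‖w - v‖ < 1 := hvw.trans_le (min_le_left _ _)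
  have hvw2 : ‖w - v‖ < lam / √K := hvw.trans_le (min_le_right _ _)
  rw [lt_div_iff₀ hsK] at hvw2
  obtain ⟨m, hm⟩ := hL v hv
  have hBd : Bd x f (w - v) lam :=
    Bd_mono (Bd_all hf hx hK0 hK (w - v)) (by positivity) (by linarith)
  have hmK : m ≤ K1 := by
    refine (Lm_le_of_Bd hm (Bd_all hf hx hK0 hK v)).trans ?_
    rw [hK1]
    have h1 : ‖v‖ ≤ ‖w‖ + 1 := by
      have := norm_sub_norm_le v w
      rw [norm_sub_rev] at this
      linarith
    gcongr
  refine ⟨m, ?_⟩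
  filter_upwards [unif_near hf hm hmK hl0 hl1] with t ht
  exact (ht w hBd).trans hl2

/-- the second order form in all directions -/
theorem form_all [CompleteSpace E] [TopologicalSpace.SeparableSpace E]
    (hG : ∀ x y : E, ‖x‖ = 1 → ‖y‖ = 1 → ∃ T : E ≃ₗᵢ[ℝ] E, T x = y) {K : ℝ} (hK0 : 0 < K)
    (hK : ∀ x w : E, ‖x‖ = 1 → ‖x + w‖ + ‖x - w‖ - 2 * ‖x‖ ≤ K * ‖w‖ ^ 2) {x : E}
    (hx : ‖x‖ = 1) : ∃ (f : StrongDual ℝ E) (B : E →L[ℝ] E →L[ℝ] ℝ), Nm x f ∧
      (∀ v w, B v w = B w v) ∧ ∀ w, Lm x f w (B w w) := by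
  obtain ⟨T, f, V, B, hN, hyV, hE⟩ := transitive_expand hG (TopologicalSpace.denseSeq E) hx
  have hVd : Dense (V : Set E) := by
    have h1 : DenseRange (fun n => T (TopologicalSpace.denseSeq E n)) :=
      T.toHomeomorph.surjective.denseRange.comp (TopologicalSpace.denseRange_denseSeq E)
        T.continuous
    refine h1.mono ?_
    rintro _ ⟨n, rfl⟩
    exact hyV n
  have hall := Lm_all hN hx hK0 hK hVd (fun v hv => ⟨_, hE.2 ⟨v, hv⟩⟩)
  choose q hq using hall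
  have h0 : ∀ x, 0 ≤ q x := fun x => Lm_nonneg hN (hq x)
  have hs : ∀ (c : ℝ) x, q (c • x) = c ^ 2 * q x := fun c x => Lm_unique (hq _) (Lm_smul (hq x) c)
  have ht : ∀ x y, √(q (x + y)) ≤ √(q x) + √(q y) := fun x y => Lm_add_le hN (hq x) (hq y) (hq _)
  have hlip := sqrt_sub_le hs ht
  have hqK : ∀ w, q w ≤ K * ‖w‖ ^ 2 := fun w => by
    have := Lm_le_of_Bd (hq w) (Bd_all hN hx hK0 hK w)
    rwa [mul_pow, Real.sq_sqrt hK0.le] at this
  have hcont : Continuous q := by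
    have h1 : Continuous fun w => √(q w) := by
      rw [Metric.continuous_iff]
      intro b ε hε
      have hsK : 0 < √K := Real.sqrt_pos.2 hK0
      refine ⟨ε / √K, by positivity, fun a ha => ?_⟩
      rw [dist_eq_norm, lt_div_iff₀ hsK] at ha
      rw [Real.dist_eq]
      calc |√(q a) - √(q b)| ≤ √(q (a - b)) := hlip a b
        _ ≤ √(K * ‖a - b‖ ^ 2) := Real.sqrt_le_sqrt (hqK _)
        _ = ‖a - b‖ * √K := by
            rw [Real.sqrt_mul hK0.le, Real.sqrt_sq (norm_nonneg _), mul_comm]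
        _ < ε := ha
    have h2 : q = fun w => √(q w) ^ 2 := by
      funext w
      rw [Real.sq_sqrt (h0 w)]
    rw [h2]
    exact h1.pow 2
  have hqV : ∀ v : V, q (v : E) = B v v := fun v => Lm_unique (hq _) (hE.2 v)
  have hp : ∀ x y, q (x + y) + q (x - y) = 2 * q x + 2 * q y := by
    have hcl : IsClosed {p : E × E | q (p.1 + p.2) + q (p.1 - p.2) = 2 * q p.1 + 2 * q p.2} := by
      apply isClosed_eq
      · exact (hcont.comp (continuous_fst.add continuous_snd)).add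
          (hcont.comp (continuous_fst.sub continuous_snd))
      · exact (continuous_const.mul (hcont.comp continuous_fst)).add
          (continuous_const.mul (hcont.comp continuous_snd))
    have hsub : (V : Set E) ×ˢ (V : Set E) ⊆
        {p : E × E | q (p.1 + p.2) + q (p.1 - p.2) = 2 * q p.1 + 2 * q p.2} := by
      rintro ⟨a, b⟩ ⟨ha, hb⟩
      have h1 := hqV (⟨a, ha⟩ + ⟨b, hb⟩)
      have h2 := hqV (⟨a, ha⟩ - ⟨b, hb⟩)
      have h3 := hqV ⟨a, ha⟩
      have h4 := hqV ⟨b, hb⟩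
      rw [Submodule.coe_add] at h1
      rw [Submodule.coe_sub] at h2
      show q (a + b) + q (a - b) = 2 * q a + 2 * q b
      have h1' : q (a + b) = B (⟨a, ha⟩ + ⟨b, hb⟩) (⟨a, ha⟩ + ⟨b, hb⟩) := h1
      have h2' : q (a - b) = B (⟨a, ha⟩ - ⟨b, hb⟩) (⟨a, ha⟩ - ⟨b, hb⟩) := h2
      have h3' : q a = B ⟨a, ha⟩ ⟨a, ha⟩ := h3
      have h4' : q b = B ⟨b, hb⟩ ⟨b, hb⟩ := h4
      rw [h1', h2', h3', h4']
      simp only [map_add, map_sub, LinearMap.add_apply, LinearMap.sub_apply]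
      ring
    intro a b
    have h1 : closure ((V : Set E) ×ˢ (V : Set E)) ⊆ _ := closure_minimal hsub hcl
    rw [(hVd.prod hVd).closure_eq] at h1
    exact h1 (mem_univ (a, b))
  obtain ⟨B', hBs, hBq⟩ := exists_form h0 hs ht hp
  have hbound : ∀ v w : E, ‖B' v w‖ ≤ K * ‖v‖ * ‖w‖ := by
    intro v w
    rcases eq_or_ne v 0 with rfl | hv
    · simp
    rcases eq_or_ne w 0 with rfl | hw
    · simp
    have hv0 : 0 < ‖v‖ := norm_pos_iff.2 hv
    have hw0 : 0 < ‖w‖ := norm_pos_iff.2 hw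
    -- unit vectors
    have key : ∀ a b : E, ‖a‖ = 1 → ‖b‖ = 1 → |B' a b| ≤ K := by
      intro a b ha hb
      have e1 : B' (a + b) (a + b) = B' a a + 2 * B' a b + B' b b := by
        simp only [map_add, LinearMap.add_apply]
        rw [hBs b a]; ring
      have e2 : B' (a - b) (a - b) = B' a a - 2 * B' a b + B' b b := by
        simp only [map_sub, LinearMap.sub_apply]
        rw [hBs b a]; ring
      have p1 := h0 (a + b)
      have p2 := h0 (a - b)
      have p3 := hqK a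
      have p4 := hqK b
      rw [ha, one_pow, mul_one] at p3
      rw [hb, one_pow, mul_one] at p4
      rw [← hBq, e1] at p1
      rw [← hBq, e2] at p2
      rw [← hBq] at p3 p4
      rw [abs_le]
      constructor <;> linarith
    have h1 := key (‖v‖⁻¹ • v) (‖w‖⁻¹ • w)
      (by rw [norm_smul, norm_inv, norm_norm, inv_mul_cancel₀ hv0.ne'])
      (by rw [norm_smul, norm_inv, norm_norm, inv_mul_cancel₀ hw0.ne'])
    rw [map_smul, map_smul, LinearMap.smul_apply, smul_eq_mul, smul_eq_mul, abs_mul, abs_mul,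
      abs_of_pos (inv_pos.2 hv0), abs_of_pos (inv_pos.2 hw0)] at h1
    rw [Real.norm_eq_abs]
    calc |B' v w| = ‖w‖ * ‖v‖ * (‖w‖⁻¹ * (‖v‖⁻¹ * |B' v w|)) := by field_simp
      _ = ‖v‖ * ‖w‖ * (‖w‖⁻¹ * (‖v‖⁻¹ * |B' v w|)) := by ring
      _ ≤ ‖v‖ * ‖w‖ * K := by
          apply mul_le_mul_of_nonneg_left _ (by positivity)
          exact h1
      _ = K * ‖v‖ * ‖w‖ := by ring
  refine ⟨f, B'.mkContinuous₂ K hbound, hN, fun v w => ?_, fun w => ?_⟩
  · rw [LinearMap.mkContinuous₂_apply, LinearMap.mkContinuous₂_apply, hBs]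
  · rw [LinearMap.mkContinuous₂_apply, hBq]
    exact hq w

end Pool.Agent.Y278.Rot
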