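import Pool.Agent.Y278.Rot.Hess
import Pool.Agent.H305R3.Rot.Near

/-! # Continuity of the second derivatives -/

set_option autoImplicit false

namespace Pool.Agent.Y278.Rot

open Set Filter Topology Asymptotics

variable {E : Type} [NormedAddCommGroup E] [NormedSpace ℝ E]

/-- symmetric second difference quotients of the squared norm -/
noncomputable def QS (t : ℝ) (x w : E) : ℝ :=
  (‖x + t • w‖ ^ 2 + ‖x - t • w‖ ^ 2 - 2 * ‖x‖ ^ 2) / (2 * t ^ 2)

lemma QS_map (T : E ≃ₗᵢ[ℝ] E) (t : ℝ) (x w : E) : QS t (T x) (T w) = QS t x w := by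
  unfold QS
  rw [← map_smul, ← map_add, ← map_sub, T.norm_map, T.norm_map, T.norm_map]

lemma QS_cont (t : ℝ) (w : E) : Continuous fun x => QS t x w := by
  unfold QS
  fun_prop

lemma QS_eq {x : E} {f : StrongDual ℝ E} (hx : ‖x‖ = 1) {t : ℝ} (ht : t ≠ 0) (w : E) :
    QS t x w = f w ^ 2 + (ph x f t w + ph x f (-t) w) + t * f w * (ph x f t w - ph x f (-t) w)
      + t ^ 2 * (ph x f t w ^ 2 + ph x f (-t) w ^ 2) / 2 := by
  have h1 : ‖x + t • w‖ = 1 + t * f w + t ^ 2 * ph x f t w := by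
    unfold ph
    rw [hx]
    field_simp
    ring
  have h2 : ‖x - t • w‖ = 1 - t * f w + t ^ 2 * ph x f (-t) w := by
    unfold ph
    rw [hx, neg_smul, ← sub_eq_add_neg, neg_sq]
    field_simp
    ring
  unfold QS
  rw [h1, h2, hx]
  field_simp
  ring

/-- the quadratic part of the squared norm -/
lemma sq_expand {x : E} {f : StrongDual ℝ E} (hx : ‖x‖ = 1) {w : E} {m : ℝ} (hm : Lm x f w m) :
    (fun t : ℝ => ‖x + t • w‖ ^ 2 - 1 - 2 * t * f w - t ^ 2 * (f w ^ 2 + 2 * m))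
      =o[𝓝 0] fun t : ℝ => t ^ 2 := by
  have h0 : Tendsto (fun t : ℝ => t) (𝓝[≠] 0) (𝓝 0) := tendsto_id.mono_left nhdsWithin_le_nhds
  have h1 : Tendsto (fun t : ℝ => 2 * (ph x f t w - m) + 2 * t * f w * ph x f t w
      + t ^ 2 * ph x f t w ^ 2) (𝓝[≠] 0) (𝓝 0) := by
    have a1 := (hm.sub_const m).const_mul 2
    have a2 := ((h0.const_mul 2).mul_const (f w)).mul hm
    have a3 := (h0.pow 2).mul (hm.pow 2)
    have a4 := (a1.add a2).add a3
    simp only [sub_self, mul_zero, zero_mul, add_zero, ne_eq, OfNat.ofNat_ne_zero,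
      not_false_eq_true, zero_pow] at a4
    exact a4
  rw [isLittleO_iff]
  intro ε hε
  have h2 := Metric.tendsto_nhds.1 h1 ε hε
  rw [eventually_nhdsWithin_iff] at h2
  filter_upwards [h2] with t ht
  rcases eq_or_ne t 0 with rfl | ht0
  · simp [hx]
  · have h3 := ht ht0
    rw [dist_zero_right] at h3
    have h4 : ‖x + t • w‖ = 1 + t * f w + t ^ 2 * ph x f t w := by
      unfold ph
      rw [hx]
      field_simp
      ring
    have h5 : ‖x + t • w‖ ^ 2 - 1 - 2 * t * f w - t ^ 2 * (f w ^ 2 + 2 * m)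
        = (2 * (ph x f t w - m) + 2 * t * f w * ph x f t w + t ^ 2 * ph x f t w ^ 2) * t ^ 2 := by
      rw [h4]; ring
    rw [h5, norm_mul]
    gcongr

lemma QS_tendsto {x : E} {f : StrongDual ℝ E} (hx : ‖x‖ = 1) {w : E} {m : ℝ} (hm : Lm x f w m) :
    Tendsto (fun t => QS t x w) (𝓝[≠] 0) (𝓝 (f w ^ 2 + 2 * m)) := by
  have h0 : Tendsto (fun t : ℝ => t) (𝓝[≠] 0) (𝓝 0) := tendsto_id.mono_left nhdsWithin_le_nhds
  have hneg : Tendsto (fun t => ph x f (-t) w) (𝓝[≠] 0) (𝓝 m) := by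
    have h := hm.comp (tendsto_mul_ne (c := -1) (by norm_num))
    refine h.congr fun t => ?_
    simp only [Function.comp, neg_one_mul]
  have a1 := (hm.add hneg).const_add (f w ^ 2)
  have a2 := (h0.mul_const (f w)).mul (hm.sub hneg)
  have a3 := ((h0.pow 2).mul ((hm.pow 2).add (hneg.pow 2))).div_const 2
  have a4 := (a1.add a2).add a3
  simp only [sub_self, mul_zero, zero_mul, add_zero, ne_eq, OfNat.ofNat_ne_zero,
    not_false_eq_true, zero_pow, zero_div, ← two_mul] at a4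
  refine a4.congr' ?_
  filter_upwards [self_mem_nhdsWithin] with t ht
  have ht : t ≠ 0 := ht
  rw [QS_eq (f := f) hx ht]

/-- uniform closeness for nearby directions -/
lemma QS_near {x : E} {f : StrongDual ℝ E} (hf : Nm x f) (hx : ‖x‖ = 1) {K : ℝ} (hK0 : 0 < K)
    (hK : ∀ x w : E, ‖x‖ = 1 → ‖x + w‖ + ‖x - w‖ - 2 * ‖x‖ ≤ K * ‖w‖ ^ 2) {w : E} {m : ℝ}
    (hm : Lm x f w m) {ε : ℝ} (hε : 0 < ε) : ∃ κ : ℝ, 0 < κ ∧ ∀ᶠ t in 𝓝[≠] (0 : ℝ), ∀ w' : E,
      ‖w' - w‖ ≤ κ → |QS t x w' - (f w ^ 2 + 2 * m)| ≤ ε := by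
  have hm0 := Lm_nonneg hf hm
  -- a common bound
  obtain ⟨M, hM⟩ : ∃ M, M = m + ‖w‖ + 3 + ε := ⟨_, rfl⟩
  have hw0 := norm_nonneg w
  have hM3 : 3 ≤ M := by linarith
  obtain ⟨lam, hlam⟩ : ∃ lam, lam = min (1 / 2) (min 1 (ε / 8) / (2 * m + 3)) := ⟨_, rfl⟩
  have hm3 : 0 < 2 * m + 3 := by linarith
  have hl0 : 0 < lam := by
    rw [hlam]
    exact lt_min (by norm_num) (div_pos (lt_min one_pos (by positivity)) hm3)
  have hl1 : lam ≤ 1 / 2 := by rw [hlam]; exact min_le_left _ _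
  have hl2 : (2 * m + 3) * lam ≤ min 1 (ε / 8) := by
    have : lam ≤ min 1 (ε / 8) / (2 * m + 3) := by rw [hlam]; exact min_le_right _ _
    rw [le_div_iff₀ hm3] at this
    linarith
  have hsK : 0 < √K := Real.sqrt_pos.2 hK0
  refine ⟨min (lam / √K) (min 1 (ε / (4 * (2 * M)))), lt_min (by positivity)
    (lt_min one_pos (by positivity)), ?_⟩
  have e1 := unif_near hf hm le_rfl hl0 hl1
  have e2 : ∀ᶠ t in 𝓝[≠] (0 : ℝ), ∀ w', Bd x f (w' - w) lam → |ph x f (-t) w' - m| ≤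
      (2 * m + 3) * lam := by
    have h := (tendsto_mul_ne (c := -1) (by norm_num)).eventually e1
    filter_upwards [h] with t ht
    rwa [neg_one_mul] at ht
  have e3 : ∀ᶠ t in 𝓝[≠] (0 : ℝ), |t| ≤ min 1 (ε / (8 * (M * M))) := by
    have h0 : Tendsto (fun t : ℝ => |t|) (𝓝[≠] 0) (𝓝 |0|) :=
      (continuous_abs.tendsto 0).mono_left nhdsWithin_le_nhds
    rw [abs_zero] at h0
    have hpos : 0 < min 1 (ε / (8 * (M * M))) := lt_min one_pos (by positivity)
    filter_upwards [h0.eventually (gt_mem_nhds hpos)] with t ht using le_of_lt ht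
  filter_upwards [e1, e2, e3, self_mem_nhdsWithin] with t h1 h2 h3 ht w' hw'
  have ht : t ≠ 0 := ht
  have hw1 : ‖w' - w‖ ≤ lam / √K := hw'.trans (min_le_left _ _)
  have hw2 : ‖w' - w‖ ≤ 1 := hw'.trans ((min_le_right _ _).trans (min_le_left _ _))
  have hw3 : ‖w' - w‖ ≤ ε / (4 * (2 * M)) := hw'.trans ((min_le_right _ _).trans (min_le_right _ _))
  have hBd : Bd x f (w' - w) lam := by
    rw [le_div_iff₀ hsK] at hw1
    exact Bd_mono (Bd_all hf hx hK0 hK (w' - w)) (by positivity) (by linarith)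
  have h1' := (h1 w' hBd).trans hl2
  have h2' := (h2 w' hBd).trans hl2
  have ht1 : |t| ≤ 1 := h3.trans (min_le_left _ _)
  have ht2 : |t| ≤ ε / (8 * (M * M)) := h3.trans (min_le_right _ _)
  obtain ⟨a, ha⟩ : ∃ a, a = ph x f t w' := ⟨_, rfl⟩
  obtain ⟨b, hb⟩ : ∃ b, b = ph x f (-t) w' := ⟨_, rfl⟩
  rw [← ha] at h1'
  rw [← hb] at h2'
  have ha0 : 0 ≤ a := by rw [ha]; exact ph_nonneg hf _ _
  have hb0 : 0 ≤ b := by rw [hb]; exact ph_nonneg hf _ _
  have haM : a ≤ M := by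
    have := (abs_le.1 h1').2
    have := min_le_left 1 (ε / 8)
    linarith
  have hbM : b ≤ M := by
    have := (abs_le.1 h2').2
    have := min_le_left 1 (ε / 8)
    linarith
  have hfw' : |f w'| ≤ M := by
    have h4 := f.le_opNorm w'
    rw [hf.1, one_mul, Real.norm_eq_abs] at h4
    have h5 : ‖w'‖ ≤ ‖w‖ + 1 := by
      have := norm_sub_norm_le w' w
      linarith
    linarith
  have hfw : |f w| ≤ M := by
    have h4 := f.le_opNorm w
    rw [hf.1, one_mul, Real.norm_eq_abs] at h4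
    linarith
  have hff : |f w' ^ 2 - f w ^ 2| ≤ ε / 4 := by
    have h6 : f w' ^ 2 - f w ^ 2 = (f w' - f w) * (f w' + f w) := by ring
    have h7 := f.le_opNorm (w' - w)
    rw [hf.1, one_mul, Real.norm_eq_abs, map_sub] at h7
    rw [h6, abs_mul]
    calc |f w' - f w| * |f w' + f w| ≤ ε / (4 * (2 * M)) * (2 * M) := by
          gcongr
          · exact h7.trans hw3
          · exact (abs_add_le _ _).trans (by linarith)
      _ = ε / 4 := by field_simp
  rw [QS_eq (f := f) hx ht, ← ha, ← hb]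
  have hT1 : |t * f w' * (a - b)| ≤ ε / 8 := by
    have h8 : |a - b| ≤ M := by rw [abs_le]; constructor <;> linarith
    calc |t * f w' * (a - b)| = |t| * |f w'| * |a - b| := by rw [abs_mul, abs_mul]
      _ ≤ ε / (8 * (M * M)) * M * M := by gcongr
      _ = ε / 8 := by field_simp
  have hT2 : |t ^ 2 * (a ^ 2 + b ^ 2) / 2| ≤ ε / 8 := by
    have h9 : t ^ 2 ≤ |t| := by
      rw [← sq_abs]
      have := abs_nonneg t
      nlinarith
    have h10 : 0 ≤ t ^ 2 * (a ^ 2 + b ^ 2) / 2 := by positivity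
    rw [abs_of_nonneg h10]
    have h11 : a ^ 2 ≤ M * M := by nlinarith
    have h12 : b ^ 2 ≤ M * M := by nlinarith
    calc t ^ 2 * (a ^ 2 + b ^ 2) / 2 ≤ |t| * (M * M + M * M) / 2 := by gcongr
      _ = |t| * (M * M) := by ring
      _ ≤ ε / (8 * (M * M)) * (M * M) := by gcongr
      _ = ε / 8 := by field_simp
  have hab : |(a + b) - 2 * m| ≤ ε / 4 := by
    have h13 := min_le_right 1 (ε / 8)
    have h14 := abs_le.1 (h1'.trans h13)
    have h15 := abs_le.1 (h2'.trans h13)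
    rw [abs_le]
    constructor <;> linarith
  obtain ⟨f1, f2⟩ := abs_le.1 hff
  obtain ⟨g1, g2⟩ := abs_le.1 hT1
  obtain ⟨k1, k2⟩ := abs_le.1 hT2
  obtain ⟨l1, l2⟩ := abs_le.1 hab
  rw [abs_le]
  constructor <;> linarith

end Pool.Agent.Y278.Rot
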