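import Pool.Agent.Y278.Rot.HessCont

/-! # The field of Hessians of a transitive norm on a Hilbertian space -/

set_option autoImplicit false

namespace Pool.Agent.Y278.Rot

open Set Filter Topology Asymptotics

variable {E : Type} [NormedAddCommGroup E] [NormedSpace ℝ E]

lemma polar {A : E →L[ℝ] E →L[ℝ] ℝ} (hA : ∀ v w, A v w = A w v) (v w : E) :
    A v w = (A (v + w) (v + w) - A (v - w) (v - w)) / 4 := by
  simp only [map_add, map_sub, _root_.add_apply, _root_.sub_apply]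
  rw [hA w v]
  ring

/-- the data at a point -/
structure HessAt (x : E) (f : StrongDual ℝ E) (A : E →L[ℝ] E →L[ℝ] ℝ) (K : ℝ) : Prop where
  nm : Nm x f
  symm : ∀ v w, A v w = A w v
  lim : ∀ w, Tendsto (fun t => QS t x w) (𝓝[≠] 0) (𝓝 (A w w))
  expand : ∀ w, (fun t : ℝ => ‖x + t • w‖ ^ 2 - 1 - 2 * t * f w - t ^ 2 * A w w)
    =o[𝓝 0] fun t : ℝ => t ^ 2
  near : ∀ (w : E) (ε : ℝ), 0 < ε → ∃ κ : ℝ, 0 < κ ∧ ∀ᶠ t in 𝓝[≠] (0 : ℝ), ∀ w' : E,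
      ‖w' - w‖ ≤ κ → |QS t x w' - A w w| ≤ ε
  upper : ∀ w, A w w ≤ (1 + 2 * K) * ‖w‖ ^ 2

theorem exists_hessAt [CompleteSpace E] [TopologicalSpace.SeparableSpace E]
    (hG : ∀ x y : E, ‖x‖ = 1 → ‖y‖ = 1 → ∃ T : E ≃ₗᵢ[ℝ] E, T x = y) {K : ℝ} (hK0 : 0 < K)
    (hK : ∀ x w : E, ‖x‖ = 1 → ‖x + w‖ + ‖x - w‖ - 2 * ‖x‖ ≤ K * ‖w‖ ^ 2) {x : E}
    (hx : ‖x‖ = 1) : ∃ (f : StrongDual ℝ E) (A : E →L[ℝ] E →L[ℝ] ℝ), HessAt x f A K := by
  obtain ⟨f, B, hN, hBs, hB⟩ := form_all hG hK0 hK hx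
  obtain ⟨A, hA⟩ : ∃ A : E →L[ℝ] E →L[ℝ] ℝ, ∀ v w, A v w = f v * f w + 2 * B v w := by
    refine ⟨f.smulRight f + (2 : ℝ) • B, fun v w => ?_⟩
    rfl
  have hAw : ∀ w, A w w = f w ^ 2 + 2 * B w w := fun w => by rw [hA, sq]
  refine ⟨f, A, hN, fun v w => ?_, fun w => ?_, fun w => ?_, fun w ε hε => ?_, fun w => ?_⟩
  · rw [hA, hA, hBs, mul_comm (f v)]
  · rw [hAw]; exact QS_tendsto hx (hB w)
  · simp only [hAw]; exact sq_expand hx (hB w)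
  · rw [hAw]; exact QS_near hN hx hK0 hK (hB w) hε
  · rw [hAw]
    have h1 := Lm_le_of_Bd (hB w) (Bd_all hN hx hK0 hK w)
    rw [mul_pow, Real.sq_sqrt hK0.le] at h1
    have h2 := f.le_opNorm w
    rw [hN.1, one_mul, Real.norm_eq_abs] at h2
    have h3 : f w ^ 2 ≤ ‖w‖ ^ 2 := by
      rw [← sq_abs]
      gcongr
    linarith

lemma hess_lower {x : E} {f : StrongDual ℝ E} {A : E →L[ℝ] E →L[ℝ] ℝ} {K c : ℝ}
    (h : HessAt x f A K)
    (hc : ∀ x w : E, c * ‖w‖ ^ 2 ≤ ‖x + w‖ ^ 2 + ‖x - w‖ ^ 2 - 2 * ‖x‖ ^ 2) (w : E) :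
    c / 2 * ‖w‖ ^ 2 ≤ A w w := by
  refine ge_of_tendsto (h.lim w) ?_
  filter_upwards [self_mem_nhdsWithin] with t ht
  have ht : t ≠ 0 := ht
  unfold QS
  rw [le_div_iff₀ (by positivity)]
  have h1 := hc x (t • w)
  rw [norm_smul, mul_pow, Real.norm_eq_abs, sq_abs] at h1
  linarith

lemma hess_map {x : E} {f f' : StrongDual ℝ E} {A A' : E →L[ℝ] E →L[ℝ] ℝ} {K : ℝ}
    (h : HessAt x f A K) (T : E ≃ₗᵢ[ℝ] E) (h' : HessAt (T x) f' A' K) (v w : E) :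
    A' (T v) (T w) = A v w := by
  have key : ∀ w, A' (T w) (T w) = A w w := by
    intro w
    have h1 := h'.lim (T w)
    simp only [QS_map] at h1
    exact tendsto_nhds_unique h1 (h.lim w)
  rw [polar h'.symm, polar h.symm, ← map_add, ← map_sub, key, key]

lemma hess_cont [CompleteSpace E] [TopologicalSpace.SeparableSpace E]
    (hG : ∀ x y : E, ‖x‖ = 1 → ‖y‖ = 1 → ∃ T : E ≃ₗᵢ[ℝ] E, T x = y) {K : ℝ}
    {f : E → StrongDual ℝ E} {A : E → E →L[ℝ] E →L[ℝ] ℝ}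
    (h : ∀ x, ‖x‖ = 1 → HessAt x (f x) (A x) K) (w : E) :
    ContinuousOn (fun x => A x w w) {x | ‖x‖ = 1} := by
  intro x hx
  have hx : ‖x‖ = 1 := hx
  rw [ContinuousWithinAt, Metric.tendsto_nhdsWithin_nhds]
  intro ε hε
  obtain ⟨κ, hκ, hev⟩ := (h x hx).near w (ε / 2) (by positivity)
  obtain ⟨δ, hδ, hnear⟩ := Pool.H305R3.Rot.near_open hG (fun _ : Unit => w) x hx hκ
  refine ⟨δ, hδ, fun y hy hyx => ?_⟩
  have hy : ‖y‖ = 1 := hy
  rw [dist_eq_norm] at hyx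
  -- the quotients at `y`
  have h1 : ∀ᶠ t in 𝓝[≠] (0 : ℝ), |QS t y w - A x w w| ≤ ε / 2 := by
    filter_upwards [hev] with t ht
    refine le_of_forall_pos_le_add fun η hη => ?_
    -- continuity of the quotient at `y`
    obtain ⟨r, hr, hcont⟩ := Metric.continuous_iff.1 (QS_cont t w) y η hη
    obtain ⟨T, hT1, hT2⟩ := hnear y hy hyx.le (r / 2) (by positivity)
    have h2 := hcont (T x) (by rw [dist_eq_norm]; linarith)
    rw [Real.dist_eq] at h2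
    have h3 : QS t (T x) w = QS t x (T.symm w) := by
      rw [← QS_map T t x (T.symm w), T.apply_symm_apply]
    have h4 : ‖T.symm w - w‖ ≤ κ := by
      have h5 : T.symm w - w = T.symm (w - T w) := by rw [map_sub, T.symm_apply_apply]
      rw [h5, T.symm.norm_map, norm_sub_rev]
      exact hT2 ()
    have h6 := ht _ h4
    rw [← h3] at h6
    calc |QS t y w - A x w w| = |(QS t (T x) w - A x w w) - (QS t (T x) w - QS t y w)| := by
          ring_nf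
      _ ≤ |QS t (T x) w - A x w w| + |QS t (T x) w - QS t y w| := abs_sub _ _
      _ ≤ ε / 2 + η := by linarith
  have h7 : |A y w w - A x w w| ≤ ε / 2 :=
    le_of_tendsto (((h y hy).lim w).sub_const _).abs h1
  rw [Real.dist_eq]
  linarith

/-- **The field of Hessians.** -/
theorem hessian_field [CompleteSpace E] [TopologicalSpace.SeparableSpace E]
    {H : Type} [NormedAddCommGroup H] [InnerProductSpace ℝ H] (Φ : E ≃L[ℝ] H)
    (hG : ∀ x y : E, ‖x‖ = 1 → ‖y‖ = 1 → ∃ T : E ≃ₗᵢ[ℝ] E, T x = y) :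
    ∃ (c C : ℝ) (f : E → StrongDual ℝ E) (A : E → E →L[ℝ] E →L[ℝ] ℝ), 0 < c ∧
      (∀ x, ‖x‖ = 1 → (∀ v w, A x v w = A x w v) ∧
        (∀ w, c * ‖w‖ ^ 2 ≤ A x w w ∧ A x w w ≤ C * ‖w‖ ^ 2) ∧
        (∀ w, (fun t : ℝ => ‖x + t • w‖ ^ 2 - 1 - 2 * t * f x w - t ^ 2 * A x w w)
          =o[𝓝 0] fun t : ℝ => t ^ 2) ∧
        ∀ (T : E ≃ₗᵢ[ℝ] E) (v w : E), A (T x) (T v) (T w) = A x v w) ∧
      ∀ v w, ContinuousOn (fun x => A x v w) {x | ‖x‖ = 1} := by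
  obtain ⟨c, hc0, hc⟩ := two_convex hG Φ
  obtain ⟨K, hK0, hK⟩ := two_smooth hG Φ
  have hex : ∀ x : E, ∃ (f : StrongDual ℝ E) (A : E →L[ℝ] E →L[ℝ] ℝ),
      ‖x‖ = 1 → HessAt x f A K := by
    intro x
    by_cases hx : ‖x‖ = 1
    · obtain ⟨f, A, h⟩ := exists_hessAt hG hK0 hK hx
      exact ⟨f, A, fun _ => h⟩
    · exact ⟨0, 0, fun h => absurd h hx⟩
  choose f A h using hex
  refine ⟨c / 2, 1 + 2 * K, f, A, by positivity, fun x hx => ⟨(h x hx).symm, fun w =>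
    ⟨hess_lower (h x hx) hc w, (h x hx).upper w⟩, (h x hx).expand, fun T v w =>
    hess_map (h x hx) T (h (T x) (by rw [T.norm_map, hx])) v w⟩, fun v w => ?_⟩
  have h1 := ((hess_cont hG h (v + w)).sub (hess_cont hG h (v - w))).div_const 4
  refine h1.congr fun x hx => ?_
  exact polar (h x hx).symm v w

end Pool.Agent.Y278.Rot
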