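import Pool.Agent.Y278.Rot.Avg
import Pool.Agent.Y278.Rot.Coam

/-! # The unit sphere of a Hilbert space has an invariant mean -/

set_option autoImplicit false
set_option linter.style.haveILetI false

namespace Pool.Agent.Y278.Rot

open Set Filter Topology MeasureTheory

variable {H : Type} [NormedAddCommGroup H] [InnerProductSpace ℝ H]

/-- an isometry can be changed into one of finite type without changing given vectors -/
lemma exists_local (T : H ≃ₗᵢ[ℝ] H) {m : ℕ} (u : Fin m → H) :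
    ∃ (W : Submodule ℝ H) (S : H ≃ₗᵢ[ℝ] H), FiniteDimensional ℝ W ∧ (∀ i, S (u i) = T (u i)) ∧
      ∀ V : Submodule ℝ H, W ≤ V → ∀ v ∈ V, S v ∈ V := by
  obtain ⟨W1, hW1⟩ : ∃ W1, W1 = Submodule.span ℝ (range u) := ⟨_, rfl⟩
  obtain ⟨W, hW⟩ : ∃ W, W = W1 ⊔ W1.map (T.toLinearEquiv : H →ₗ[ℝ] H) := ⟨_, rfl⟩
  have f1 : FiniteDimensional ℝ W1 := by rw [hW1]; exact FiniteDimensional.span_of_finite ℝ (finite_range u)
  have f2 : FiniteDimensional ℝ (W1.map (T.toLinearEquiv : H →ₗ[ℝ] H)) := inferInstance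
  have fW : FiniteDimensional ℝ W := by rw [hW]; infer_instance
  have hle : W1 ≤ W := by rw [hW]; exact le_sup_left
  have hle2 : ∀ x ∈ W1, T x ∈ W := fun x hx => by
    rw [hW]; exact (le_sup_right : _ ≤ W1 ⊔ _) ⟨x, hx, rfl⟩
  -- the isometry on the subspace
  let U0 : Submodule ℝ W := W1.comap W.subtype
  let L : U0 →ₗᵢ[ℝ] W :=
    { toFun := fun x => ⟨T ((x : W) : H), hle2 _ x.2⟩
      map_add' := fun x y => by ext; simp
      map_smul' := fun c x => by ext; simp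
      norm_map' := fun x => by
        show ‖T ((x : W) : H)‖ = ‖((x : W) : H)‖
        exact T.norm_map _ }
  let L' : W →ₗᵢ[ℝ] W := L.extend
  have hL' : ∀ x : W, (x : H) ∈ W1 → (L' x : H) = T (x : H) := by
    intro x hx
    have h := L.extend_apply ⟨x, hx⟩
    show ((L.extend x : W) : H) = _
    rw [h]
    rfl
  let L2 : W ≃ₗᵢ[ℝ] W := L'.toLinearIsometryEquiv rfl
  have hL2 : ∀ x, L2 x = L' x := fun x => rfl
  let P : H →L[ℝ] W := W.orthogonalProjectionOnto
  have hPW : ∀ x : W, P (x : H) = x := fun x => W.orthogonalProjectionOnto_mem_subspace_eq_self x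
  have hPo : ∀ x : H, x - (P x : H) ∈ Wᗮ := fun x => W.sub_starProjection_mem_orthogonal x
  -- the linear map
  let S0 : H →ₗ[ℝ] H :=
    { toFun := fun x => (L2 (P x) : H) + (x - (P x : H))
      map_add' := fun x y => by
        simp only [map_add, Submodule.coe_add]
        abel
      map_smul' := fun c x => by
        simp only [map_smul, Submodule.coe_smul, RingHom.id_apply, smul_add, smul_sub] }
  have hS0 : ∀ x, S0 x = (L2 (P x) : H) + (x - (P x : H)) := fun x => rfl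
  have hnorm : ∀ x, ‖S0 x‖ = ‖x‖ := by
    intro x
    have h1 : ‖S0 x‖ * ‖S0 x‖ = ‖(L2 (P x) : H)‖ * ‖(L2 (P x) : H)‖
        + ‖x - (P x : H)‖ * ‖x - (P x : H)‖ := by
      rw [hS0]
      exact norm_add_sq_eq_norm_sq_add_norm_sq_of_inner_eq_zero _ _
        ((W.mem_orthogonal _).1 (hPo x) _ (L2 (P x)).2)
    have h2 : ‖x‖ * ‖x‖ = ‖(P x : H)‖ * ‖(P x : H)‖ + ‖x - (P x : H)‖ * ‖x - (P x : H)‖ := by
      have h3 : x = (P x : H) + (x - (P x : H)) := by abel
      have h4 := norm_add_sq_eq_norm_sq_add_norm_sq_of_inner_eq_zero (P x : H) (x - (P x : H))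
        ((W.mem_orthogonal _).1 (hPo x) _ (P x).2)
      rwa [← h3] at h4
    have h5 : ‖(L2 (P x) : H)‖ = ‖(P x : H)‖ := L2.norm_map (P x)
    rw [h5, ← h2] at h1
    nlinarith [norm_nonneg (S0 x), norm_nonneg x, mul_self_inj (norm_nonneg (S0 x)) (norm_nonneg x)]
  have hsurj : Function.Surjective S0 := by
    intro y
    refine ⟨(L2.symm (P y) : H) + (y - (P y : H)), ?_⟩
    have h1 : P ((L2.symm (P y) : H) + (y - (P y : H))) = L2.symm (P y) := by
      rw [map_add, hPW]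
      have h2 : P (y - (P y : H)) = 0 := by rw [map_sub, hPW, sub_self]
      rw [h2, add_zero]
    rw [hS0, h1, L2.apply_symm_apply]
    abel
  let S : H ≃ₗᵢ[ℝ] H := LinearIsometryEquiv.ofSurjective ⟨S0, hnorm⟩ hsurj
  have hS : ∀ x, S x = (L2 (P x) : H) + (x - (P x : H)) := fun x => rfl
  refine ⟨W, S, fW, fun i => ?_, fun V hV v hv => ?_⟩
  · have h1 : u i ∈ W1 := by rw [hW1]; exact Submodule.subset_span (mem_range_self i)
    have h2 : P (u i) = ⟨u i, hle h1⟩ := hPW ⟨u i, hle h1⟩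
    rw [hS, h2, hL2, hL' _ h1]
    simp
  · rw [hS]
    exact V.add_mem (hV (L2 (P v)).2) (V.sub_mem hv (hV (P v).2))

/-- finite dimensional subspaces -/
abbrev FDS (H : Type) [NormedAddCommGroup H] [InnerProductSpace ℝ H] : Type :=
  {V : Submodule ℝ H // FiniteDimensional ℝ V}

instance : IsDirectedOrder (FDS H) :=
  ⟨fun a b => by
    have := a.2
    have := b.2
    exact ⟨⟨a.1 ⊔ b.1, inferInstance⟩, (le_sup_left : a.1 ≤ a.1 ⊔ b.1),
      (le_sup_right : b.1 ≤ a.1 ⊔ b.1)⟩⟩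

instance : Nonempty (FDS H) := ⟨⟨⊥, inferInstance⟩⟩

/-- the average over the sphere of a finite dimensional subspace -/
noncomputable def avV (V : FDS H) (F : H → ℝ) : ℝ :=
  letI : MeasurableSpace V.1 := borel V.1
  haveI : BorelSpace V.1 := ⟨rfl⟩
  haveI := V.2
  avg fun x : V.1 => F x

lemma Cs_restrict {F : H → ℝ} (hF : Cs H F) (V : Submodule ℝ H) : Cs V (fun x : V => F x) := by
  obtain ⟨⟨C, hC⟩, hc⟩ := hF
  exact ⟨⟨C, fun x hx => hC x hx⟩, hc.comp continuous_subtype_val.continuousOn fun x hx => hx⟩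

lemma avV_add (V : FDS H) {F F' : H → ℝ} (hF : Cs H F) (hF' : Cs H F') :
    avV V (fun x => F x + F' x) = avV V F + avV V F' := by
  letI : MeasurableSpace V.1 := borel V.1
  haveI : BorelSpace V.1 := ⟨rfl⟩
  haveI := V.2
  exact avg_add (Cs_restrict hF V.1) (Cs_restrict hF' V.1)

lemma avV_smul (V : FDS H) (r : ℝ) (F : H → ℝ) : avV V (fun x => r * F x) = r * avV V F := by
  letI : MeasurableSpace V.1 := borel V.1
  haveI : BorelSpace V.1 := ⟨rfl⟩
  haveI := V.2
  exact avg_smul r _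

lemma avV_nonneg (V : FDS H) {F : H → ℝ} (hF : ∀ x, ‖x‖ = 1 → 0 ≤ F x) : 0 ≤ avV V F := by
  letI : MeasurableSpace V.1 := borel V.1
  haveI : BorelSpace V.1 := ⟨rfl⟩
  haveI := V.2
  exact avg_nonneg fun x hx => hF x hx

lemma avV_one (V : FDS H) (hV : Nontrivial V.1) : avV V (fun _ => 1) = 1 := by
  letI : MeasurableSpace V.1 := borel V.1
  haveI : BorelSpace V.1 := ⟨rfl⟩
  haveI := V.2
  exact avg_one

lemma avV_abs (V : FDS H) {F : H → ℝ} {C : ℝ} (hC : 0 ≤ C) (hF : ∀ x, ‖x‖ = 1 → |F x| ≤ C) :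
    |avV V F| ≤ C := by
  letI : MeasurableSpace V.1 := borel V.1
  haveI : BorelSpace V.1 := ⟨rfl⟩
  haveI := V.2
  exact avg_abs_le hC fun x hx => hF x hx

lemma avV_sub (V : FDS H) {F F' : H → ℝ} (hF : Cs H F) (hF' : Cs H F') {ε : ℝ} (hε : 0 ≤ ε)
    (h : ∀ x, ‖x‖ = 1 → |F x - F' x| ≤ ε) : |avV V F - avV V F'| ≤ ε := by
  letI : MeasurableSpace V.1 := borel V.1
  haveI : BorelSpace V.1 := ⟨rfl⟩
  haveI := V.2
  exact avg_sub_le (Cs_restrict hF V.1) (Cs_restrict hF' V.1) hε fun x hx => h x hx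

lemma avV_map (V : FDS H) (S : H ≃ₗᵢ[ℝ] H) (hS : ∀ v ∈ V.1, S v ∈ V.1) (F : H → ℝ) :
    avV V (fun x => F (S x)) = avV V F := by
  letI : MeasurableSpace V.1 := borel V.1
  haveI : BorelSpace V.1 := ⟨rfl⟩
  haveI := V.2
  let S0 : V.1 →ₗᵢ[ℝ] V.1 :=
    { toFun := fun x => ⟨S x, hS x x.2⟩
      map_add' := fun x y => by ext; simp
      map_smul' := fun c x => by ext; simp
      norm_map' := fun x => S.norm_map x }
  exact avg_map (S0.toLinearIsometryEquiv rfl) fun x : V.1 => F x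

lemma Cs_of_UCS {F : H → ℝ} (hF : UCS H F) : Cs H F := ⟨hF.1, hF.2.1⟩

lemma Cs_comp {F : H → ℝ} (hF : Cs H F) (T : H ≃ₗᵢ[ℝ] H) : Cs H (fun x => F (T x)) := by
  obtain ⟨⟨C, hC⟩, hc⟩ := hF
  refine ⟨⟨C, fun x hx => hC _ (by rw [T.norm_map, hx])⟩, ?_⟩
  exact hc.comp T.continuous.continuousOn fun x hx => by
    show ‖T x‖ = 1
    rw [T.norm_map]; exact hx

/-- **Invariant mean on the sphere of a Hilbert space.** -/
theorem sphereAmenable_of_hilbert [Nontrivial H] : SphereAmenable H := by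
  obtain ⟨𝒰, h𝒰⟩ : ∃ 𝒰 : Ultrafilter (FDS H), (𝒰 : Filter (FDS H)) ≤ atTop :=
    ⟨Ultrafilter.of atTop, Ultrafilter.of_le atTop⟩
  have hlim : ∀ F, Cs H F → ∃ l, Tendsto (fun V => avV V F) 𝒰 (𝓝 l) := by
    intro F hF
    obtain ⟨⟨C, hC⟩, -⟩ := hF
    have hC0 : 0 ≤ C := by
      obtain ⟨x, hx⟩ := exists_ne (0 : H)
      have := hC (‖x‖⁻¹ • x) (by
        rw [norm_smul, norm_inv, norm_norm, inv_mul_cancel₀ (norm_ne_zero_iff.2 hx)])
      exact (abs_nonneg _).trans this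
    have h1 : ((𝒰.map fun V => avV V F : Ultrafilter ℝ) : Filter ℝ) ≤ 𝓟 (Icc (-C) C) := by
      rw [Ultrafilter.coe_map, le_principal_iff, mem_map]
      exact univ_mem' fun V => abs_le.1 (avV_abs V hC0 hC)
    obtain ⟨l, -, hl⟩ := (isCompact_Icc).ultrafilter_le_nhds _ h1
    exact ⟨l, hl⟩
  let M : (H → ℝ) → ℝ := fun F => limUnder (𝒰 : Filter (FDS H)) fun V => avV V F
  have hM : ∀ F, Cs H F → Tendsto (fun V => avV V F) 𝒰 (𝓝 (M F)) := fun F hF =>
    tendsto_nhds_limUnder (hlim F hF)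
  have hCadd : ∀ F F', Cs H F → Cs H F' → Cs H fun x => F x + F' x := by
    rintro F F' ⟨⟨C, hC⟩, hc⟩ ⟨⟨C', hC'⟩, hc'⟩
    exact ⟨⟨C + C', fun x hx => (abs_add_le _ _).trans (add_le_add (hC x hx) (hC' x hx))⟩,
      hc.add hc'⟩
  have hCsmul : ∀ (r : ℝ) F, Cs H F → Cs H fun x => r * F x := by
    rintro r F ⟨⟨C, hC⟩, hc⟩
    exact ⟨⟨|r| * C, fun x hx => by rw [abs_mul]; gcongr; exact hC x hx⟩,
      continuousOn_const.mul hc⟩
  refine ⟨M, fun F F' hF hF' => ?_, fun r F hF => ?_, fun F hF h => ?_, ?_, fun T F hF => ?_⟩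
  · have hF := Cs_of_UCS hF
    have hF' := Cs_of_UCS hF'
    have h1 := hM _ (hCadd F F' hF hF')
    have h2 := (hM F hF).add (hM F' hF')
    refine tendsto_nhds_unique h1 (h2.congr fun V => ?_)
    exact (avV_add V hF hF').symm
  · have hF := Cs_of_UCS hF
    have h1 := hM _ (hCsmul r F hF)
    have h2 := (hM F hF).const_mul r
    refine tendsto_nhds_unique h1 (h2.congr fun V => ?_)
    exact (avV_smul V r F).symm
  · exact ge_of_tendsto' (hM F (Cs_of_UCS hF)) fun V => avV_nonneg V h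
  · have h1 := hM _ (Cs_of_UCS (UCS_const (E := H) 1))
    refine tendsto_nhds_unique h1 (tendsto_const_nhds.congr' ?_)
    obtain ⟨x, hx⟩ := exists_ne (0 : H)
    have h2 : ∀ᶠ V : FDS H in 𝒰, (⟨Submodule.span ℝ {x}, inferInstance⟩ : FDS H) ≤ V :=
      h𝒰 (Filter.eventually_ge_atTop _)
    filter_upwards [h2] with V hV
    refine (avV_one V ?_).symm
    have hxV : x ∈ V.1 := hV (Submodule.mem_span_singleton_self x)
    exact ⟨⟨x, hxV⟩, 0, fun h => hx (congrArg Subtype.val h)⟩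
  · have hFc := Cs_of_UCS hF
    have hFT := Cs_comp hFc T
    have h1 := ((hM _ hFT).sub (hM F hFc)).abs
    have h2 : ∀ ε : ℝ, 0 < ε → |M (fun x => F (T x)) - M F| ≤ ε := by
      intro ε hε
      obtain ⟨m, e, κ, hκ, h⟩ := hF.2.2 ε hε
      obtain ⟨W, S, hW, hSe, hSV⟩ := exists_local T fun i => T.symm (e i)
      refine le_of_tendsto h1 ?_
      have h3 : ∀ᶠ V : FDS H in 𝒰, (⟨W, hW⟩ : FDS H) ≤ V := h𝒰 (Filter.eventually_ge_atTop _)
      filter_upwards [h3] with V hV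
      rw [← avV_map V S (fun v hv => hSV V.1 hV v hv) F]
      refine avV_sub V hFT (Cs_comp hFc S) hε.le fun x hx => ?_
      have h4 := h (S.symm.trans T) (fun i => by
        show ‖T (S.symm (e i)) - e i‖ ≤ κ
        have h5 : S.symm (e i) = T.symm (e i) := by
          have := hSe i
          rw [T.apply_symm_apply] at this
          rw [← this, S.symm_apply_apply]
          rw [this]
        rw [h5, T.apply_symm_apply, sub_self, norm_zero]
        exact hκ.le) (S x) (by rw [S.norm_map, hx])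
      have h6 : (S.symm.trans T) (S x) = T x := by
        show T (S.symm (S x)) = _
        rw [S.symm_apply_apply]
      rwa [h6] at h4
    have h7 : |M (fun x => F (T x)) - M F| ≤ 0 := le_of_forall_pos_le_add fun ε hε => by
      rw [zero_add]; exact h2 ε hε
    have h8 := abs_nonpos_iff.1 h7
    linarith

end Pool.Agent.Y278.Rot
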