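import Pool.Agent.Y278.Rot.Rotund

/-! # A bounded form from countably many quadratic lower bounds -/

set_option autoImplicit false

namespace Pool.Agent.Y278.Rot

open Set Filter Topology

variable {E : Type} [NormedAddCommGroup E] [NormedSpace ℝ E]

/-- the lower form -/
def LowForm (x : E) : Prop :=
  ∃ (f : StrongDual ℝ E) (B : E →L[ℝ] E →L[ℝ] ℝ), ‖f‖ = 1 ∧ f x = 1 ∧ (∀ v w, B v w = B w v) ∧
    (∀ w, (∀ c : ℝ, w ≠ c • x) → 0 < B w w) ∧ ∀ w, ‖w‖ ≤ 1 → 1 + f w + B w w ≤ ‖x + w‖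

lemma sum_apply {u : ℕ → E →L[ℝ] E →L[ℝ] ℝ} (hsum : Summable u) (v w : E) :
    HasSum (fun n => u n v w) ((∑' n, u n) v w) := by
  have h1 := hsum.hasSum
  have h2 : HasSum (fun n => u n v) ((∑' n, u n) v) :=
    (ContinuousLinearMap.apply ℝ (E →L[ℝ] ℝ) v).hasSum h1
  exact (ContinuousLinearMap.apply ℝ ℝ w).hasSum h2

/-- weights -/
lemma exists_weight {q c N : ℝ} (hq : 0 < q) (hc : 0 < c) : ∃ a : ℝ, 0 < a ∧ a ≤ q * c ∧
    a * (N * N) ≤ q := by
  refine ⟨q * min c (1 / (N ^ 2 + 1)), mul_pos hq (lt_min hc (by positivity)), ?_, ?_⟩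
  · gcongr
    exact min_le_left _ _
  · have h1 : min c (1 / (N ^ 2 + 1)) ≤ 1 / (N ^ 2 + 1) := min_le_right _ _
    calc q * min c (1 / (N ^ 2 + 1)) * (N * N)
        ≤ q * (1 / (N ^ 2 + 1)) * (N * N) := by
          gcongr
          exact mul_self_nonneg N
      _ = q * (N ^ 2 / (N ^ 2 + 1)) := by ring
      _ ≤ q * 1 := by
          gcongr
          rw [div_le_one (by positivity)]
          linarith
      _ = _ := mul_one _

lemma exists_unit_weights : ∃ q : ℕ → ℝ, (∀ n, 0 < q n) ∧ HasSum q 1 := by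
  refine ⟨fun n => (1 / 2 : ℝ) * (1 / 2) ^ n, fun n => by positivity, ?_⟩
  have h1 := (hasSum_geometric_two).mul_left (1 / 2 : ℝ)
  have e : (1 / 2 : ℝ) * 2 = 1 := by norm_num
  rwa [e] at h1

lemma exists_rank_one (a : ℝ) (ha : 0 ≤ a) (κ : StrongDual ℝ E) {q : ℝ}
    (h : a * (‖κ‖ * ‖κ‖) ≤ q) :
    ∃ u : E →L[ℝ] E →L[ℝ] ℝ, ‖u‖ ≤ q ∧ ∀ v w, u v w = a * (κ v * κ w) := by
  refine ⟨(a • κ).smulRight κ, ?_, fun v w => ?_⟩
  · rw [ContinuousLinearMap.norm_smulRight_apply, norm_smul, Real.norm_of_nonneg ha, mul_assoc]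
    exact h
  · rw [ContinuousLinearMap.smulRight_apply]
    show (a * κ v) * κ w = _
    ring

lemma sum_form {f : StrongDual ℝ E} {x : E} (hf : ‖f‖ = 1) (hfx : f x = 1)
    (κ : ℕ → StrongDual ℝ E)
    (hκ : ∀ w, (∀ c : ℝ, w ≠ c • x) → ∃ n, κ n w ≠ 0)
    (h : ∀ n, ∃ c : ℝ, 0 < c ∧ ∀ w, ‖w‖ ≤ 1 → 1 + f w + c * (κ n w) ^ 2 ≤ ‖x + w‖) :
    LowForm x := by
  choose c hc h using h
  obtain ⟨q, hq0, hgeo⟩ := exists_unit_weights
  choose a ha0 hac han using fun n => exists_weight (q := q n) (c := c n) (N := ‖κ n‖) (hq0 n) (hc n)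
  choose u hun huv using fun n => exists_rank_one (a n) (ha0 n).le (κ n) (han n)
  have hq : Summable q := hgeo.summable
  have hsum : Summable u := Summable.of_norm_bounded (E := E →L[ℝ] E →L[ℝ] ℝ) hq hun
  obtain ⟨S, hS⟩ : ∃ S : E →L[ℝ] E →L[ℝ] ℝ, S = ∑' n, u n := ⟨_, rfl⟩
  have hval : ∀ v w, HasSum (fun n => a n * (κ n v * κ n w)) (S v w) := by
    intro v w
    have h3 := sum_apply hsum v w
    rw [← hS] at h3
    simpa only [huv] using h3
  refine ⟨f, S, hf, hfx, fun v w => ?_, fun w hw => ?_, fun w hw => ?_⟩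
  · have e : (fun n => a n * (κ n v * κ n w)) = fun n => a n * (κ n w * κ n v) := by
      funext n; ring
    have h1 := hval v w
    rw [e] at h1
    exact h1.unique (hval w v)
  · obtain ⟨n, hn⟩ := hκ w hw
    have h1 := hval w w
    have hnn : ∀ m, 0 ≤ a m * (κ m w * κ m w) := fun m =>
      mul_nonneg (ha0 m).le (mul_self_nonneg _)
    have h2 : a n * (κ n w * κ n w) ≤ S w w := le_hasSum h1 n fun m _ => hnn m
    have h3 : 0 < a n * (κ n w * κ n w) := mul_pos (ha0 n) (mul_self_pos.2 hn)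
    linarith
  · have h1 := hval w w
    have h2 : S w w ≤ 1 * (‖x + w‖ - 1 - f w) := by
      refine hasSum_le (fun n => ?_) h1 (hgeo.mul_right _)
      have h3 := h n w hw
      calc a n * (κ n w * κ n w)
          ≤ (q n * c n) * (κ n w * κ n w) :=
            mul_le_mul_of_nonneg_right (hac n) (mul_self_nonneg _)
        _ = q n * (c n * (κ n w) ^ 2) := by ring
        _ ≤ q n * (‖x + w‖ - 1 - f w) :=
            mul_le_mul_of_nonneg_left (by linarith) (hq0 n).le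
    linarith

lemma LowForm_map {x : E} (h : LowForm x) (T : E ≃ₗᵢ[ℝ] E) : LowForm (T x) := by
  obtain ⟨f, B, hf, hfx, hs, hp, hl⟩ := h
  have hfn : ‖f.comp (T.symm.toContinuousLinearEquiv : E →L[ℝ] E)‖ = 1 := by
    rw [← hf]
    apply le_antisymm
    · refine ContinuousLinearMap.opNorm_le_bound _ (norm_nonneg _) fun w => ?_
      show ‖f (T.symm w)‖ ≤ _
      refine (f.le_opNorm _).trans (le_of_eq ?_)
      rw [T.symm.norm_map]
    · refine ContinuousLinearMap.opNorm_le_bound _ (norm_nonneg _) fun w => ?_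
      have h1 := (f.comp (T.symm.toContinuousLinearEquiv : E →L[ℝ] E)).le_opNorm (T w)
      have h2 : (f.comp (T.symm.toContinuousLinearEquiv : E →L[ℝ] E)) (T w) = f w := by
        show f (T.symm (T w)) = f w
        rw [T.symm_apply_apply]
      rw [h2, T.norm_map] at h1
      exact h1
  refine ⟨f.comp (T.symm.toContinuousLinearEquiv : E →L[ℝ] E),
    B.bilinearComp (T.symm.toContinuousLinearEquiv : E →L[ℝ] E)
      (T.symm.toContinuousLinearEquiv : E →L[ℝ] E), hfn, ?_, fun v w => ?_, fun w hw => ?_,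
    fun w hw => ?_⟩
  · show f (T.symm (T x)) = 1
    rw [T.symm_apply_apply, hfx]
  · show B (T.symm v) (T.symm w) = B (T.symm w) (T.symm v)
    exact hs _ _
  · show 0 < B (T.symm w) (T.symm w)
    refine hp _ fun c hc => hw c ?_
    have := congrArg T hc
    rwa [T.apply_symm_apply, map_smul] at this
  · show 1 + f (T.symm w) + B (T.symm w) (T.symm w) ≤ _
    have h1 := hl (T.symm w) (by rw [T.symm.norm_map]; exact hw)
    have h2 : ‖x + T.symm w‖ = ‖T x + w‖ := by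
      rw [← T.norm_map (x + T.symm w), map_add, T.apply_symm_apply]
    rw [h2] at h1
    exact h1

/-- **Quadratic lower bounds at every point.** -/
theorem low_form [CompleteSpace E] [TopologicalSpace.SeparableSpace E]
    (hrefl : Function.Surjective (NormedSpace.inclusionInDoubleDual ℝ E))
    (hG : ∀ x y : E, ‖x‖ = 1 → ‖y‖ = 1 → ∃ T : E ≃ₗᵢ[ℝ] E, T x = y) {x : E} (hx : ‖x‖ = 1) :
    LowForm x := by
  obtain ⟨g, hg⟩ := exists_separating (E := E)
  have hx0 : x ≠ 0 := by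
    intro h
    rw [h, norm_zero] at hx
    norm_num at hx
  obtain ⟨f0, hf0, -⟩ := exists_dual_vector ℝ x (norm_ne_zero_iff.2 hx0)
  obtain ⟨Z, Φ, V, B, hZ, hN, hgV, -, hE⟩ := exists_expand (E := StrongDual ℝ E) g hf0
  have hZ0 : 0 < ‖Z‖ := by linarith
  obtain ⟨x1, hx1⟩ := hrefl Φ
  have hΦ : ∀ g, Φ g = g x1 := fun g => by rw [← hx1]; exact NormedSpace.dual_def ℝ E x1 g
  have hx1n : ‖x1‖ = 1 := by
    rw [← (NormedSpace.inclusionInDoubleDualLi (E := E) ℝ).norm_map x1]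
    show ‖NormedSpace.inclusionInDoubleDual ℝ E x1‖ = 1
    rw [hx1, hN.1]
  have hZx1 : Z x1 = ‖Z‖ := by rw [← hΦ, hN.2]
  obtain ⟨T, hT⟩ := hG x1 x hx1n hx
  rw [← hT]
  refine LowForm_map ?_ T
  obtain ⟨f, hf⟩ : ∃ f : StrongDual ℝ E, ∀ w, f w = Z w / ‖Z‖ :=
    ⟨‖Z‖⁻¹ • Z, fun w => by
      show ‖Z‖⁻¹ * Z w = _
      rw [div_eq_inv_mul]⟩
  have hfe : f = ‖Z‖⁻¹ • Z := by
    ext w
    rw [hf]
    show _ = ‖Z‖⁻¹ * Z w
    rw [div_eq_inv_mul]
  have hfn : ‖f‖ = 1 := by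
    rw [hfe, norm_smul, norm_inv, norm_norm, inv_mul_cancel₀ hZ0.ne']
  have hfx : f x1 = 1 := by rw [hf, hZx1, div_self hZ0.ne']
  have hκ : ∀ n, ∃ κ : StrongDual ℝ E, ∀ w, κ w = g n w - Z w / ‖Z‖ * g n x1 := by
    intro n
    refine ⟨g n - g n x1 • f, fun w => ?_⟩
    show g n w - g n x1 * f w = _
    rw [hf, mul_comm]
  choose κ hκ using hκ
  refine sum_form hfn hfx κ (fun w hw => ?_) fun n => ?_
  · have h1 : w - f w • x1 ≠ 0 := fun h0 => hw (f w) (sub_eq_zero.1 h0)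
    obtain ⟨n, hn⟩ := hg _ h1
    refine ⟨n, ?_⟩
    rw [hκ, ← hf]
    rwa [map_sub, map_smul, smul_eq_mul] at hn
  · obtain ⟨c, hc, h⟩ := lower_ball hN hZ0 hx1n hΦ (hE ⟨g n, hgV n⟩)
    refine ⟨c, hc, fun w hw => ?_⟩
    rw [hf, hκ]
    exact h w hw

end Pool.Agent.Y278.Rot
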