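import Pool.Agent.Y278.Rot.Unif

/-! # Second order expansions of separable norms and of transitive norms -/

set_option autoImplicit false

namespace Pool.Agent.Y278.Rot

open Set Filter Topology Asymptotics

variable {E : Type} [NormedAddCommGroup E] [NormedSpace ℝ E]

/-- rational combinations of a sequence -/
noncomputable def comb (y : ℕ → E) (r : ℕ →₀ ℚ) : E :=
  Finsupp.linearCombination ℝ y (Finsupp.mapRange (fun q : ℚ => (q : ℝ)) Rat.cast_zero r)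

lemma comb_zero (y : ℕ → E) : comb y 0 = 0 := by
  unfold comb
  rw [Finsupp.mapRange_zero, map_zero]

lemma comb_add (y : ℕ → E) (r s : ℕ →₀ ℚ) : comb y (r + s) = comb y r + comb y s := by
  unfold comb
  rw [Finsupp.mapRange_add Rat.cast_add, map_add]

lemma comb_sub (y : ℕ → E) (r s : ℕ →₀ ℚ) : comb y (r - s) = comb y r - comb y s := by
  unfold comb
  rw [Finsupp.mapRange_sub Rat.cast_sub, map_sub]

lemma comb_smul (y : ℕ → E) (q : ℚ) (r : ℕ →₀ ℚ) : comb y (q • r) = (q : ℝ) • comb y r := by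
  unfold comb
  rw [← map_smul]
  congr 1
  ext i
  simp

lemma comb_single (y : ℕ → E) (i : ℕ) : comb y (Finsupp.single i 1) = y i := by
  unfold comb
  rw [Finsupp.mapRange_single, Finsupp.linearCombination_single, Rat.cast_one, one_smul]

lemma fam_comb (y : ℕ → E) : Fam (comb y) where
  add k l := ⟨k + l, comb_add y k l⟩
  sub k l := ⟨k - l, comb_sub y k l⟩
  rat q k := ⟨q • k, comb_smul y q k⟩
  zero := ⟨0, comb_zero y⟩

/-- the data of a second order expansion at `x` along the subspace `V` -/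
def Expand (x : E) (f : StrongDual ℝ E) (V : Submodule ℝ E) (B : V →ₗ[ℝ] V →ₗ[ℝ] ℝ) : Prop :=
  (∀ v w, B v w = B w v) ∧ ∀ w : V, Lm x f (w : E) (B w w)

/-- a point, close to a given one, with a second order expansion along a given sequence -/
theorem exists_expand [CompleteSpace E] (y : ℕ → E) {z0 : E} (hz0 : ‖z0‖ = 1) :
    ∃ (z : E) (f : StrongDual ℝ E) (V : Submodule ℝ E) (B : V →ₗ[ℝ] V →ₗ[ℝ] ℝ),
      1 / 2 ≤ ‖z‖ ∧ Nm z f ∧ (∀ n, y n ∈ V) ∧ Expand z f V B := by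
  obtain ⟨z, hz, hSO, hTE⟩ := exists_good (comb y) z0
  have hz1 : 1 / 2 ≤ ‖z‖ := by
    have h1 := norm_sub_norm_le z0 z
    rw [norm_sub_rev] at h1
    linarith
  have hz0 : z ≠ 0 := by
    intro h
    rw [h, norm_zero] at hz1
    norm_num at hz1
  obtain ⟨f, hf1, hf2⟩ := exists_dual_vector ℝ z (norm_ne_zero_iff.2 hz0)
  have hf : Nm z f := ⟨hf1, by rw [hf2]; simp⟩
  have hL : ∀ k, ∃ m, Lm z f (comb y k) m := fun k => Lm_of_SO hf (hSO k)
  obtain ⟨B, hBs, hB⟩ := form_at hf (fam_comb y) (fun k => Bd_of_Lm hf (hL k).choose_spec) hL hTE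
  exact ⟨z, f, _, B, hz1, hf, fun n => Submodule.subset_span ⟨Finsupp.single n 1, comb_single y n⟩,
    hBs, hB⟩

/-- transport by an isometry and a homothety -/
lemma Lm_transport {z : E} {f : StrongDual ℝ E} {w : E} {m : ℝ} (hz : 0 < ‖z‖) (h : Lm z f w m)
    (T : E ≃ₗᵢ[ℝ] E) : Lm (T (‖z‖⁻¹ • z)) (f.comp (T.symm.toContinuousLinearEquiv : E →L[ℝ] E))
      (T w) (‖z‖ * m) := by
  unfold Lm at *
  have h1 := (h.comp (tendsto_mul_ne hz.ne')).const_mul ‖z‖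
  refine h1.congr' ?_
  filter_upwards [self_mem_nhdsWithin] with t ht
  have ht : t ≠ 0 := ht
  show ‖z‖ * ph z f (‖z‖ * t) w = _
  unfold ph
  have e1 : ‖T (‖z‖⁻¹ • z) + t • T w‖ = ‖z‖⁻¹ * ‖z + (‖z‖ * t) • w‖ := by
    rw [← map_smul, ← map_add, T.norm_map]
    have : ‖z‖⁻¹ • z + t • w = ‖z‖⁻¹ • (z + (‖z‖ * t) • w) := by
      rw [smul_add, smul_smul, ← mul_assoc, inv_mul_cancel₀ hz.ne', one_mul]
    rw [this, norm_smul, norm_inv, norm_norm]
  have e2 : ‖T (‖z‖⁻¹ • z)‖ = 1 := by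
    rw [T.norm_map, norm_smul, norm_inv, norm_norm, inv_mul_cancel₀ hz.ne']
  have e3 : (f.comp (T.symm.toContinuousLinearEquiv : E →L[ℝ] E)) (T w) = f w := by
    show f (T.symm (T w)) = f w
    rw [T.symm_apply_apply]
  rw [e1, e2, e3]
  field_simp

lemma Nm_transport {z : E} {f : StrongDual ℝ E} (_hz : 0 < ‖z‖) (h : Nm z f)
    (T : E ≃ₗᵢ[ℝ] E) :
    Nm (T (‖z‖⁻¹ • z)) (f.comp (T.symm.toContinuousLinearEquiv : E →L[ℝ] E)) := by
  constructor
  · rw [← h.1]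
    apply le_antisymm
    · refine ContinuousLinearMap.opNorm_le_bound _ (norm_nonneg _) fun w => ?_
      show ‖f (T.symm w)‖ ≤ _
      refine (f.le_opNorm _).trans (le_of_eq ?_)
      rw [T.symm.norm_map]
    · refine ContinuousLinearMap.opNorm_le_bound _ (norm_nonneg _) fun w => ?_
      have h1 := (f.comp (T.symm.toContinuousLinearEquiv : E →L[ℝ] E)).le_opNorm (T w)
      have h2 : (f.comp (T.symm.toContinuousLinearEquiv : E →L[ℝ] E)) (T w) = f w := by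
        show f (T.symm (T w)) = f w
        rw [T.symm_apply_apply]
      rw [h2, T.norm_map] at h1
      exact h1
  · show f (T.symm (T (‖z‖⁻¹ • z))) = _
    rw [T.symm_apply_apply, map_smul, h.2, T.norm_map, norm_smul, norm_inv, norm_norm, smul_eq_mul]

lemma Expand_transport {z : E} {f : StrongDual ℝ E} {V : Submodule ℝ E}
    {B : V →ₗ[ℝ] V →ₗ[ℝ] ℝ} (hz : 0 < ‖z‖) (h : Expand z f V B) (T : E ≃ₗᵢ[ℝ] E) :
    ∃ B' : V.map (T.toLinearEquiv : E →ₗ[ℝ] E) →ₗ[ℝ] V.map (T.toLinearEquiv : E →ₗ[ℝ] E) →ₗ[ℝ] ℝ,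
      Expand (T (‖z‖⁻¹ • z)) (f.comp (T.symm.toContinuousLinearEquiv : E →L[ℝ] E))
        (V.map (T.toLinearEquiv : E →ₗ[ℝ] E)) B' := by
  let S : V.map (T.toLinearEquiv : E →ₗ[ℝ] E) ≃ₗ[ℝ] V := (T.toLinearEquiv.submoduleMap V).symm
  refine ⟨‖z‖ • (B.compl₁₂ (S : V.map (T.toLinearEquiv : E →ₗ[ℝ] E) →ₗ[ℝ] V)
    (S : V.map (T.toLinearEquiv : E →ₗ[ℝ] E) →ₗ[ℝ] V)), fun v w => ?_, fun w => ?_⟩
  · simp only [LinearMap.smul_apply, LinearMap.compl₁₂_apply]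
    rw [h.1]
  · obtain ⟨u, rfl⟩ := (T.toLinearEquiv.submoduleMap V).surjective w
    have h1 := Lm_transport hz (h.2 u) T
    simp only [LinearMap.smul_apply, LinearMap.compl₁₂_apply, LinearEquiv.coe_coe]
    have e : S (T.toLinearEquiv.submoduleMap V u) = u := LinearEquiv.symm_apply_apply _ _
    rw [e]
    exact h1

/-- **Main theorem for transitive norms.** -/
theorem transitive_expand [CompleteSpace E]
    (hG : ∀ x y : E, ‖x‖ = 1 → ‖y‖ = 1 → ∃ T : E ≃ₗᵢ[ℝ] E, T x = y)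
    (y : ℕ → E) {x : E} (hx : ‖x‖ = 1) :
    ∃ (T : E ≃ₗᵢ[ℝ] E) (f : StrongDual ℝ E) (V : Submodule ℝ E) (B : V →ₗ[ℝ] V →ₗ[ℝ] ℝ),
      Nm x f ∧ (∀ n, T (y n) ∈ V) ∧ Expand x f V B := by
  obtain ⟨z, f, V, B, hz, hf, hy, hE⟩ := exists_expand y hx
  have hz0 : 0 < ‖z‖ := by linarith
  obtain ⟨T, hT⟩ := hG (‖z‖⁻¹ • z) x (by
    rw [norm_smul, norm_inv, norm_norm, inv_mul_cancel₀ hz0.ne']) hx
  obtain ⟨B', hB'⟩ := Expand_transport hz0 hE T
  have hN := Nm_transport hz0 hf T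
  rw [hT] at hB' hN
  exact ⟨T, _, _, B', hN, fun n => ⟨y n, hy n, rfl⟩, hB'⟩

end Pool.Agent.Y278.Rot
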