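import Mathlib

/-!
# Second order expansions of convex functions of one variable

A convex function on the line has a second order Taylor expansion at almost every point.
-/

set_option autoImplicit false

namespace Pool.Agent.Y278.Rot

open Set Filter Topology MeasureTheory

/-- The function `φ` has a second order Taylor expansion at `s`. -/
def SO (φ : ℝ → ℝ) (s : ℝ) : Prop :=
  ∃ a m : ℝ, Tendsto (fun t : ℝ => (φ (s + t) - φ s - a * t) / t ^ 2) (𝓝[≠] 0) (𝓝 m)

theorem ae_SO {φ : ℝ → ℝ} (hφ : ConvexOn ℝ univ φ) : ∀ᵐ s : ℝ, SO φ s := by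
  set g : ℝ → ℝ := fun x => derivWithin φ (Ioi x) x with hg
  have hmono : Monotone g := by
    have h := hφ.monotoneOn_rightDeriv
    rw [interior_univ] at h
    exact monotoneOn_univ.1 h
  have hder : ∀ x, HasDerivWithinAt φ (g x) (Ioi x) x := fun x =>
    hφ.hasDerivWithinAt_rightDeriv_of_mem_interior (by simp)
  have hcont : Continuous φ := continuousOn_univ.1 (hφ.continuousOn isOpen_univ)
  have hint : ∀ s t, ∫ u in s..(s+t), g u = φ (s + t) - φ s := by
    intro s t
    exact intervalIntegral.integral_eq_sub_of_hasDeriv_right hcont.continuousOn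
      (fun x _ => hder x) hmono.intervalIntegrable
  filter_upwards [hmono.ae_differentiableAt] with s hs
  set m := deriv g s with hm0
  have hm : HasDerivAt g m s := hs.hasDerivAt
  refine ⟨g s, m / 2, ?_⟩
  rw [Metric.tendsto_nhdsWithin_nhds]
  intro ε hε
  rw [hasDerivAt_iff_isLittleO, Asymptotics.isLittleO_iff] at hm
  have h1 := hm (show 0 < ε / 2 by positivity)
  rw [Metric.eventually_nhds_iff] at h1
  obtain ⟨δ, hδ, h1⟩ := h1
  refine ⟨δ, hδ, fun t ht htδ => ?_⟩
  have ht0 : t ≠ 0 := ht
  rw [dist_zero_right, Real.norm_eq_abs] at htδ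
  have h2 : ∫ u in s..(s+t), (g u - g s - m * (u - s))
      = φ (s + t) - φ s - g s * t - m / 2 * t ^ 2 := by
    have e1 : IntervalIntegrable g volume s (s + t) := hmono.intervalIntegrable
    have e2 : IntervalIntegrable (fun _ : ℝ => g s) volume s (s + t) := by simp
    have e3 : IntervalIntegrable (fun u : ℝ => m * (u - s)) volume s (s + t) :=
      (by fun_prop : Continuous fun u : ℝ => m * (u - s)).intervalIntegrable _ _
    rw [intervalIntegral.integral_sub (e1.sub e2) e3, intervalIntegral.integral_sub e1 e2, hint]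
    have e4 : ∫ u in s..(s+t), m * (u - s) = m / 2 * t ^ 2 := by
      rw [intervalIntegral.integral_const_mul, intervalIntegral.integral_sub (by simp) (by simp)]
      simp
      ring
    rw [e4]
    simp
    ring
  have h3 : ‖∫ u in s..(s+t), (g u - g s - m * (u - s))‖ ≤ (ε / 2 * |t|) * |(s + t) - s| := by
    apply intervalIntegral.norm_integral_le_of_norm_le_const
    intro u hu
    have hu2 : |u - s| ≤ |t| := by
      rcases le_total 0 t with h | h
      · rw [uIoc_of_le (by linarith)] at hu
        rw [abs_of_pos (by linarith [hu.1]), abs_of_nonneg h]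
        linarith [hu.2]
      · rw [uIoc_of_ge (by linarith)] at hu
        rw [abs_of_nonpos (by linarith [hu.2]), abs_of_nonpos h]
        linarith [hu.1]
    have h4 := h1 (y := u) (by rw [Real.dist_eq]; linarith)
    simp only [smul_eq_mul, Real.norm_eq_abs] at h4
    rw [Real.norm_eq_abs]
    calc |g u - g s - m * (u - s)| = |g u - g s - (u - s) * m| := by rw [mul_comm m]
      _ ≤ ε / 2 * |u - s| := h4
      _ ≤ _ := by gcongr
  rw [h2, add_sub_cancel_left, Real.norm_eq_abs] at h3
  rw [Real.dist_eq]
  have ht2 : 0 < t ^ 2 := by positivity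
  have h5 : (φ (s + t) - φ s - g s * t) / t ^ 2 - m / 2
      = (φ (s + t) - φ s - g s * t - m / 2 * t ^ 2) / t ^ 2 := by
    field_simp
  rw [h5, abs_div, abs_of_pos ht2, div_lt_iff₀ ht2]
  have h6 : ε / 2 * |t| * |t| = ε / 2 * t ^ 2 := by rw [mul_assoc, ← sq, sq_abs]
  rw [h6] at h3
  have : 0 < ε / 2 * t ^ 2 := by positivity
  linarith

end Pool.Agent.Y278.Rot
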