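import Pool.Agent.Y278.Rot.Span
import Pool.Agent.Y278.Rot.Form
import Pool.Agent.Y278.Rot.Good

/-! # The second order form at a good point -/

set_option autoImplicit false

namespace Pool.Agent.Y278.Rot

open Set Filter Topology

variable {E : Type} [NormedAddCommGroup E] [NormedSpace ℝ E]
variable {z : E} {f : StrongDual ℝ E} {ι : Type} {v : ι → E}

lemma Lm_unique {w : E} {m m' : ℝ} (h : Lm z f w m) (h' : Lm z f w m') : m = m' :=
  tendsto_nhds_unique h h'

lemma dq_eq_ph (w : E) (t : ℝ) : dq (fun x : E => ‖x‖) w t z = ph z f t w + ph z f (-t) w := by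
  unfold dq ph
  rw [neg_sq, ← add_div, neg_smul, ← sub_eq_add_neg]
  congr 1
  ring

lemma dq_tendsto {w : E} {m : ℝ} (h : Lm z f w m) :
    Tendsto (fun n => dq (fun x : E => ‖x‖) w (hn n) z) atTop (𝓝 (2 * m)) := by
  have h1 : Tendsto (fun n => ph z f (hn n) w) atTop (𝓝 m) := h.comp hn_tendsto'
  have h2 : Tendsto (fun n => ph z f (-1 * hn n) w) atTop (𝓝 m) :=
    h.comp ((tendsto_mul_ne (by norm_num)).comp hn_tendsto')
  have h3 := h1.add h2
  rw [← two_mul] at h3
  refine h3.congr fun n => ?_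
  rw [dq_eq_ph (f := f), neg_one_mul]

/-- the parallelogram law on the family -/
lemma par_fam {k l : ι}
    (hT : k ≠ l → Tendsto (fun n => TE (v k) (v l) n z) atTop (𝓝 0)) {a b c d : ℝ}
    (ha : Lm z f (v k) a) (hb : Lm z f (v l) b) (hc : Lm z f (v k + v l) c)
    (hd : Lm z f (v k - v l) d) : c + d = 2 * a + 2 * b := by
  rcases eq_or_ne k l with rfl | hkl
  · have h1 : b = a := Lm_unique hb ha
    have h2 : d = 0 := by
      rw [sub_self] at hd
      have : Lm z f (0 : E) 0 := by
        have h := Lm_smul ha 0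
        rwa [zero_smul, zero_pow two_ne_zero, zero_mul] at h
      exact Lm_unique hd this
    have h3 : c = 2 ^ 2 * a := by
      have h := Lm_smul ha 2
      rw [two_smul] at h
      exact Lm_unique hc h
    rw [h1, h2, h3]
    ring
  · have h1 := (((dq_tendsto hc).add (dq_tendsto hd)).sub ((dq_tendsto ha).const_mul 2)).sub
      ((dq_tendsto hb).const_mul 2)
    have h2 := tendsto_nhds_unique h1 (hT hkl)
    linarith

section

variable (hf : Nm z f) (hF : Fam v) (hB : ∀ k, ∃ C : ℝ, 0 < C ∧ Bd z f (v k) C)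
  (hL : ∀ k, ∃ m, Lm z f (v k) m)
  (hT : ∀ k l, k ≠ l → Tendsto (fun n => TE (v k) (v l) n z) atTop (𝓝 0))

include hf hF hB hL hT in
/-- **The second order form.** -/
theorem form_at : ∃ B : Submodule.span ℝ (range v) →ₗ[ℝ] Submodule.span ℝ (range v) →ₗ[ℝ] ℝ,
    (∀ x y, B x y = B y x) ∧ ∀ x : Submodule.span ℝ (range v), Lm z f (x : E) (B x x) := by
  have hex : ∀ x : Submodule.span ℝ (range v), ∃ m, Lm z f (x : E) m := fun x =>
    ex_Lm hf hF hB hL x.2
  choose q hq using hex
  have h0 : ∀ x, 0 ≤ q x := fun x => Lm_nonneg hf (hq x)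
  have hs : ∀ (c : ℝ) x, q (c • x) = c ^ 2 * q x := fun c x =>
    Lm_unique (hq (c • x)) (by
      have h := Lm_smul (hq x) c
      rwa [← Submodule.coe_smul] at h)
  have ht : ∀ x y, √(q (x + y)) ≤ √(q x) + √(q y) := fun x y =>
    Lm_add_le hf (hq x) (hq y) (by
      have h := hq (x + y)
      rwa [Submodule.coe_add] at h)
  have hlip := sqrt_sub_le hs ht
  -- convergence
  have conv : ∀ (w : Submodule.span ℝ (range v)) (u : ℕ → Submodule.span ℝ (range v)) (c : ℝ),
      (∀ n, Bd z f ((w : E) - (u n : E)) (c * hn n)) → Tendsto (fun n => q (u n)) atTop (𝓝 (q w)) := by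
    intro w u c h
    have h1 : Tendsto (fun n => √(q (u n))) atTop (𝓝 √(q w)) := by
      rw [tendsto_iff_dist_tendsto_zero]
      have h2 : Tendsto (fun n => |c * hn n|) atTop (𝓝 0) := by
        have := (hn_tendsto.const_mul c).abs
        rwa [mul_zero, abs_zero] at this
      refine squeeze_zero (fun n => dist_nonneg) (fun n => ?_) h2
      rw [dist_comm, Real.dist_eq]
      refine (hlip w (u n)).trans ?_
      rw [← Real.sqrt_sq_eq_abs]
      apply Real.sqrt_le_sqrt
      have h3 := hq (w - u n)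
      rw [Submodule.coe_sub] at h3
      exact Lm_le_of_Bd h3 (h n)
    have h2 := h1.pow 2
    rw [Real.sq_sqrt (h0 w)] at h2
    exact h2.congr fun n => Real.sq_sqrt (h0 _)
  have hp : ∀ x y, q (x + y) + q (x - y) = 2 * q x + 2 * q y := by
    intro x y
    have hk : ∀ n, ∃ k, Bd z f ((x : E) - v k) (hn n) := fun n => approx hF hB x.2 _ (hn_pos n)
    have hl : ∀ n, ∃ k, Bd z f ((y : E) - v k) (hn n) := fun n => approx hF hB y.2 _ (hn_pos n)
    choose k hk using hk
    choose l hl using hl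
    have hmem : ∀ k, v k ∈ Submodule.span ℝ (range v) := fun k =>
      Submodule.subset_span (mem_range_self k)
    let U : ι → Submodule.span ℝ (range v) := fun k => ⟨v k, hmem k⟩
    have c1 := conv x (fun n => U (k n)) 1 (fun n => by rw [one_mul]; exact hk n)
    have c2 := conv y (fun n => U (l n)) 1 (fun n => by rw [one_mul]; exact hl n)
    have c3 := conv (x + y) (fun n => U (k n) + U (l n)) 2 (fun n => by
      rw [Submodule.coe_add, Submodule.coe_add]
      have h := Bd_add (hk n) (hl n) (hn_pos n) (hn_pos n)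
      rw [← two_mul] at h
      have e : (x : E) + y - ((U (k n) : E) + (U (l n) : E)) = (x - v (k n)) + (y - v (l n)) := by
        show (x : E) + y - (v (k n) + v (l n)) = _
        abel
      rw [e]
      exact h)
    have c4 := conv (x - y) (fun n => U (k n) - U (l n)) 2 (fun n => by
      rw [Submodule.coe_sub, Submodule.coe_sub]
      have h := Bd_add (hk n) (Bd_neg (hl n)) (hn_pos n) (hn_pos n)
      rw [← two_mul] at h
      have e : (x : E) - y - ((U (k n) : E) - (U (l n) : E)) = (x - v (k n)) + -(y - v (l n)) := by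
        show (x : E) - y - (v (k n) - v (l n)) = _
        abel
      rw [e]
      exact h)
    have h1 := c3.add c4
    have h2 := (c1.const_mul 2).add (c2.const_mul 2)
    refine tendsto_nhds_unique h1 (h2.congr fun n => ?_)
    refine (par_fam (k := k n) (l := l n) (hT _ _) (hq (U (k n))) (hq (U (l n))) ?_ ?_).symm
    · have h := hq (U (k n) + U (l n))
      rwa [Submodule.coe_add] at h
    · have h := hq (U (k n) - U (l n))
      rwa [Submodule.coe_sub] at h
  obtain ⟨B, hBs, hBq⟩ := exists_form h0 hs ht hp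
  exact ⟨B, hBs, fun x => by rw [hBq]; exact hq x⟩

end

/-! ### from expansions to limits -/

lemma Lm_of_SO (hf : Nm z f) {w : E} (h : SO (fun t : ℝ => ‖z + t • w‖) 0) :
    ∃ m, Lm z f w m := by
  obtain ⟨a, m, h⟩ := h
  have hd : HasDerivAt (fun t : ℝ => ‖z + t • w‖) a 0 := deriv_of_SO h
  have hd2 : HasDerivAt (fun t : ℝ => ‖z + t • w‖ - ‖z‖ - t * f w) (a - f w) 0 := by
    have h1 := (hd.sub_const ‖z‖).sub ((hasDerivAt_id (0 : ℝ)).mul_const (f w))
    rw [one_mul] at h1
    exact h1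
  have hmin : IsLocalMin (fun t : ℝ => ‖z + t • w‖ - ‖z‖ - t * f w) 0 := by
    refine Eventually.of_forall fun t => ?_
    have h1 := f.le_opNorm (z + t • w)
    rw [hf.1, one_mul, map_add, map_smul, hf.2, smul_eq_mul, Real.norm_eq_abs] at h1
    have h2 := le_abs_self (‖z‖ + t * f w)
    simp only [zero_smul, add_zero, zero_mul, sub_self]
    linarith
  have ha : a - f w = 0 := hmin.hasDerivAt_eq_zero hd2
  have ha : a = f w := by linarith
  refine ⟨m, h.congr fun t => ?_⟩
  unfold ph
  simp only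
  rw [ha, zero_add, zero_smul, add_zero, mul_comm]

lemma Bd_of_Lm {w : E} {m : ℝ} (hf : Nm z f) (h : Lm z f w m) : ∃ C : ℝ, 0 < C ∧ Bd z f w C := by
  have h1 : ∀ᶠ t in 𝓝[≠] (0 : ℝ), ph z f t w < m + 1 := h.eventually (gt_mem_nhds (by linarith))
  rw [eventually_nhdsWithin_iff, Metric.eventually_nhds_iff] at h1
  obtain ⟨δ, hδ, h1⟩ := h1
  have hm := Lm_nonneg hf h
  refine ⟨m + 1 + 2 * ‖w‖ / δ, by positivity, fun t ht => ?_⟩
  have hC1 : 1 ≤ m + 1 + 2 * ‖w‖ / δ := by
    have : 0 ≤ 2 * ‖w‖ / δ := by positivity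
    linarith
  have hC2 : m + 1 + 2 * ‖w‖ / δ ≤ (m + 1 + 2 * ‖w‖ / δ) ^ 2 := by nlinarith
  refine le_trans ?_ hC2
  rcases lt_or_ge |t| δ with htd | htd
  · have := h1 (y := t) (by rwa [Real.dist_eq, sub_zero]) ht
    have h3 : 0 ≤ 2 * ‖w‖ / δ := by positivity
    linarith
  · have ht0 : 0 < |t| := abs_pos.2 ht
    have h4 : ph z f t w ≤ 2 * ‖w‖ / δ := by
      unfold ph
      have h5 : ‖z + t • w‖ - ‖z‖ - t * f w ≤ 2 * ‖w‖ * |t| := by
        have h6 := norm_add_le z (t • w)
        rw [norm_smul, Real.norm_eq_abs] at h6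
        have h7 := f.le_opNorm w
        rw [hf.1, one_mul, Real.norm_eq_abs] at h7
        have h8 : -(t * f w) ≤ |t| * |f w| := by rw [← abs_mul]; exact neg_le_abs _
        have h9 : |t| * |f w| ≤ |t| * ‖w‖ := by gcongr
        linarith
      calc (‖z + t • w‖ - ‖z‖ - t * f w) / t ^ 2 ≤ 2 * ‖w‖ * |t| / t ^ 2 := by gcongr
        _ = 2 * ‖w‖ / |t| := by
            rw [← sq_abs t]
            field_simp
        _ ≤ 2 * ‖w‖ / δ := by gcongr
    linarith

end Pool.Agent.Y278.Rot
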