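import Pool.Agent.Y278.Rot.Main

/-! # Quadratic lower bounds from expansions of the dual norm -/

set_option autoImplicit false

namespace Pool.Agent.Y278.Rot

open Set Filter Topology

variable {E : Type} [NormedAddCommGroup E] [NormedSpace ℝ E]

/-- an upper bound from a second order expansion -/
lemma upper_of_Lm {z : E} {f : StrongDual ℝ E} {w : E} {m : ℝ} (h : Lm z f w m) :
    ∃ δ : ℝ, 0 < δ ∧ ∀ t : ℝ, |t| < δ → ‖z + t • w‖ ≤ ‖z‖ + t * f w + (m + 1) * t ^ 2 := by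
  have h1 : ∀ᶠ t in 𝓝[≠] (0 : ℝ), ph z f t w < m + 1 := h.eventually (gt_mem_nhds (by linarith))
  rw [eventually_nhdsWithin_iff, Metric.eventually_nhds_iff] at h1
  obtain ⟨δ, hδ, h1⟩ := h1
  refine ⟨δ, hδ, fun t ht => ?_⟩
  rcases eq_or_ne t 0 with rfl | ht0
  · simp
  · have h2 := h1 (y := t) (by rwa [Real.dist_eq, sub_zero]) ht0
    unfold ph at h2
    rw [div_lt_iff₀ (by positivity)] at h2
    linarith

lemma real_core {N p a b s k : ℝ} (hb : 0 < b) (hsa : |s * a| ≤ 1 / 2)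
    (hsb : b * s ^ 2 ≤ 1 / 2) (hp : |p| ≤ 1) (hk : k = 4 * b * s)
    (h7 : 1 + p + s * a + s * (k + p * a) ≤ (1 + s * a + b * s ^ 2) * N) :
    b * s ^ 2 ≤ N - (1 + p) := by
  obtain ⟨hp1, hp2⟩ := abs_le.1 hp
  obtain ⟨hs1, hs2⟩ := abs_le.1 hsa
  have hq0 : 0 ≤ b * s ^ 2 := by positivity
  have h1 : 1 + p + s * a + s * (k + p * a) = (1 + s * a + b * s ^ 2) * (1 + p)
      + (4 * (b * s ^ 2) - b * s ^ 2 * (1 + p)) := by rw [hk]; ring
  rw [h1] at h7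
  have h2 : b * s ^ 2 * (1 + p) ≤ b * s ^ 2 * 2 := by gcongr; linarith
  have hF : 0 < 1 + s * a + b * s ^ 2 := by linarith
  have hF2 : (1 + s * a + b * s ^ 2) * (b * s ^ 2) ≤ 2 * (b * s ^ 2) := by gcongr; linarith
  by_contra hcon
  push Not at hcon
  have h3 := mul_lt_mul_of_pos_left hcon hF
  have h4 : (1 + s * a + b * s ^ 2) * (N - (1 + p))
      = (1 + s * a + b * s ^ 2) * N - (1 + s * a + b * s ^ 2) * (1 + p) := by ring
  rw [h4] at h3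
  linarith

lemma choose_delta {δ₀ b a : ℝ} (hδ₀ : 0 < δ₀) (hb : 0 < b) : ∃ δ : ℝ, 0 < δ ∧ δ ≤ δ₀ ∧
    ∀ s : ℝ, |s| < δ → |s * a| ≤ 1 / 2 ∧ b * s ^ 2 ≤ 1 / 2 := by
  refine ⟨min δ₀ (min (1 / (2 * (|a| + 1))) (1 / (2 * (b + 1)))),
    lt_min hδ₀ (lt_min (by positivity) (by positivity)), min_le_left _ _, fun s hs => ?_⟩
  have h1 : |s| < 1 / (2 * (|a| + 1)) := hs.trans_le ((min_le_right _ _).trans (min_le_left _ _))
  have h2 : |s| < 1 / (2 * (b + 1)) := hs.trans_le ((min_le_right _ _).trans (min_le_right _ _))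
  rw [lt_div_iff₀ (by positivity)] at h1 h2
  have ha := abs_nonneg a
  have hs0 := abs_nonneg s
  constructor
  · rw [abs_mul]
    nlinarith
  · have h3 : |s| ≤ 1 := by nlinarith
    have h4 : s ^ 2 ≤ |s| := by
      rw [← sq_abs]
      nlinarith
    have h5 : b * s ^ 2 ≤ b * |s| := by gcongr
    nlinarith

/-- the quadratic lower bound near the point -/
lemma lower_near {Z : StrongDual ℝ E} {Φ : StrongDual ℝ (StrongDual ℝ E)} (hN : Nm Z Φ)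
    (hZ : 0 < ‖Z‖) {x : E} (hx : ‖x‖ = 1) (hΦ : ∀ g, Φ g = g x) {g : StrongDual ℝ E} {m : ℝ}
    (hg : Lm Z Φ g m) :
    ∃ c r : ℝ, 0 < c ∧ 0 < r ∧ ∀ w : E, ‖w‖ < r →
      1 + Z w / ‖Z‖ + c * (g w - Z w / ‖Z‖ * g x) ^ 2 ≤ ‖x + w‖ := by
  have hm0 := Lm_nonneg hN hg
  obtain ⟨δ₀, hδ₀, hup⟩ := upper_of_Lm hg
  obtain ⟨ζ, hζ⟩ : ∃ ζ, ζ = ‖Z‖ := ⟨_, rfl⟩
  rw [← hζ] at hZ hup
  obtain ⟨a, ha⟩ : ∃ a, a = g x / ζ := ⟨_, rfl⟩
  obtain ⟨b, hb⟩ : ∃ b, b = (m + 1) / ζ := ⟨_, rfl⟩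
  have hb0 : 0 < b := by rw [hb]; positivity
  obtain ⟨δ, hδ, hδ1, hδs⟩ := choose_delta (a := a) hδ₀ hb0
  have hZx : Z x = ζ := by rw [← hΦ, hN.2, hζ]
  refine ⟨1 / (16 * b * ζ ^ 2), min 1 (4 * b * δ / (2 * ‖g‖ / ζ + 1)), by positivity,
    lt_min one_pos (by positivity), fun w hw => ?_⟩
  rw [← hζ]
  have hw1 : ‖w‖ < 1 := hw.trans_le (min_le_left _ _)
  have hw2 : ‖w‖ * (2 * ‖g‖ / ζ + 1) < 4 * b * δ := by
    have := hw.trans_le (min_le_right _ _)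
    rwa [lt_div_iff₀ (by positivity)] at this
  obtain ⟨p, hp⟩ : ∃ p, p = Z w / ζ := ⟨_, rfl⟩
  rw [← hp]
  have hpw : |p| ≤ ‖w‖ := by
    rw [hp, abs_div, abs_of_pos hZ, div_le_iff₀ hZ, hζ]
    have := Z.le_opNorm w
    rw [Real.norm_eq_abs] at this
    linarith
  obtain ⟨k, hk⟩ : ∃ k, k = (g w - p * g x) / ζ := ⟨_, rfl⟩
  have hkz : g w - p * g x = ζ * k := by rw [hk]; field_simp
  have hkb : |k| ≤ 2 * ‖g‖ / ζ * ‖w‖ := by
    have h1 := g.le_opNorm w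
    have h2 := g.le_opNorm x
    rw [hx, mul_one, Real.norm_eq_abs] at h2
    rw [Real.norm_eq_abs] at h1
    have h3 : |g w - p * g x| ≤ 2 * ‖g‖ * ‖w‖ := by
      calc |g w - p * g x| ≤ |g w| + |p * g x| := abs_sub _ _
        _ = |g w| + |p| * |g x| := by rw [abs_mul]
        _ ≤ ‖g‖ * ‖w‖ + ‖w‖ * ‖g‖ := by gcongr
        _ = 2 * ‖g‖ * ‖w‖ := by ring
    rw [hk, abs_div, abs_of_pos hZ, div_mul_eq_mul_div]
    exact div_le_div_of_nonneg_right h3 hZ.le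
  obtain ⟨s, hs⟩ : ∃ s, s = k / (4 * b) := ⟨_, rfl⟩
  have hks : k = 4 * b * s := by rw [hs]; field_simp
  have hs1 : |s| < δ := by
    rw [hs, abs_div, abs_of_pos (show (0 : ℝ) < 4 * b by positivity), div_lt_iff₀ (by positivity)]
    have h2 := norm_nonneg w
    calc |k| ≤ 2 * ‖g‖ / ζ * ‖w‖ := hkb
      _ ≤ ‖w‖ * (2 * ‖g‖ / ζ + 1) := by linarith
      _ < δ * (4 * b) := by linarith
  obtain ⟨hsa, hsb⟩ := hδs s hs1
  have h1 := hup s (hs1.trans_le hδ1)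
  rw [hΦ] at h1
  have h2 := (Z + s • g).le_opNorm (x + w)
  have h3 : (Z + s • g) (x + w) = ζ + Z w + s * g x + s * g w := by
    show Z (x + w) + s • g (x + w) = _
    rw [map_add, map_add, hZx, smul_eq_mul]
    ring
  rw [h3, Real.norm_eq_abs] at h2
  have h5 := le_abs_self (ζ + Z w + s * g x + s * g w)
  have h6 : ζ + Z w + s * g x + s * g w ≤ (ζ + s * g x + (m + 1) * s ^ 2) * ‖x + w‖ := by
    calc ζ + Z w + s * g x + s * g w ≤ ‖Z + s • g‖ * ‖x + w‖ := h5.trans h2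
      _ ≤ _ := by gcongr
  have e1 : Z w = ζ * p := by rw [hp]; field_simp
  have e2 : g x = ζ * a := by rw [ha]; field_simp
  have e3 : m + 1 = ζ * b := by rw [hb]; field_simp
  have e4 : g w = ζ * (k + p * a) := by
    have : g w = ζ * k + p * g x := by linarith
    rw [this, e2]
    ring
  have h7 : 1 + p + s * a + s * (k + p * a) ≤ (1 + s * a + b * s ^ 2) * ‖x + w‖ := by
    have h8 : ζ * (1 + p + s * a + s * (k + p * a)) ≤ ζ * ((1 + s * a + b * s ^ 2) * ‖x + w‖) := by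
      calc ζ * (1 + p + s * a + s * (k + p * a)) = ζ + Z w + s * g x + s * g w := by
            rw [e1, e2, e4]; ring
        _ ≤ (ζ + s * g x + (m + 1) * s ^ 2) * ‖x + w‖ := h6
        _ = ζ * ((1 + s * a + b * s ^ 2) * ‖x + w‖) := by rw [e2, e3]; ring
    exact le_of_mul_le_mul_left h8 hZ
  have h13 := real_core hb0 hsa hsb (hpw.trans hw1.le) hks h7
  have h21 : 1 / (16 * b * ζ ^ 2) * (g w - p * g x) ^ 2 = b * s ^ 2 := by
    rw [hkz, hks]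
    field_simp
    ring
  rw [h21]
  linarith

/-- the quadratic lower bound on the unit ball -/
lemma lower_ball {Z : StrongDual ℝ E} {Φ : StrongDual ℝ (StrongDual ℝ E)} (hN : Nm Z Φ)
    (hZ : 0 < ‖Z‖) {x : E} (hx : ‖x‖ = 1) (hΦ : ∀ g, Φ g = g x) {g : StrongDual ℝ E} {m : ℝ}
    (hg : Lm Z Φ g m) :
    ∃ c : ℝ, 0 < c ∧ ∀ w : E, ‖w‖ ≤ 1 →
      1 + Z w / ‖Z‖ + c * (g w - Z w / ‖Z‖ * g x) ^ 2 ≤ ‖x + w‖ := by
  obtain ⟨c, r, hc, hr, h⟩ := lower_near hN hZ hx hΦ hg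
  set ρ := min (1 / 2) (r / 2) with hρ
  have hρ0 : 0 < ρ := by rw [hρ]; apply lt_min <;> positivity
  have hρ1 : ρ ≤ 1 / 2 := min_le_left _ _
  have hρ2 : ρ ≤ r / 2 := min_le_right _ _
  refine ⟨c * ρ, by positivity, fun w hw => ?_⟩
  have h1 := h (ρ • w) (by
    rw [norm_smul, Real.norm_of_nonneg hρ0.le]
    have := norm_nonneg w
    nlinarith)
  have h2 : ‖x + ρ • w‖ ≤ (1 - ρ) * 1 + ρ * ‖x + w‖ := by
    have e : x + ρ • w = (1 - ρ) • x + ρ • (x + w) := by module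
    rw [e]
    refine (norm_add_le _ _).trans (le_of_eq ?_)
    rw [norm_smul, norm_smul, hx, Real.norm_of_nonneg hρ0.le,
      Real.norm_of_nonneg (show 0 ≤ 1 - ρ by linarith)]
  rw [map_smul, map_smul, smul_eq_mul, smul_eq_mul] at h1
  have e2 : ρ * g w - ρ * Z w / ‖Z‖ * g x = ρ * (g w - Z w / ‖Z‖ * g x) := by ring
  rw [e2, mul_pow] at h1
  have e3 : ρ * Z w / ‖Z‖ = ρ * (Z w / ‖Z‖) := by ring
  rw [e3] at h1
  have h3 : ρ * (1 + Z w / ‖Z‖ + c * ρ * (g w - Z w / ‖Z‖ * g x) ^ 2) ≤ ρ * ‖x + w‖ := by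
    nlinarith
  exact le_of_mul_le_mul_left h3 hρ0

/-- a separating sequence of functionals -/
lemma exists_separating [TopologicalSpace.SeparableSpace E] :
    ∃ g : ℕ → StrongDual ℝ E, ∀ w : E, w ≠ 0 → ∃ n, g n w ≠ 0 := by
  have h : ∀ n, ∃ g : StrongDual ℝ E, ‖g‖ ≤ 1 ∧
      g (TopologicalSpace.denseSeq E n) = ‖TopologicalSpace.denseSeq E n‖ := by
    intro n
    obtain ⟨g, h1, h2⟩ := exists_dual_vector'' ℝ (TopologicalSpace.denseSeq E n)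
    exact ⟨g, h1, by rw [h2]; simp⟩
  choose g hg1 hg2 using h
  refine ⟨g, fun w hw => ?_⟩
  have hw0 : 0 < ‖w‖ := norm_pos_iff.2 hw
  obtain ⟨n, hn⟩ := (TopologicalSpace.denseRange_denseSeq E).exists_dist_lt w
    (show 0 < ‖w‖ / 4 by positivity)
  refine ⟨n, fun h0 => ?_⟩
  set e := TopologicalSpace.denseSeq E n with he
  rw [dist_eq_norm] at hn
  have h1 : g n e - g n w ≤ ‖w - e‖ := by
    rw [← map_sub]
    have h2 := (g n).le_opNorm (e - w)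
    have h3 := le_abs_self (g n (e - w))
    rw [Real.norm_eq_abs] at h2
    have h4 : ‖g n‖ * ‖e - w‖ ≤ 1 * ‖e - w‖ := by gcongr; exact hg1 n
    rw [norm_sub_rev e w] at h4 h2
    linarith
  rw [hg2, h0] at h1
  have h5 : ‖w‖ ≤ ‖w - e‖ + ‖e‖ := by
    have := norm_add_le (w - e) e
    rwa [sub_add_cancel] at this
  linarith

end Pool.Agent.Y278.Rot
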