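import Pool.Agent.Y278.Rot.TwoDim

/-! # Second order expansions are a countable condition -/

set_option autoImplicit false

namespace Pool.Agent.Y278.Rot

open Set Filter Topology MeasureTheory

/-- nonzero rationals -/
abbrev QQ : Type := {q : ℚ // q ≠ 0}

/-- the filter of the nonzero rationals at zero -/
def lq : Filter QQ := comap (fun t : QQ => ((t : ℚ) : ℝ)) (𝓝 0)

instance : lq.IsCountablyGenerated := by unfold lq; infer_instance

lemma lq_tendsto : Tendsto (fun t : QQ => ((t : ℚ) : ℝ)) lq (𝓝[≠] 0) := by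
  refine tendsto_nhdsWithin_iff.2 ⟨tendsto_comap, Eventually.of_forall fun t => ?_⟩
  have := t.2
  show ((t : ℚ) : ℝ) ≠ 0
  exact_mod_cast this

/-- the quotient -/
noncomputable def HH (φ : ℝ → ℝ) (t : ℝ) : ℝ := (φ t - φ 0 - deriv φ 0 * t) / t ^ 2

lemma deriv_of_SO {φ : ℝ → ℝ} {a m : ℝ}
    (h : Tendsto (fun t : ℝ => (φ (0 + t) - φ 0 - a * t) / t ^ 2) (𝓝[≠] 0) (𝓝 m)) :
    HasDerivAt φ a 0 := by
  rw [hasDerivAt_iff_tendsto_slope]
  have h0 : Tendsto (fun t : ℝ => t) (𝓝[≠] 0) (𝓝 0) := tendsto_id.mono_left nhdsWithin_le_nhds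
  have h1 := (h0.mul h).add_const a
  rw [zero_mul, zero_add] at h1
  refine h1.congr' ?_
  filter_upwards [self_mem_nhdsWithin] with t ht
  have ht : t ≠ 0 := ht
  rw [slope_def_field, zero_add, sub_zero]
  field_simp
  ring

lemma HH_of_SO {φ : ℝ → ℝ} (h : SO φ 0) : ∃ c, Tendsto (HH φ) (𝓝[≠] 0) (𝓝 c) := by
  obtain ⟨a, m, h⟩ := h
  have hd := deriv_of_SO h
  refine ⟨m, h.congr fun t => ?_⟩
  unfold HH
  rw [hd.deriv, zero_add]

lemma SO_of_HH {φ : ℝ → ℝ} {c : ℝ} (h : Tendsto (HH φ) (𝓝[≠] 0) (𝓝 c)) : SO φ 0 := by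
  refine ⟨deriv φ 0, c, h.congr fun t => ?_⟩
  unfold HH
  rw [zero_add]

/-- along the rationals -/
lemma SO_iff {φ : ℝ → ℝ} (hφ : Continuous φ) :
    SO φ 0 ↔ ∃ c, Tendsto (fun t : QQ => HH φ t) lq (𝓝 c) := by
  constructor
  · intro h
    obtain ⟨c, hc⟩ := HH_of_SO h
    exact ⟨c, hc.comp lq_tendsto⟩
  · rintro ⟨c, hc⟩
    refine SO_of_HH (c := c) ?_
    rw [Metric.tendsto_nhdsWithin_nhds]
    intro ε hε
    have h1 := Metric.tendsto_nhds.1 hc (ε / 2) (by positivity)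
    unfold lq at h1
    rw [eventually_comap, Metric.eventually_nhds_iff] at h1
    obtain ⟨δ, hδ, h1⟩ := h1
    refine ⟨δ, hδ, fun t ht htδ => ?_⟩
    have ht0 : t ≠ 0 := ht
    by_contra hcon
    push Not at hcon
    have hcont : ContinuousOn (HH φ) {0}ᶜ := by
      unfold HH
      apply ContinuousOn.div (by fun_prop) (by fun_prop)
      intro x hx
      have : x ≠ 0 := hx
      positivity
    have hopen : IsOpen ({0}ᶜ ∩ (HH φ) ⁻¹' {y | ε / 2 < dist y c} : Set ℝ) :=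
      hcont.isOpen_inter_preimage isOpen_compl_singleton
        (isOpen_lt continuous_const (by fun_prop))
    have hopen2 : IsOpen (({0}ᶜ ∩ (HH φ) ⁻¹' {y | ε / 2 < dist y c}) ∩ Metric.ball 0 δ : Set ℝ) :=
      hopen.inter Metric.isOpen_ball
    have hne : (({0}ᶜ ∩ (HH φ) ⁻¹' {y | ε / 2 < dist y c}) ∩ Metric.ball 0 δ : Set ℝ).Nonempty :=
      ⟨t, ⟨ht, by show ε / 2 < dist (HH φ t) c; linarith⟩, htδ⟩
    obtain ⟨q, hq⟩ := (Rat.denseRange_cast (𝕜 := ℝ)).exists_mem_open hopen2 hne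
    have hq0 : q ≠ 0 := by
      have : ((q : ℚ) : ℝ) ≠ 0 := hq.1.1
      exact_mod_cast this
    have h2 := h1 (y := (q : ℝ)) hq.2 ⟨q, hq0⟩ rfl
    have h3 : ε / 2 < dist (HH φ (q : ℝ)) c := hq.1.2
    simp only at h2
    linarith

end Pool.Agent.Y278.Rot
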