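import Pool.Agent.Y278.Rot.Ext

/-! # Limits of second order quotients on the real span -/

set_option autoImplicit false

namespace Pool.Agent.Y278.Rot

open Set Filter Topology

variable {E : Type} [NormedAddCommGroup E] [NormedSpace ℝ E]
variable {z : E} {f : StrongDual ℝ E} {ι : Type} {v : ι → E}

/-- closure properties of the family of directions -/
structure Fam (v : ι → E) : Prop where
  add : ∀ k l, ∃ j, v j = v k + v l
  sub : ∀ k l, ∃ j, v j = v k - v l
  rat : ∀ (q : ℚ) k, ∃ j, v j = (q : ℝ) • v k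
  zero : ∃ j, v j = 0

lemma Bd_neg {w : E} {C : ℝ} (h : Bd z f w C) : Bd z f (-w) C := by
  have := Bd_smul h (-1)
  rw [neg_one_smul, abs_neg, abs_one, one_mul] at this
  exact this

lemma approx (hF : Fam v) (hB : ∀ k, ∃ C : ℝ, 0 < C ∧ Bd z f (v k) C) {w : E}
    (hw : w ∈ Submodule.span ℝ (range v)) : ∀ η : ℝ, 0 < η → ∃ k, Bd z f (w - v k) η := by
  induction hw using Submodule.span_induction with
  | mem x hx =>
    obtain ⟨k, rfl⟩ := hx
    intro η _
    exact ⟨k, by rw [sub_self]; exact Bd_zero η⟩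
  | zero =>
    intro η _
    obtain ⟨j, hj⟩ := hF.zero
    exact ⟨j, by rw [hj, sub_zero]; exact Bd_zero η⟩
  | add x y _ _ ihx ihy =>
    intro η hη
    obtain ⟨k, hk⟩ := ihx (η / 2) (by positivity)
    obtain ⟨l, hl⟩ := ihy (η / 2) (by positivity)
    obtain ⟨j, hj⟩ := hF.add k l
    refine ⟨j, ?_⟩
    have h := Bd_add hk hl (by positivity) (by positivity)
    rw [add_halves] at h
    rw [hj]
    have e : x + y - (v k + v l) = x - v k + (y - v l) := by abel
    rw [e]; exact h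
  | smul c x _ ih =>
    intro η hη
    obtain ⟨k, hk⟩ := ih (η / (2 * (|c| + 1))) (by positivity)
    obtain ⟨C, hC, hkC⟩ := hB k
    obtain ⟨q, hq⟩ := Rat.denseRange_cast.exists_dist_lt c (show 0 < η / (4 * C) by positivity)
    obtain ⟨j, hj⟩ := hF.rat q k
    refine ⟨j, ?_⟩
    have h1 := Bd_mono (Bd_smul hk c) (by positivity) (show |c| * (η / (2 * (|c| + 1))) ≤ η / 2 by
      have h0 := abs_nonneg c
      rw [mul_div_assoc', div_le_div_iff₀ (by positivity) (by norm_num)]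
      nlinarith)
    have h2 := Bd_mono (Bd_smul hkC (c - q)) (by positivity) (show |c - q| * C ≤ η / 2 by
      rw [Real.dist_eq] at hq
      calc |c - q| * C ≤ η / (4 * C) * C := by gcongr
        _ = η / 4 := by field_simp
        _ ≤ η / 2 := by linarith)
    have h := Bd_add h1 h2 (by positivity) (by positivity)
    rw [add_halves] at h
    have e : c • x - v j = c • (x - v k) + (c - q) • v k := by
      rw [hj]; module
    rw [e]; exact h

lemma ex_Bd (hF : Fam v) (hB : ∀ k, ∃ C : ℝ, 0 < C ∧ Bd z f (v k) C) {w : E}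
    (hw : w ∈ Submodule.span ℝ (range v)) : ∃ C : ℝ, 0 < C ∧ Bd z f w C := by
  obtain ⟨k, hk⟩ := approx hF hB hw 1 one_pos
  obtain ⟨C, hC, hkC⟩ := hB k
  refine ⟨1 + C, by positivity, ?_⟩
  have h := Bd_add hk hkC one_pos hC
  rwa [sub_add_cancel] at h

lemma ex_Lm (hf : Nm z f) (hF : Fam v) (hB : ∀ k, ∃ C : ℝ, 0 < C ∧ Bd z f (v k) C)
    (hL : ∀ k, ∃ m, Lm z f (v k) m) {w : E}
    (hw : w ∈ Submodule.span ℝ (range v)) : ∃ m, Lm z f w m := by
  obtain ⟨C, hC, hwC⟩ := ex_Bd hF hB hw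
  refine exists_lim fun ε hε => ?_
  set K := (C + 1) ^ 2 with hK
  have hK0 : 0 < K := by positivity
  set lam := min (1 / 2) (ε / (2 * K + 3)) with hlam
  have hl0 : 0 < lam := by
    rw [hlam]; apply lt_min <;> positivity
  have hl1 : lam ≤ 1 / 2 := min_le_left _ _
  have hl2 : (2 * K + 3) * lam ≤ ε := by
    have : lam ≤ ε / (2 * K + 3) := min_le_right _ _
    rw [le_div_iff₀ (by positivity)] at this
    linarith
  obtain ⟨k, hk⟩ := approx hF hB hw lam hl0
  have hk' : Bd z f (v k - w) lam := by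
    have := Bd_neg hk
    rwa [neg_sub] at this
  obtain ⟨m, hm⟩ := hL k
  have hm0 := Lm_nonneg hf hm
  have hmK : m ≤ K := by
    have h1 : Bd z f (v k) (C + lam) := by
      have h := Bd_add hwC hk' hC hl0
      rwa [add_sub_cancel] at h
    refine (Lm_le_of_Bd hm h1).trans ?_
    rw [hK]
    gcongr
    linarith
  refine ⟨m, ?_⟩
  have ha0 : 0 < 1 - lam := by linarith
  have ev1 : ∀ᶠ t in 𝓝[≠] (0 : ℝ), |ph z f ((1 - lam)⁻¹ * t) (v k) - m| ≤ lam := by
    have h := hm.comp (tendsto_mul_ne (inv_ne_zero ha0.ne'))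
    have := Metric.tendsto_nhds.1 h lam hl0
    filter_upwards [this] with t ht
    rw [Real.dist_eq] at ht
    exact ht.le
  have ev2 : ∀ᶠ t in 𝓝[≠] (0 : ℝ), |ph z f ((1 - lam) * t) (v k) - m| ≤ lam := by
    have h := hm.comp (tendsto_mul_ne ha0.ne')
    have := Metric.tendsto_nhds.1 h lam hl0
    filter_upwards [this] with t ht
    rw [Real.dist_eq] at ht
    exact ht.le
  filter_upwards [ev1, ev2, self_mem_nhdsWithin] with t h1 h2 ht
  have ht : t ≠ 0 := ht
  have s1 := split (z := z) (f := f) t (v k) (w - v k) ha0 (by linarith)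
  rw [add_sub_cancel, sub_sub_cancel] at s1
  have b1 := hk (lam⁻¹ * t) (mul_ne_zero (inv_ne_zero hl0.ne') ht)
  have s2 := split (z := z) (f := f) ((1 - lam) * t) w (v k - w) ha0 (by linarith)
  rw [add_sub_cancel, sub_sub_cancel] at s2
  have b2 := hk' (lam⁻¹ * ((1 - lam) * t))
    (mul_ne_zero (inv_ne_zero hl0.ne') (mul_ne_zero ha0.ne' ht))
  have e : (1 - lam)⁻¹ * ((1 - lam) * t) = t := by field_simp
  rw [e] at s2
  obtain ⟨h1a, h1b⟩ := abs_le.1 h1
  obtain ⟨h2a, h2b⟩ := abs_le.1 h2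
  have hi : lam⁻¹ * lam ^ 2 = lam := by field_simp
  have b1' : lam⁻¹ * ph z f (lam⁻¹ * t) (w - v k) ≤ lam := by
    calc lam⁻¹ * ph z f (lam⁻¹ * t) (w - v k) ≤ lam⁻¹ * lam ^ 2 := by gcongr
      _ = lam := hi
  have b2' : lam⁻¹ * ph z f (lam⁻¹ * ((1 - lam) * t)) (v k - w) ≤ lam := by
    calc lam⁻¹ * ph z f (lam⁻¹ * ((1 - lam) * t)) (v k - w) ≤ lam⁻¹ * lam ^ 2 := by gcongr
      _ = lam := hi
  have hinv : (1 - lam)⁻¹ ≤ 1 + 2 * lam := by
    rw [inv_le_iff_one_le_mul₀ ha0]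
    nlinarith
  have u1 : ph z f t w ≤ (1 + 2 * lam) * (m + lam) + lam := by
    calc ph z f t w ≤ (1 - lam)⁻¹ * ph z f ((1 - lam)⁻¹ * t) (v k)
          + lam⁻¹ * ph z f (lam⁻¹ * t) (w - v k) := s1
      _ ≤ (1 + 2 * lam) * (m + lam) + lam := by
          have := ph_nonneg hf ((1 - lam)⁻¹ * t) (v k)
          gcongr
          linarith
  have u2 : (1 - lam) * (m - 2 * lam) ≤ ph z f t w := by
    have h3 : m - 2 * lam ≤ (1 - lam)⁻¹ * ph z f t w := by linarith
    calc (1 - lam) * (m - 2 * lam) ≤ (1 - lam) * ((1 - lam)⁻¹ * ph z f t w) := by gcongr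
      _ = ph z f t w := by field_simp
  rw [abs_le]
  have hmm : m * lam ≤ K * lam := by gcongr
  constructor
  · nlinarith
  · nlinarith

end Pool.Agent.Y278.Rot
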