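import Pool.Agent.Y278.Rot.OneDim

/-!
# The parallelogram law for second derivatives of convex functions

For a convex function of two variables the second directional derivatives satisfy the
parallelogram law at almost every point.
-/

set_option autoImplicit false

namespace Pool.Agent.Y278.Rot

open Set Filter Topology MeasureTheory Metric

/-- the second difference quotient -/
noncomputable def dq {G : Type*} [AddCommGroup G] [Module ℝ G] (F : G → ℝ) (a : G) (h : ℝ)
    (p : G) : ℝ := (F (p + h • a) + F (p - h • a) - 2 * F p) / h ^ 2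

/-- the steps -/
noncomputable def hn (n : ℕ) : ℝ := 1 / ((n : ℝ) + 1)

lemma hn_pos (n : ℕ) : 0 < hn n := by unfold hn; positivity

lemma hn_le (n : ℕ) : hn n ≤ 1 := by
  unfold hn
  rw [div_le_one (by positivity)]
  have : (0 : ℝ) ≤ n := Nat.cast_nonneg n
  linarith

lemma hn_tendsto : Tendsto hn atTop (𝓝 0) := tendsto_one_div_add_atTop_nhds_zero_nat

lemma hn_tendsto' : Tendsto hn atTop (𝓝[≠] 0) :=
  tendsto_nhdsWithin_iff.2 ⟨hn_tendsto, Eventually.of_forall fun n => (hn_pos n).ne'⟩

section conv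

variable {G : Type*} [AddCommGroup G] [Module ℝ G] {F : G → ℝ}

lemma dq_nonneg (hF : ConvexOn ℝ univ F) (a : G) (h : ℝ) (p : G) : 0 ≤ dq F a h p := by
  have h1 := hF.2 (mem_univ (p + h • a)) (mem_univ (p - h • a)) (show (0 : ℝ) ≤ 1 / 2 by norm_num)
    (show (0 : ℝ) ≤ 1 / 2 by norm_num) (by norm_num)
  have e : (1 / 2 : ℝ) • (p + h • a) + (1 / 2 : ℝ) • (p - h • a) = p := by module
  rw [e, smul_eq_mul, smul_eq_mul] at h1
  unfold dq
  apply div_nonneg _ (sq_nonneg h)
  linarith

lemma dq_par (a b : G) {h : ℝ} (p : G) :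
    dq F (a + b) h p + dq F (a - b) h p
      = dq F a h (p + h • b) + dq F a h (p - h • b) + 2 * dq F b h p := by
  unfold dq
  have e1 : p + h • (a + b) = p + h • b + h • a := by module
  have e2 : p - h • (a + b) = p - h • b - h • a := by module
  have e3 : p + h • (a - b) = p - h • b + h • a := by module
  have e4 : p - h • (a - b) = p + h • b - h • a := by module
  rw [e1, e2, e3, e4]
  ring

/-- an expansion of second order gives the limit of the second difference quotients -/
lemma dq_of_SO {a p : G} (h : SO (fun t : ℝ => F (p + t • a)) 0) :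
    ∃ c, Tendsto (fun t : ℝ => dq F a t p) (𝓝[≠] 0) (𝓝 c) := by
  obtain ⟨u, m, h⟩ := h
  refine ⟨m + m, ?_⟩
  have h2 : Tendsto (fun t : ℝ => -t) (𝓝[≠] 0) (𝓝[≠] 0) := by
    apply tendsto_nhdsWithin_iff.2
    constructor
    · have : Tendsto (fun t : ℝ => -t) (𝓝 0) (𝓝 (-0)) := (continuous_neg.tendsto 0)
      rw [neg_zero] at this
      exact this.mono_left nhdsWithin_le_nhds
    · filter_upwards [self_mem_nhdsWithin] with t ht
      simpa using ht
  have h3 := h.add (h.comp h2)
  refine h3.congr' ?_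
  filter_upwards [self_mem_nhdsWithin] with t ht
  have ht : t ≠ 0 := ht
  have e : p - t • a = p + -t • a := by rw [neg_smul, sub_eq_add_neg]
  simp only [Function.comp, zero_add, zero_smul, add_zero]
  unfold dq
  rw [neg_sq, ← add_div, e]
  congr 1
  ring

end conv

variable {F : ℝ × ℝ → ℝ}

lemma dq_cont (hc : Continuous F) (a : ℝ × ℝ) (h : ℝ) : Continuous (dq F a h) := by
  unfold dq
  fun_prop

lemma ae_dq (hF : ConvexOn ℝ univ F) (hc : Continuous F) (e : ℝ × ℝ) :
    ∀ᵐ p : ℝ × ℝ, (∃ M : ℕ, ∀ h ∈ Ioc (0 : ℝ) 1, dq F e h p ≤ M) ∧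
      ∃ c, Tendsto (fun n => dq F e (hn n) p) atTop (𝓝 c) := by
  set L : ℝ →ₗ[ℝ] ℝ × ℝ := LinearMap.toSpanSingleton ℝ (ℝ × ℝ) e with hL
  have hmeas : MeasurableSet {p : ℝ × ℝ | (∃ M : ℕ, ∀ h ∈ Ioc (0 : ℝ) 1, dq F e h p ≤ M) ∧
      ∃ c, Tendsto (fun n => dq F e (hn n) p) atTop (𝓝 c)} := by
    have hA : MeasurableSet {p : ℝ × ℝ | ∃ M : ℕ, ∀ h ∈ Ioc (0 : ℝ) 1, dq F e h p ≤ M} := by
      have : {p : ℝ × ℝ | ∃ M : ℕ, ∀ h ∈ Ioc (0 : ℝ) 1, dq F e h p ≤ M}
          = ⋃ M : ℕ, ⋂ h ∈ Ioc (0 : ℝ) 1, {p | dq F e h p ≤ M} := by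
        ext p; simp
      rw [this]
      refine MeasurableSet.iUnion fun M => IsClosed.measurableSet ?_
      exact isClosed_biInter fun h _ => isClosed_le (dq_cont hc e h) continuous_const
    have hB : MeasurableSet {p : ℝ × ℝ | ∃ c, Tendsto (fun n => dq F e (hn n) p) atTop (𝓝 c)} :=
      MeasureTheory.measurableSet_exists_tendsto (fun n => (dq_cont hc e (hn n)).measurable)
    exact hA.inter hB
  refine ae_mem_of_ae_add_linearMap_mem L volume volume hmeas fun y => ?_
  have hφ : ConvexOn ℝ univ (fun t : ℝ => F (y + t • e)) := by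
    have h1 := hF.comp_affineMap (AffineMap.lineMap y (y + e))
    refine (h1.subset (subset_univ _) convex_univ).congr ?_
    intro t _
    simp [AffineMap.lineMap_apply, add_comm]
  filter_upwards [ae_SO hφ] with s hs
  have hs' : SO (fun t : ℝ => F (y + s • e + t • e)) 0 := by
    obtain ⟨u, m, h⟩ := hs
    refine ⟨u, m, h.congr fun t => ?_⟩
    simp only [add_smul, zero_smul, add_zero, zero_add, add_assoc]
  obtain ⟨c, hcc⟩ := dq_of_SO hs'
  have hLs : L s = s • e := by simp [hL]
  rw [hLs]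
  refine ⟨?_, c, hcc.comp hn_tendsto'⟩
  -- boundedness
  have h1 : ∀ᶠ t in 𝓝[≠] (0 : ℝ), dq F e t (y + s • e) < c + 1 :=
    hcc (Iio_mem_nhds (by linarith))
  rw [eventually_nhdsWithin_iff, Metric.eventually_nhds_iff] at h1
  obtain ⟨δ, hδ, h1⟩ := h1
  have h2 : ContinuousOn (fun t : ℝ => dq F e t (y + s • e)) (Icc (δ / 2) 1) := by
    unfold dq
    apply ContinuousOn.div (by fun_prop) (by fun_prop)
    intro t ht
    have : 0 < t := by linarith [ht.1]
    positivity
  obtain ⟨K, hK⟩ := (isCompact_Icc.bddAbove_image h2)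
  obtain ⟨M, hM⟩ := exists_nat_ge (max K (c + 1))
  refine ⟨M, fun h hh => ?_⟩
  rcases le_or_gt (δ / 2) h with h3 | h3
  · exact (hK ⟨h, ⟨h3, hh.2⟩, rfl⟩).trans ((le_max_left _ _).trans hM)
  · have := h1 (y := h) (by
      rw [dist_zero_right, Real.norm_eq_abs, abs_of_pos hh.1]; linarith) (ne_of_gt hh.1)
    exact this.le.trans ((le_max_right _ _).trans hM)

/-- translation of a compact set moves little mass -/
lemma small_shift {K : Set (ℝ × ℝ)} (hK : IsCompact K) {c : ℕ → ℝ × ℝ}
    (hc : Tendsto c atTop (𝓝 0)) :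
    Tendsto (fun n => volume.real (K \ (fun p => p + c n) ⁻¹' K)) atTop (𝓝 0) := by
  have hKm := hK.measurableSet
  have hKf : volume K ≠ ⊤ := hK.measure_lt_top.ne
  have h1 : Tendsto (fun n => volume.real (cthickening ‖c n‖ K)) atTop (𝓝 (volume.real K)) := by
    have h2 : Tendsto (fun n => ‖c n‖) atTop (𝓝 0) := tendsto_norm_zero.comp hc
    exact (ENNReal.tendsto_toReal hKf).comp ((tendsto_measure_cthickening_of_isCompact hK).comp h2)
  have h3 : Tendsto (fun n => volume.real (cthickening ‖c n‖ K) - volume.real K) atTop (𝓝 0) := by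
    have := h1.sub_const (volume.real K)
    rwa [sub_self] at this
  refine squeeze_zero (fun n => measureReal_nonneg) (fun n => ?_) h3
  set A := (fun p => p + c n) ⁻¹' K with hA
  have hAm : MeasurableSet A := (by fun_prop : Continuous fun p : ℝ × ℝ => p + c n).measurable hKm
  have hAv : volume.real A = volume.real K := by
    rw [measureReal_def, measureReal_def, hA, measure_preimage_add_right]
  have hAf : volume A ≠ ⊤ := by
    rw [hA, measure_preimage_add_right]; exact hKf
  have e1 : volume.real (K ∩ A) + volume.real (K \ A) = volume.real K :=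
    measureReal_inter_add_sdiff hAm hKf
  have hsub : A ∪ K ⊆ cthickening ‖c n‖ K := by
    apply union_subset
    · intro p hp
      have hp : p + c n ∈ K := hp
      apply mem_cthickening_of_dist_le p (p + c n) _ _ hp
      rw [dist_eq_norm]
      simp
    · exact self_subset_cthickening K
  have hcf : volume (cthickening ‖c n‖ K) ≠ ⊤ :=
    (hK.isBounded.cthickening.measure_lt_top).ne
  have e2 : volume.real (A ∪ K) ≤ volume.real (cthickening ‖c n‖ K) :=
    measureReal_mono hsub hcf
  have e3 : volume.real (A ∪ K) + volume.real (A ∩ K) = volume.real A + volume.real K :=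
    measureReal_union_add_inter hKm hAf hKf
  rw [inter_comm] at e3
  linarith

lemma shift_int {K : Set (ℝ × ℝ)} (hK : IsCompact K) {G : ℝ × ℝ → ℝ} (hG : Continuous G)
    (hG0 : ∀ p, 0 ≤ G p) {M : ℝ} (hM : ∀ p ∈ K, G p ≤ M) (c : ℝ × ℝ) :
    (∫ p in K, G p) - M * volume.real (K \ (fun p => p + -c) ⁻¹' K) ≤ ∫ p in K, G (p + c) := by
  set A := (fun p : ℝ × ℝ => p + -c) ⁻¹' K with hA
  have hKm := hK.measurableSet
  have hAc : IsCompact A := by
    have : A = (fun p : ℝ × ℝ => p + c) '' K := by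
      ext p
      simp only [hA, mem_preimage, mem_image]
      constructor
      · intro h; exact ⟨_, h, by simp⟩
      · rintro ⟨q, hq, rfl⟩; simpa using hq
    rw [this]
    exact hK.image (by fun_prop)
  have hAm := hAc.measurableSet
  have h1 : ∫ p in K, G (p + c) = ∫ p in A, G p := by
    have h := (measurePreserving_add_right (volume : Measure (ℝ × ℝ)) c).setIntegral_preimage_emb
      (measurableEmbedding_addRight c) G A
    have e : (fun p : ℝ × ℝ => p + c) ⁻¹' A = K := by
      ext p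
      simp [hA]
    rw [← h, e]
  have hiK : IntegrableOn G K := hG.continuousOn.integrableOn_compact hK
  have hiA : IntegrableOn G A := hG.continuousOn.integrableOn_compact hAc
  have h2 : ∫ p in K ∩ A, G p ≤ ∫ p in A, G p :=
    setIntegral_mono_set hiA (Eventually.of_forall hG0)
      (Eventually.of_forall fun p hp => (hp : p ∈ K ∩ A).2)
  have h3 : (∫ p in K ∩ A, G p) + ∫ p in K \ A, G p = ∫ p in K, G p :=
    integral_inter_add_sdiff hAm hiK
  have h4 : ∫ p in K \ A, G p ≤ M * volume.real (K \ A) := by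
    have hf : volume (K \ A) ≠ ⊤ :=
      (measure_mono sdiff_subset).trans_lt hK.measure_lt_top |>.ne
    have h5 : ∫ p in K \ A, G p ≤ ∫ _ in K \ A, M := by
      refine setIntegral_mono_on (hiK.mono_set sdiff_subset) (integrableOn_const hf)
        (hKm.diff hAm) fun p hp => hM p hp.1
    rw [setIntegral_const, smul_eq_mul, mul_comm] at h5
    exact h5
  linarith

/-- the defect of the parallelogram law -/
noncomputable def TT (F : ℝ × ℝ → ℝ) (a b : ℝ × ℝ) (n : ℕ) (p : ℝ × ℝ) : ℝ :=
  dq F (a + b) (hn n) p + dq F (a - b) (hn n) p - 2 * dq F a (hn n) p - 2 * dq F b (hn n) p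

lemma TT_cont (hc : Continuous F) (a b : ℝ × ℝ) (n : ℕ) : Continuous (TT F a b n) := by
  have h := fun e => dq_cont hc e (hn n)
  unfold TT
  exact (((h _).add (h _)).sub (continuous_const.mul (h _))).sub (continuous_const.mul (h _))

/-- one inequality, integrated over a compact set -/
lemma int_par (hF : ConvexOn ℝ univ F) (hc : Continuous F) (a b : ℝ × ℝ) {K : Set (ℝ × ℝ)}
    (hK : IsCompact K) {M : ℝ}
    (ha : ∀ n, ∀ p ∈ K, dq F a (hn n) p ≤ M) (hb : ∀ n, ∀ p ∈ K, dq F b (hn n) p ≤ M)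
    (hab : ∀ n, ∀ p ∈ K, dq F (a + b) (hn n) p ≤ M)
    (hab' : ∀ n, ∀ p ∈ K, dq F (a - b) (hn n) p ≤ M)
    {q : ℝ × ℝ → ℝ} (hq : ∀ p ∈ K, Tendsto (fun n => TT F a b n p) atTop (𝓝 (q p))) :
    0 ≤ ∫ p in K, q p := by
  have h1 : Tendsto (fun n => ∫ p in K, TT F a b n p) atTop (𝓝 (∫ p in K, q p)) := by
    refine tendsto_integral_of_dominated_convergence (fun _ => 4 * M) (fun n =>
      (TT_cont hc a b n).aestronglyMeasurable) (integrableOn_const hK.measure_lt_top.ne)
      (fun n => ?_) ?_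
    · filter_upwards [ae_restrict_mem hK.measurableSet] with p hp
      have e1 := ha n p hp
      have e2 := hb n p hp
      have e3 := hab n p hp
      have e4 := hab' n p hp
      have f1 := dq_nonneg hF a (hn n) p
      have f2 := dq_nonneg hF b (hn n) p
      have f3 := dq_nonneg hF (a + b) (hn n) p
      have f4 := dq_nonneg hF (a - b) (hn n) p
      rw [Real.norm_eq_abs, abs_le]
      unfold TT
      constructor <;> linarith
    · filter_upwards [ae_restrict_mem hK.measurableSet] with p hp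
      exact hq p hp
  have hcp : Tendsto (fun n => hn n • b) atTop (𝓝 0) := by
    have := hn_tendsto.smul_const b
    rwa [zero_smul] at this
  have hcm : Tendsto (fun n => -(hn n • b)) atTop (𝓝 0) := by
    have := hcp.neg
    rwa [neg_zero] at this
  have s1 := small_shift hK hcp
  have s2 := small_shift hK hcm
  have h2 : Tendsto (fun n => -(M * volume.real (K \ (fun p => p + -(hn n • b)) ⁻¹' K)
      + M * volume.real (K \ (fun p => p + hn n • b) ⁻¹' K))) atTop (𝓝 0) := by
    have := ((s2.const_mul M).add (s1.const_mul M)).neg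
    simpa using this
  refine le_of_tendsto_of_tendsto' h2 h1 fun n => ?_
  set h := hn n with hh
  set G := dq F a h with hG
  have hGc : Continuous G := dq_cont hc a h
  have hG0 : ∀ p, 0 ≤ G p := fun p => dq_nonneg hF a h p
  have i1 := shift_int hK hGc hG0 (fun p hp => ha n p hp) (h • b)
  have i2 := shift_int hK hGc hG0 (fun p hp => ha n p hp) (-(h • b))
  rw [neg_neg] at i2
  have i3 : ∫ p in K, TT F a b n p
      = (∫ p in K, G (p + h • b)) + (∫ p in K, G (p + -(h • b))) - 2 * ∫ p in K, G p := by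
    have e : ∀ p, TT F a b n p = (G (p + h • b) + G (p + -(h • b))) - 2 * G p := by
      intro p
      have := dq_par (F := F) a b (h := h) p
      unfold TT
      rw [← hh, this, ← sub_eq_add_neg]
      ring
    simp_rw [e]
    have j : ∀ c : ℝ × ℝ, IntegrableOn (fun p => G (p + c)) K := fun c =>
      (by fun_prop : Continuous fun p => G (p + c)).continuousOn.integrableOn_compact hK
    have j0 : IntegrableOn G K := hGc.continuousOn.integrableOn_compact hK
    have jj : IntegrableOn (fun p => G (p + h • b) + G (p + -(h • b))) K := (j _).add (j _)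
    rw [integral_sub jj (j0.const_mul 2), integral_add (j _) (j _), integral_const_mul]
  rw [i3]
  linarith

lemma par_nonneg (hF : ConvexOn ℝ univ F) (hc : Continuous F) (a b : ℝ × ℝ) :
    ∀ᵐ p : ℝ × ℝ, (∃ c, Tendsto (fun n => TT F a b n p) atTop (𝓝 c)) ∧
      ∀ c, Tendsto (fun n => TT F a b n p) atTop (𝓝 c) → 0 ≤ c := by
  set q : ℝ × ℝ → ℝ := fun p => limsup (fun n => TT F a b n p) atTop with hq
  have hqm : Measurable q := Measurable.limsup fun n => (TT_cont hc a b n).measurable
  set C : Set (ℝ × ℝ) := {p | ∃ c, Tendsto (fun n => TT F a b n p) atTop (𝓝 c)} with hC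
  have hCm : MeasurableSet C :=
    MeasureTheory.measurableSet_exists_tendsto (fun n => (TT_cont hc a b n).measurable)
  have hCq : ∀ p ∈ C, Tendsto (fun n => TT F a b n p) atTop (𝓝 (q p)) := by
    rintro p ⟨c, hcc⟩
    rw [hq]
    simp only
    rw [hcc.limsup_eq]
    exact hcc
  set S : ℕ → Set (ℝ × ℝ) := fun M => {p | ∀ n, dq F a (hn n) p ≤ M ∧ dq F b (hn n) p ≤ M ∧
    dq F (a + b) (hn n) p ≤ M ∧ dq F (a - b) (hn n) p ≤ M} with hS
  have hSm : ∀ M, MeasurableSet (S M) := by
    intro M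
    have : S M = ⋂ n, {p | dq F a (hn n) p ≤ M ∧ dq F b (hn n) p ≤ M ∧
        dq F (a + b) (hn n) p ≤ M ∧ dq F (a - b) (hn n) p ≤ M} := by
      ext p; simp [hS]
    rw [this]
    refine MeasurableSet.iInter fun n => IsClosed.measurableSet ?_
    exact (isClosed_le (dq_cont hc _ _) continuous_const).inter
      ((isClosed_le (dq_cont hc _ _) continuous_const).inter
      ((isClosed_le (dq_cont hc _ _) continuous_const).inter
      (isClosed_le (dq_cont hc _ _) continuous_const)))
  have hnull : ∀ M, volume ({p | q p < 0} ∩ C ∩ S M) = 0 := by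
    intro M
    by_contra hne
    have hAm : MeasurableSet ({p | q p < 0} ∩ C ∩ S M) :=
      ((measurableSet_lt hqm measurable_const).inter hCm).inter (hSm M)
    obtain ⟨K, hKA, hK, hKpos⟩ := hAm.exists_lt_isCompact (pos_iff_ne_zero.2 hne)
    have h0 := int_par hF hc a b hK (M := M) (fun n p hp => ((hKA hp).2 n).1)
      (fun n p hp => ((hKA hp).2 n).2.1) (fun n p hp => ((hKA hp).2 n).2.2.1)
      (fun n p hp => ((hKA hp).2 n).2.2.2) (q := q) (fun p hp => hCq p (hKA hp).1.2)
    have hbd : ∀ p ∈ K, ‖q p‖ ≤ 4 * M := by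
      intro p hp
      have h1 := hCq p (hKA hp).1.2
      refine le_of_tendsto h1.norm (Eventually.of_forall fun n => ?_)
      obtain ⟨e1, e2, e3, e4⟩ := (hKA hp).2 n
      have f1 := dq_nonneg hF a (hn n) p
      have f2 := dq_nonneg hF b (hn n) p
      have f3 := dq_nonneg hF (a + b) (hn n) p
      have f4 := dq_nonneg hF (a - b) (hn n) p
      rw [Real.norm_eq_abs, abs_le]
      unfold TT
      constructor <;> linarith
    have hint : IntegrableOn q K := by
      refine Measure.integrableOn_of_bounded (M := 4 * M) hK.measure_lt_top.ne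
        hqm.aestronglyMeasurable ?_
      filter_upwards [ae_restrict_mem hK.measurableSet] with p hp
      exact hbd p hp
    have hneg : 0 < ∫ p in K, -q p := by
      rw [setIntegral_pos_iff_support_of_nonneg_ae]
      · have : Function.support (fun p => -q p) ∩ K = K := by
          apply inter_eq_right.2
          intro p hp
          have : q p < 0 := (hKA hp).1.1
          simp only [Function.mem_support]
          linarith
        rw [this]
        exact hKpos
      · filter_upwards [ae_restrict_mem hK.measurableSet] with p hp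
        have : q p < 0 := (hKA hp).1.1
        show (0 : ℝ) ≤ -q p
        linarith
      · exact hint.neg
    rw [integral_neg] at hneg
    linarith
  have hall : ∀ᵐ p : ℝ × ℝ, ∀ M, p ∉ {p | q p < 0} ∩ C ∩ S M :=
    ae_all_iff.2 fun M => measure_eq_zero_iff_ae_notMem.1 (hnull M)
  filter_upwards [hall, ae_dq hF hc a, ae_dq hF hc b, ae_dq hF hc (a + b), ae_dq hF hc (a - b)]
    with p h0 ⟨⟨M1, g1⟩, c1, k1⟩ ⟨⟨M2, g2⟩, c2, k2⟩ ⟨⟨M3, g3⟩, c3, k3⟩ ⟨⟨M4, g4⟩, c4, k4⟩
  have hp : p ∈ C :=
    ⟨_, ((k3.add k4).sub (k1.const_mul 2)).sub (k2.const_mul 2)⟩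
  refine ⟨hp, fun c hcc => ?_⟩
  have e := tendsto_nhds_unique hcc (hCq p hp)
  rw [e]
  by_contra hlt
  push Not at hlt
  apply h0 (M1 + M2 + M3 + M4)
  refine ⟨⟨hlt, hp⟩, fun n => ?_⟩
  have hh : hn n ∈ Ioc (0 : ℝ) 1 := ⟨hn_pos n, hn_le n⟩
  have i1 := g1 _ hh
  have i2 := g2 _ hh
  have i3 := g3 _ hh
  have i4 := g4 _ hh
  have n1 : (0 : ℝ) ≤ M1 := Nat.cast_nonneg _
  have n2 : (0 : ℝ) ≤ M2 := Nat.cast_nonneg _
  have n3 : (0 : ℝ) ≤ M3 := Nat.cast_nonneg _
  have n4 : (0 : ℝ) ≤ M4 := Nat.cast_nonneg _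
  push_cast
  refine ⟨?_, ?_, ?_, ?_⟩ <;> linarith

lemma dq_two (a : ℝ × ℝ) (n : ℕ) (p : ℝ × ℝ) :
    dq F ((2 : ℝ) • a) (hn (2 * n + 1)) p = 4 * dq F a (hn n) p := by
  have h0 : ((n : ℝ) + 1) ≠ 0 := by positivity
  have e : hn (2 * n + 1) • (2 : ℝ) • a = hn n • a := by
    rw [smul_smul]
    congr 1
    unfold hn
    push_cast
    field_simp
    ring
  have e2 : hn n = 2 * hn (2 * n + 1) := by
    unfold hn
    push_cast
    field_simp
    ring
  have e3 : hn (2 * n + 1) ≠ 0 := (hn_pos _).ne'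
  unfold dq
  rw [e, e2]
  field_simp
  ring

lemma lim_two {a p : ℝ × ℝ} {c c2 : ℝ} (h : Tendsto (fun n => dq F a (hn n) p) atTop (𝓝 c))
    (h2 : Tendsto (fun n => dq F ((2 : ℝ) • a) (hn n) p) atTop (𝓝 c2)) : c2 = 4 * c := by
  have h3 : Tendsto (fun n : ℕ => 2 * n + 1) atTop atTop :=
    tendsto_atTop_mono (fun n => by simp only [id]; omega) tendsto_id
  have h4 := h2.comp h3
  refine tendsto_nhds_unique h4 ((h.const_mul 4).congr fun n => ?_)
  rw [Function.comp, dq_two]

/-- **the parallelogram law almost everywhere** -/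
theorem ae_par (hF : ConvexOn ℝ univ F) (hc : Continuous F) (a b : ℝ × ℝ) :
    ∀ᵐ p : ℝ × ℝ, Tendsto (fun n => TT F a b n p) atTop (𝓝 0) := by
  filter_upwards [par_nonneg hF hc a b, par_nonneg hF hc (a + b) (a - b), ae_dq hF hc a,
    ae_dq hF hc b, ae_dq hF hc ((2 : ℝ) • a), ae_dq hF hc ((2 : ℝ) • b)]
    with p ⟨⟨c, h1⟩, h2⟩ ⟨_, h3⟩ ⟨_, ca, ka⟩ ⟨_, cb, kb⟩ ⟨_, ca2, ka2⟩ ⟨_, cb2, kb2⟩
  have e1 : (a + b) + (a - b) = (2 : ℝ) • a := by module
  have e2 : (a + b) - (a - b) = (2 : ℝ) • b := by module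
  have ea := lim_two ka ka2
  have eb := lim_two kb kb2
  subst ea eb
  have hs : Tendsto (fun n => TT F (a + b) (a - b) n p) atTop (𝓝 (-2 * c)) := by
    have h4 := ((ka2.add kb2).sub ((ka.const_mul 4).add (kb.const_mul 4))).sub (h1.const_mul 2)
    have e3 : 4 * ca + 4 * cb - (4 * ca + 4 * cb) - 2 * c = -2 * c := by ring
    rw [e3] at h4
    refine h4.congr fun n => ?_
    unfold TT
    rw [e1, e2]
    ring
  have p1 := h2 c h1
  have p2 := h3 _ hs
  have : c = 0 := by linarith
  rwa [this] at h1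

end Pool.Agent.Y278.Rot
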