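import Pool.Agent.Y278.Rot.Par

/-! # Uniformity of the second order expansion on finite dimensional spaces of directions -/

set_option autoImplicit false

namespace Pool.Agent.Y278.Rot

open Set Filter Topology Asymptotics

variable {E : Type} [NormedAddCommGroup E] [NormedSpace ℝ E]
variable {z : E} {f : StrongDual ℝ E}

lemma unif_near (hf : Nm z f) {u : E} {m : ℝ} (hm : Lm z f u m) {K lam : ℝ} (hmK : m ≤ K)
    (hl0 : 0 < lam) (hl1 : lam ≤ 1 / 2) :
    ∀ᶠ t in 𝓝[≠] (0 : ℝ), ∀ w, Bd z f (w - u) lam → |ph z f t w - m| ≤ (2 * K + 3) * lam := by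
  have hm0 := Lm_nonneg hf hm
  have ha0 : 0 < 1 - lam := by linarith
  have ev1 : ∀ᶠ t in 𝓝[≠] (0 : ℝ), |ph z f ((1 - lam)⁻¹ * t) u - m| ≤ lam := by
    have h := hm.comp (tendsto_mul_ne (inv_ne_zero ha0.ne'))
    have := Metric.tendsto_nhds.1 h lam hl0
    filter_upwards [this] with t ht
    rw [Real.dist_eq] at ht
    exact ht.le
  have ev2 : ∀ᶠ t in 𝓝[≠] (0 : ℝ), |ph z f ((1 - lam) * t) u - m| ≤ lam := by
    have h := hm.comp (tendsto_mul_ne ha0.ne')
    have := Metric.tendsto_nhds.1 h lam hl0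
    filter_upwards [this] with t ht
    rw [Real.dist_eq] at ht
    exact ht.le
  filter_upwards [ev1, ev2, self_mem_nhdsWithin] with t h1 h2 ht w hk
  have hk' : Bd z f (u - w) lam := by
    have := Bd_neg hk
    rwa [neg_sub] at this
  have ht : t ≠ 0 := ht
  have s1 := split (z := z) (f := f) t u (w - u) ha0 (by linarith)
  rw [add_sub_cancel, sub_sub_cancel] at s1
  have b1 := hk (lam⁻¹ * t) (mul_ne_zero (inv_ne_zero hl0.ne') ht)
  have s2 := split (z := z) (f := f) ((1 - lam) * t) w (u - w) ha0 (by linarith)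
  rw [add_sub_cancel, sub_sub_cancel] at s2
  have b2 := hk' (lam⁻¹ * ((1 - lam) * t))
    (mul_ne_zero (inv_ne_zero hl0.ne') (mul_ne_zero ha0.ne' ht))
  have e : (1 - lam)⁻¹ * ((1 - lam) * t) = t := by field_simp
  rw [e] at s2
  obtain ⟨h1a, h1b⟩ := abs_le.1 h1
  obtain ⟨h2a, h2b⟩ := abs_le.1 h2
  have hi : lam⁻¹ * lam ^ 2 = lam := by field_simp
  have b1' : lam⁻¹ * ph z f (lam⁻¹ * t) (w - u) ≤ lam := by
    calc lam⁻¹ * ph z f (lam⁻¹ * t) (w - u) ≤ lam⁻¹ * lam ^ 2 := by gcongr
      _ = lam := hi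
  have b2' : lam⁻¹ * ph z f (lam⁻¹ * ((1 - lam) * t)) (u - w) ≤ lam := by
    calc lam⁻¹ * ph z f (lam⁻¹ * ((1 - lam) * t)) (u - w) ≤ lam⁻¹ * lam ^ 2 := by gcongr
      _ = lam := hi
  have hinv : (1 - lam)⁻¹ ≤ 1 + 2 * lam := by
    rw [inv_le_iff_one_le_mul₀ ha0]
    nlinarith
  have u1 : ph z f t w ≤ (1 + 2 * lam) * (m + lam) + lam := by
    calc ph z f t w ≤ (1 - lam)⁻¹ * ph z f ((1 - lam)⁻¹ * t) u
          + lam⁻¹ * ph z f (lam⁻¹ * t) (w - u) := s1
      _ ≤ (1 + 2 * lam) * (m + lam) + lam := by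
          have := ph_nonneg hf ((1 - lam)⁻¹ * t) u
          gcongr
          linarith
  have u2 : (1 - lam) * (m - 2 * lam) ≤ ph z f t w := by
    have h3 : m - 2 * lam ≤ (1 - lam)⁻¹ * ph z f t w := by linarith
    calc (1 - lam) * (m - 2 * lam) ≤ (1 - lam) * ((1 - lam)⁻¹ * ph z f t w) := by gcongr
      _ = ph z f t w := by field_simp
  rw [abs_le]
  have hmm : m * lam ≤ K * lam := by gcongr
  constructor
  · nlinarith
  · nlinarith

lemma Bd_sum {κ : Type} (s : Finset κ) {w : κ → E} {D : κ → ℝ} (hD : ∀ i ∈ s, 0 < D i)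
    (h : ∀ i ∈ s, Bd z f (w i) (D i)) : Bd z f (∑ i ∈ s, w i) (∑ i ∈ s, D i) := by
  classical
  induction s using Finset.induction_on with
  | empty => simp only [Finset.sum_empty]; exact Bd_zero _
  | insert a s ha ih =>
    rw [Finset.sum_insert ha, Finset.sum_insert ha]
    rcases s.eq_empty_or_nonempty with rfl | hs
    · simp only [Finset.sum_empty, add_zero]
      exact h a (Finset.mem_insert_self _ _)
    · refine Bd_add (h a (Finset.mem_insert_self _ _))
        (ih (fun i hi => hD i (Finset.mem_insert_of_mem hi))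
          (fun i hi => h i (Finset.mem_insert_of_mem hi)))
        (hD a (Finset.mem_insert_self _ _))
        (Finset.sum_pos (fun i hi => hD i (Finset.mem_insert_of_mem hi)) hs)

variable {F : Type} [NormedAddCommGroup F] [NormedSpace ℝ F] [FiniteDimensional ℝ F]

lemma Bd_fd (j : F →ₗ[ℝ] E) (hB : ∀ w : F, ∃ C : ℝ, 0 < C ∧ Bd z f (j w) C) :
    ∃ M : ℝ, 0 < M ∧ ∀ w : F, Bd z f (j w) (M * ‖w‖) := by
  let b := Module.finBasis ℝ F
  choose C hC hBC using fun i => hB (b i)
  have hc : ∀ i, ∃ M : ℝ, 0 ≤ M ∧ ∀ w : F, |b.repr w i| ≤ M * ‖w‖ := by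
    intro i
    let L : F →L[ℝ] ℝ := LinearMap.toContinuousLinearMap (b.coord i)
    refine ⟨‖L‖, norm_nonneg _, fun w => ?_⟩
    have := L.le_opNorm w
    rw [Real.norm_eq_abs] at this
    exact this
  choose M hM hbM using hc
  refine ⟨∑ i, (M i + 1) * C i + 1, ?_, fun w => ?_⟩
  · have : 0 ≤ ∑ i, (M i + 1) * C i := Finset.sum_nonneg fun i _ => by
      have := hM i
      have := hC i
      positivity
    linarith
  · rcases eq_or_ne w 0 with rfl | hw
    · rw [map_zero]; exact Bd_zero _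
    · have hw0 : 0 < ‖w‖ := norm_pos_iff.2 hw
      have e : j w = ∑ i, (b.repr w i) • j (b i) := by
        conv_lhs => rw [← b.sum_repr w]
        rw [map_sum]
        simp only [map_smul]
      rw [e]
      have h1 := Bd_sum (z := z) (f := f) Finset.univ (w := fun i => (b.repr w i) • j (b i))
        (D := fun i => ((M i + 1) * C i) * ‖w‖)
        (fun i _ => by
          have := hM i
          have := hC i
          positivity)
        (fun i _ => by
          refine Bd_mono (Bd_smul (hBC i) (b.repr w i)) ?_ ?_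
          · have := hC i
            positivity
          · have := hC i
            calc |b.repr w i| * C i ≤ (M i * ‖w‖) * C i := by gcongr; exact hbM i w
              _ ≤ (M i + 1) * C i * ‖w‖ := by
                have : 0 ≤ C i * ‖w‖ := by positivity
                nlinarith)
      refine Bd_mono h1 ?_ ?_
      · exact Finset.sum_nonneg fun i _ => by
          have := hM i
          have := hC i
          positivity
      · rw [← Finset.sum_mul]
        gcongr
        linarith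

/-- **Second order Taylor expansion on a finite dimensional space of directions.** -/
theorem taylor_fd (hf : Nm z f) (j : F →ₗ[ℝ] E) (q : F → ℝ) (hq : ∀ w, Lm z f (j w) (q w)) :
    (fun w : F => ‖z + j w‖ - ‖z‖ - f (j w) - q w) =o[𝓝 0] fun w : F => ‖w‖ ^ 2 := by
  obtain ⟨M, hM0, hM⟩ := Bd_fd (z := z) (f := f) j fun w => Bd_of_Lm hf (hq w)
  have hqs : ∀ (c : ℝ) w, q (c • w) = c ^ 2 * q w := fun c w =>
    Lm_unique (hq (c • w)) (by
      have h := Lm_smul (hq w) c
      rwa [← map_smul] at h)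
  rw [isLittleO_iff]
  intro ε hε
  set K := M ^ 2 with hK
  set lam := min (1 / 2) (ε / (2 * (2 * K + 3))) with hlam
  have hl0 : 0 < lam := by
    rw [hlam]; apply lt_min <;> positivity
  have hl1 : lam ≤ 1 / 2 := min_le_left _ _
  have hl2 : (2 * K + 3) * lam ≤ ε / 2 := by
    have : lam ≤ ε / (2 * (2 * K + 3)) := min_le_right _ _
    rw [le_div_iff₀ (by positivity)] at this
    linarith
  -- compactness of the sphere
  have hcpt : IsCompact (Metric.sphere (0 : F) 1) := isCompact_sphere 0 1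
  obtain ⟨s, hs, hcov⟩ := hcpt.elim_nhds_subcover (fun u => Metric.ball u (lam / M))
    (fun u _ => Metric.ball_mem_nhds u (by positivity))
  have hqK : ∀ u ∈ Metric.sphere (0 : F) 1, q u ≤ K := by
    intro u hu
    have h1 := Lm_le_of_Bd (hq u) (hM u)
    rw [mem_sphere_zero_iff_norm] at hu
    rwa [hu, mul_one] at h1
  have hev : ∀ᶠ t in 𝓝[≠] (0 : ℝ), ∀ u ∈ s, ∀ w, Bd z f (w - j u) lam →
      |ph z f t w - q u| ≤ (2 * K + 3) * lam := by
    rw [Filter.eventually_all_finset]
    exact fun u hu => unif_near hf (hq u) (hqK u (hs u hu)) hl0 hl1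
  -- for all unit vectors
  have hball : ∀ u w : F, w ∈ Metric.ball u (lam / M) → Bd z f (j w - j u) lam := by
    intro u w hw
    rw [← map_sub]
    refine Bd_mono (hM _) (by positivity) ?_
    rw [mem_ball_iff_norm, lt_div_iff₀ hM0] at hw
    linarith
  have hunit : ∀ᶠ t in 𝓝[≠] (0 : ℝ), ∀ w ∈ Metric.sphere (0 : F) 1, |ph z f t (j w) - q w| ≤ ε := by
    filter_upwards [hev] with t ht w hw
    obtain ⟨u, hu, hwu⟩ := mem_iUnion₂.1 (hcov hw)
    have h1 := ht u hu (j w) (hball u w hwu)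
    have h2 : |q w - q u| ≤ (2 * K + 3) * lam := by
      have h3 : Tendsto (fun t => |ph z f t (j w) - q u|) (𝓝[≠] 0) (𝓝 |q w - q u|) :=
        ((hq w).sub_const (q u)).abs
      refine le_of_tendsto h3 ?_
      filter_upwards [unif_near hf (hq u) (hqK u (hs u hu)) hl0 hl1] with t' ht'
      exact ht' (j w) (hball u w hwu)
    calc |ph z f t (j w) - q w| = |(ph z f t (j w) - q u) - (q w - q u)| := by ring_nf
      _ ≤ |ph z f t (j w) - q u| + |q w - q u| := abs_sub _ _
      _ ≤ ε := by linarith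
  rw [eventually_nhdsWithin_iff, Metric.eventually_nhds_iff] at hunit
  obtain ⟨δ, hδ, hunit⟩ := hunit
  rw [Metric.eventually_nhds_iff]
  refine ⟨δ, hδ, fun w hw => ?_⟩
  rw [dist_zero_right] at hw
  rcases eq_or_ne w 0 with rfl | hw0
  · have : q 0 = 0 := by
      have := hqs 0 0
      rwa [zero_smul, zero_pow two_ne_zero, zero_mul] at this
    simp [this]
  · have hn : 0 < ‖w‖ := norm_pos_iff.2 hw0
    have h1 := hunit (y := ‖w‖) (by rw [Real.dist_eq, sub_zero, abs_of_pos hn]; exact hw) hn.ne'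
      (‖w‖⁻¹ • w) (by
        rw [mem_sphere_zero_iff_norm, norm_smul, norm_inv, norm_norm, inv_mul_cancel₀ hn.ne'])
    have e : ‖z + j w‖ - ‖z‖ - f (j w) - q w
        = ‖w‖ ^ 2 * (ph z f ‖w‖ (j (‖w‖⁻¹ • w)) - q (‖w‖⁻¹ • w)) := by
      unfold ph
      rw [map_smul, smul_smul, mul_inv_cancel₀ hn.ne', one_smul, hqs, map_smul, smul_eq_mul]
      field_simp
    rw [e, norm_mul, Real.norm_eq_abs (_ - _), norm_pow, norm_norm, mul_comm]
    gcongr

end Pool.Agent.Y278.Rot
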